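import Pool.Agent.MP217Area.CovMom

set_option autoImplicit false

/-!
# Coverage: the final count
-/

namespace Pool.Agent.A217

open Finset

attribute [local instance 10] Classical.propDecidable

namespace Nest

variable {n L ν0 : ℕ} (G : Nest n L ν0 (4 * n * 2 ^ ν0))

/-- PROOF: if the condition fails, then `uncv ν ≠ ∅` for some `ν ≤ ν0` (then some `x` is missed by
all picks of scale `ν0`, `hfull`: `miss_one`, at most `n < 2 ^ (L+1)` vertices `x`), or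
`2 ^ (ν+5) ≤ |uncv ν|` for some `ν0 < ν ≤ l` (`tail`, at most `L` values of `ν`). -/
theorem cover_count {g l : ℕ} (hn : n < 2 ^ (L + 1)) (hg : L + 1 ≤ 2 ^ g)
    (hν0 : 16 * (L + 1) ≤ 2 ^ ν0) (hfull : ∀ ν ≤ ν0, ∀ x, G.N ν x = univ) (hl0 : ν0 < l)
    (hl : l ≤ L) (M : Finset (Fin n)) (hM : 2 ^ (l + 5) ≤ M.card) :
    2 ^ (16 * (L + 1)) *
      (univ.filter fun v : Fin (nsl L g ν0 l) → Fin n → Fin (2 ^ (L + 3)) =>
        ¬ ∀ ν ≤ l, (G.uncv g l ν M v).card < cap ν0 ν).card ≤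
      (2 ^ (L + 3)) ^ (n * nsl L g ν0 l) := by
  set T : ℕ := (2 ^ (L + 3)) ^ (n * nsl L g ν0 l) with hT
  set A : Fin n → Finset (Fin (nsl L g ν0 l) → Fin n → Fin (2 ^ (L + 3))) := fun x =>
    univ.filter fun v => ∀ j, sca L g ν0 l j.val = ν0 → ∀ a ∈ M,
      G.pick ν0 a (v j a).val ≠ x with hA
  set B : ℕ → Finset (Fin (nsl L g ν0 l) → Fin n → Fin (2 ^ (L + 3))) := fun ν =>
    univ.filter fun v => 2 ^ (ν + 5) ≤ (G.uncv g l ν M v).card with hB
  have hsub : (univ.filter fun v : Fin (nsl L g ν0 l) → Fin n → Fin (2 ^ (L + 3)) =>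
        ¬ ∀ ν ≤ l, (G.uncv g l ν M v).card < cap ν0 ν) ⊆
      (univ.biUnion A) ∪ ((Ioc ν0 l).biUnion B) := by
    intro v hv
    rw [mem_filter] at hv
    have hv2 := hv.2
    push Not at hv2
    obtain ⟨ν, hνl, hν⟩ := hv2
    rw [mem_union, mem_biUnion, mem_biUnion]
    by_cases h0 : ν ≤ ν0
    · left
      have hcap : cap ν0 ν = 1 := by simp [cap, h0]
      rw [hcap] at hν
      obtain ⟨x, hx⟩ := card_pos.mp hν
      refine ⟨x, mem_univ x, ?_⟩
      simp only [hA, mem_filter, mem_univ, true_and]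
      intro j hj a ha hpick
      simp only [uncv, mem_filter, mem_univ, true_and] at hx
      refine hx ⟨a, ha, ?_, Or.inr ⟨j, ?_⟩⟩
      · rw [hfull ν h0 a]; exact mem_univ x
      · rw [hj]; exact hpick
    · right
      have hcap : cap ν0 ν = 2 ^ (ν + 5) := by simp [cap, h0]
      rw [hcap] at hν
      refine ⟨ν, mem_Ioc.mpr ⟨not_le.mp h0, hνl⟩, ?_⟩
      simp only [hB, mem_filter, mem_univ, true_and]
      exact hν
  have hcard := (card_le_card hsub).trans ((card_union_le _ _).trans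
    (add_le_add card_biUnion_le card_biUnion_le))
  have hA1 : ∀ x ∈ (univ : Finset (Fin n)), 2 ^ (32 * (L + 1)) * (A x).card ≤ T := fun x _ =>
    G.miss_one g l hn hg hl0 hl (hfull ν0 le_rfl) M hM x
  have hB1 : ∀ ν ∈ Ioc ν0 l, 2 ^ (32 * (L + 1)) * (B ν).card ≤ T := fun ν hν =>
    G.tail hn hν0 (mem_Ioc.mp hν).1 (mem_Ioc.mp hν).2 hl M hM
  have hA2 : 2 ^ (32 * (L + 1)) * ∑ x, (A x).card ≤ n * T := by
    rw [mul_sum]
    refine (sum_le_card_nsmul _ _ _ hA1).trans ?_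
    rw [card_univ, Fintype.card_fin, smul_eq_mul]
  have hB2 : 2 ^ (32 * (L + 1)) * ∑ ν ∈ Ioc ν0 l, (B ν).card ≤ L * T := by
    rw [mul_sum]
    refine (sum_le_card_nsmul _ _ _ hB1).trans ?_
    rw [Nat.card_Ioc, smul_eq_mul]
    exact Nat.mul_le_mul_right _ ((Nat.sub_le _ _).trans hl)
  have hnum : n + L ≤ 2 ^ (16 * (L + 1)) := by
    have h1 : L < 2 ^ (L + 1) := (Nat.lt_succ_self L).trans Nat.lt_two_pow_self
    have h2 : 2 ^ (L + 1 + 1) ≤ 2 ^ (16 * (L + 1)) := Nat.pow_le_pow_right (by norm_num) (by omega)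
    have h3 : 2 ^ (L + 1 + 1) = 2 ^ (L + 1) * 2 := pow_succ _ _
    omega
  have hfin : 2 ^ (16 * (L + 1)) * (2 ^ (16 * (L + 1)) *
      (univ.filter fun v : Fin (nsl L g ν0 l) → Fin n → Fin (2 ^ (L + 3)) =>
        ¬ ∀ ν ≤ l, (G.uncv g l ν M v).card < cap ν0 ν).card) ≤ 2 ^ (16 * (L + 1)) * T := by
    rw [← mul_assoc, ← pow_add, ← add_mul]
    calc 2 ^ ((16 + 16) * (L + 1)) * (univ.filter fun v : Fin (nsl L g ν0 l) → Fin n →
            Fin (2 ^ (L + 3)) => ¬ ∀ ν ≤ l, (G.uncv g l ν M v).card < cap ν0 ν).card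
        ≤ 2 ^ (32 * (L + 1)) * (∑ x, (A x).card + ∑ ν ∈ Ioc ν0 l, (B ν).card) :=
          Nat.mul_le_mul_left _ hcard
      _ ≤ n * T + L * T := by rw [mul_add]; exact add_le_add hA2 hB2
      _ = (n + L) * T := by ring
      _ ≤ 2 ^ (16 * (L + 1)) * T := Nat.mul_le_mul_right _ hnum
  exact Nat.le_of_mul_le_mul_left hfin (by positivity)

end Nest

end Pool.Agent.A217
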