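import Pool.Agent.MP217Area.Nest

set_option autoImplicit false

/-!
# Coverage: definitions
-/

namespace Pool.Agent.A217

open Finset

attribute [local instance 10] Classical.propDecidable

/-- Number of picks at a scale `ν > ν0`. -/
def kap (L l : ℕ) : ℕ := 2 ^ (L - l + 5)

/-- Number of picks at the scale `ν0`. -/
def kap0 (L g l : ℕ) : ℕ := 2 ^ (L - l + g + 3)

/-- Number of picks. -/
def nsl (L g ν0 l : ℕ) : ℕ := kap0 L g l + (l - ν0 - 1) * kap L l

/-- The scale of slot `j`. -/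
def sca (L g ν0 l j : ℕ) : ℕ :=
  if j < kap0 L g l then ν0 else ν0 + 1 + (j - kap0 L g l) / kap L l

/-- The bound for the number of uncovered vertices. -/
def cap (ν0 ν : ℕ) : ℕ := if ν ≤ ν0 then 1 else 2 ^ (ν + 5)

namespace Nest

variable {n L ν0 Q : ℕ} (G : Nest n L ν0 Q)

/-- The pick of `p` at scale `ν` with seed `s`. -/
noncomputable def pick (ν : ℕ) (p : Fin n) (s : ℕ) : Fin n :=
  ((G.N ν p).toList).getD (s % 2 ^ (L + 3 + ν0 - ν)) p

/-- The vertices not covered along `N ν` by `M`. -/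
noncomputable def uncv (g l ν : ℕ) (M : Finset (Fin n))
    (v : Fin (nsl L g ν0 l) → Fin n → Fin (2 ^ (L + 3))) : Finset (Fin n) :=
  univ.filter fun x => ¬ ∃ a ∈ M, x ∈ G.N ν a ∧
    (x ∈ G.N l a ∨ ∃ j, G.pick (sca L g ν0 l j.val) a (v j a).val = x)

/-- `x` is rich at scale `μ` (for teams with `2 ^ (l + 5)` members). -/
def Rch (l : ℕ) (M : Finset (Fin n)) (μ : ℕ) (x : Fin n) : Prop :=
  2 ^ (ν0 + l) ≤ 2 ^ μ * (M ∩ G.N μ x).card

end Nest

end Pool.Agent.A217
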