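import Pool.Agent.MP217Area.CovProd

set_option autoImplicit false

/-!
# Coverage: the exponential moment
-/

namespace Pool.Agent.A217

open Finset

attribute [local instance 10] Classical.propDecidable

private theorem mm_exp4 : Real.exp (-4) ≤ 1 / 16 := by
  have h1 : (2 : ℝ) ≤ Real.exp 1 := by
    have := Real.add_one_le_exp (1 : ℝ)
    linarith
  have h2 : (16 : ℝ) ≤ Real.exp 4 := by
    calc (16 : ℝ) = 2 ^ 4 := by norm_num
      _ ≤ Real.exp 1 ^ 4 := pow_le_pow_left₀ (by norm_num) h1 _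
      _ = Real.exp 4 := by rw [← Real.exp_nat_mul]; norm_num
  rw [Real.exp_neg, one_div]
  exact inv_anti₀ (by norm_num) h2

private theorem mm_geom (m : ℕ) : ∑ i ∈ range m, ((1 / 8 : ℝ)) ^ i ≤ 2 := by
  have h : ∀ m : ℕ, ∑ i ∈ range m, ((1 / 8 : ℝ)) ^ i = (1 - (1 / 8) ^ m) * (8 / 7) := by
    intro m
    induction m with
    | zero => simp
    | succ m ih => rw [sum_range_succ, ih, pow_succ]; ring
  rw [h]
  have : (0 : ℝ) < (1 / 8) ^ m := by positivity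
  linarith

namespace Nest

variable {n L ν0 : ℕ} (G : Nest n L ν0 (4 * n * 2 ^ ν0))

/-- Few vertices are not rich (`G.rich` with `A = M`, `max μ ν0 = μ`). -/
theorem not_rch {l μ : ℕ} (h0 : ν0 ≤ μ) (hμ : μ ≤ l) (hl : l ≤ L) (M : Finset (Fin n))
    (hM : 2 ^ (l + 5) ≤ M.card) :
    (univ.filter fun x => ¬ G.Rch l M μ x).card < 2 ^ μ := by
  have h1 : 2 ^ μ ≤ M.card :=
    le_trans (Nat.pow_le_pow_right (by norm_num) (by omega)) hM
  refine lt_of_le_of_lt (card_le_card ?_) (G.rich μ (hμ.trans hl) M h1)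
  intro x hx
  rw [mem_filter] at hx ⊢
  refine ⟨hx.1, ?_⟩
  have h2 : 2 ^ μ * (M ∩ G.N μ x).card < 2 ^ (ν0 + l) := by
    by_contra h3
    exact hx.2 (by
      unfold Rch
      omega)
  rw [max_eq_left h0]
  calc 32 * (2 ^ μ * (M ∩ G.N μ x).card) < 32 * 2 ^ (ν0 + l) :=
        Nat.mul_lt_mul_of_pos_left h2 (by norm_num)
    _ = 2 ^ ν0 * 2 ^ (l + 5) := by rw [pow_add, pow_add]; ring
    _ ≤ 2 ^ ν0 * M.card := Nat.mul_le_mul_left _ hM

/-- Uncovered vertices are not rich at scale `l` and are missed by all picks of scale `≥ ν`.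
PROOF: `Rch l` gives `a ∈ M ∩ N l x`, `a` covers `x` (`G.symm`, `G.mono`); a pick `x` of scale
`μ ≥ ν` is in `N μ a ⊆ N ν a` (`pick_mem`, `G.mono`). -/
theorem uncv_spec {g l ν : ℕ} (hν : ν ≤ l) {M : Finset (Fin n)}
    {v : Fin (nsl L g ν0 l) → Fin n → Fin (2 ^ (L + 3))} {x : Fin n} (hx : x ∈ G.uncv g l ν M v) :
    ¬ G.Rch l M l x ∧ ∀ j, ν ≤ sca L g ν0 l j.val → ∀ a ∈ M,
      G.pick (sca L g ν0 l j.val) a (v j a).val ≠ x := by
  unfold uncv at hx
  rw [mem_filter] at hx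
  have hx := hx.2
  push Not at hx
  refine ⟨fun hr => ?_, fun j hj a ha he => ?_⟩
  · unfold Rch at hr
    have hpos : 0 < (M ∩ G.N l x).card := by
      by_contra h0
      have h0 : (M ∩ G.N l x).card = 0 := by omega
      rw [h0, mul_zero] at hr
      have : 0 < 2 ^ (ν0 + l) := by positivity
      omega
    obtain ⟨a, ha⟩ := card_pos.mp hpos
    rw [mem_inter] at ha
    have h1 : x ∈ G.N l a := G.symm l x a ha.2
    exact (hx a ha.1 (G.mono hν a h1)).1 h1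
  · have h1 := G.pick_mem (sca L g ν0 l j.val) a (v j a).val
    rw [he] at h1
    exact (hx a ha (G.mono hj a h1)).2 j he

/-- The weights.  `E` = vertices that are not rich at scale `l`.  PROOF: let `μ` be the smallest
scale `≥ ν` at which `x ∈ E` is not rich; then `x` is rich at the scales `ν, .., μ - 1`, so the
summand is at most `exp (-4 (μ - ν)) ≤ 16 ^ (-(μ - ν))`, and
`∑_{μ ∈ [ν, l]} 2 ^ μ 16 ^ (-(μ - ν)) ≤ 2 ^ ν * 8/7`. -/
theorem sum_weight {l ν : ℕ} (h0 : ν0 < ν) (hν : ν ≤ l) (hl : l ≤ L) (M : Finset (Fin n))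
    (hM : 2 ^ (l + 5) ≤ M.card) :
    ∑ x ∈ univ.filter fun x => ¬ G.Rch l M l x,
      Real.exp (-4 * ((Ico ν l).filter fun μ => G.Rch l M μ x).card) ≤ 2 ^ (ν + 1) := by
  have h1 : ∀ x ∈ univ.filter fun x => ¬ G.Rch l M l x,
      Real.exp (-4 * ((Ico ν l).filter fun μ => G.Rch l M μ x).card) ≤
        ∑ μ ∈ Icc ν l, (if G.Rch l M μ x then (0 : ℝ) else (1 / 16) ^ (μ - ν)) := by
    intro x hx
    rw [mem_filter] at hx
    have hex : ∃ μ, ν ≤ μ ∧ ¬ G.Rch l M μ x := ⟨l, hν, hx.2⟩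
    obtain ⟨hm1, hm2⟩ := Nat.find_spec hex
    have hm3 : Nat.find hex ≤ l := Nat.find_min' hex ⟨hν, hx.2⟩
    set μ0 := Nat.find hex with hμ0
    have hcard : μ0 - ν ≤ ((Ico ν l).filter fun μ => G.Rch l M μ x).card := by
      rw [← Nat.card_Ico]
      refine card_le_card fun μ hμ => ?_
      rw [mem_Ico] at hμ
      rw [mem_filter, mem_Ico]
      refine ⟨⟨hμ.1, lt_of_lt_of_le hμ.2 hm3⟩, ?_⟩
      by_contra h3
      exact Nat.find_min hex hμ.2 ⟨hμ.1, h3⟩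
    refine le_trans ?_ (single_le_sum (f := fun μ => if G.Rch l M μ x then (0 : ℝ)
      else (1 / 16) ^ (μ - ν)) (fun μ _ => ?_) (mem_Icc.mpr ⟨hm1, hm3⟩))
    · simp only [hm2, if_false]
      have h4 : Real.exp (-4) ≤ 1 / 16 := mm_exp4
      calc Real.exp (-4 * (((Ico ν l).filter fun μ => G.Rch l M μ x).card : ℝ))
          ≤ Real.exp (-4 * ((μ0 - ν : ℕ) : ℝ)) := by
            apply Real.exp_le_exp.mpr
            have : ((μ0 - ν : ℕ) : ℝ) ≤
                (((Ico ν l).filter fun μ => G.Rch l M μ x).card : ℝ) := by exact_mod_cast hcard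
            linarith
        _ = Real.exp (-4) ^ (μ0 - ν) := by
            rw [← Real.exp_nat_mul]; congr 1; ring
        _ ≤ (1 / 16) ^ (μ0 - ν) := pow_le_pow_left₀ (Real.exp_pos _).le h4 _
    · split_ifs
      · exact le_rfl
      · positivity
  refine (sum_le_sum h1).trans ?_
  rw [sum_comm]
  have h2 : ∀ μ ∈ Icc ν l, ∑ x ∈ univ.filter (fun x => ¬ G.Rch l M l x),
      (if G.Rch l M μ x then (0 : ℝ) else (1 / 16) ^ (μ - ν)) ≤
        (1 / 16) ^ (μ - ν) * 2 ^ μ := by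
    intro μ hμ
    rw [mem_Icc] at hμ
    calc ∑ x ∈ univ.filter (fun x => ¬ G.Rch l M l x),
          (if G.Rch l M μ x then (0 : ℝ) else (1 / 16) ^ (μ - ν))
        ≤ ∑ x : Fin n, (if G.Rch l M μ x then (0 : ℝ) else (1 / 16) ^ (μ - ν)) := by
          refine sum_le_sum_of_subset_of_nonneg (filter_subset _ _) (fun x _ _ => ?_)
          split_ifs
          · exact le_rfl
          · positivity
      _ = ∑ x ∈ univ.filter (fun x => ¬ G.Rch l M μ x), ((1 / 16 : ℝ)) ^ (μ - ν) := by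
          rw [sum_filter]
          refine sum_congr rfl fun x _ => ?_
          by_cases h : G.Rch l M μ x <;> simp [h]
      _ = (1 / 16) ^ (μ - ν) * ((univ.filter fun x => ¬ G.Rch l M μ x).card : ℝ) := by
          rw [sum_const, nsmul_eq_mul, mul_comm]
      _ ≤ (1 / 16) ^ (μ - ν) * 2 ^ μ := by
          refine mul_le_mul_of_nonneg_left ?_ (by positivity)
          have := G.not_rch (h0.le.trans hμ.1) hμ.2 hl M hM
          exact_mod_cast this.le
  refine (sum_le_sum h2).trans ?_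
  have h3 : ∑ μ ∈ Icc ν l, ((1 / 16 : ℝ)) ^ (μ - ν) * 2 ^ μ =
      ∑ i ∈ range (l + 1 - ν), 2 ^ ν * ((1 / 8 : ℝ)) ^ i := by
    rw [show Icc ν l = Ico ν (l + 1) from rfl, sum_Ico_eq_sum_range]
    refine sum_congr rfl fun i _ => ?_
    rw [Nat.add_sub_cancel_left, pow_add,
      show ((1 / 8 : ℝ)) ^ i = (1 / 16) ^ i * 2 ^ i by rw [← mul_pow]; norm_num]
    ring
  rw [h3, ← mul_sum, pow_succ]
  exact mul_le_mul_of_nonneg_left (mm_geom _) (by positivity)

/-- The moment.  PROOF: `2 ^ |unc| = ∑_{Z ⊆ unc} 1`; exchange the sums; `Z ⊆ unc` implies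
`Z ⊆ E` and the event of `prod_bound` (`uncv_spec`);
`∑_{Z ⊆ E} ∏_{x ∈ Z} q x = ∏_{x ∈ E} (1 + q x) ≤ exp (∑ q) ≤ exp (2 ^ (ν + 1))`, where
`q x = exp (-4 * ..)` as in `sum_weight`. -/
theorem moment {g l ν : ℕ} (hn : n < 2 ^ (L + 1)) (h0 : ν0 < ν) (hν : ν ≤ l) (hl : l ≤ L)
    (M : Finset (Fin n)) (hM : 2 ^ (l + 5) ≤ M.card) :
    ∑ v : Fin (nsl L g ν0 l) → Fin n → Fin (2 ^ (L + 3)), (2 : ℝ) ^ (G.uncv g l ν M v).card ≤
      ((2 : ℝ) ^ (L + 3)) ^ (n * nsl L g ν0 l) * Real.exp (2 ^ (ν + 1)) := by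
  have h1 : ∀ v : Fin (nsl L g ν0 l) → Fin n → Fin (2 ^ (L + 3)),
      (2 : ℝ) ^ (G.uncv g l ν M v).card =
        ∑ Z : Finset (Fin n), if Z ⊆ G.uncv g l ν M v then (1 : ℝ) else 0 := by
    intro v
    rw [← sum_filter, sum_const, nsmul_eq_mul, mul_one]
    have : (univ.filter fun Z : Finset (Fin n) => Z ⊆ G.uncv g l ν M v) =
        (G.uncv g l ν M v).powerset := by
      ext Z; simp
    rw [this, card_powerset]
    norm_cast
  simp_rw [h1]
  rw [sum_comm]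
  have h2 : ∀ Z : Finset (Fin n),
      ∑ v : Fin (nsl L g ν0 l) → Fin n → Fin (2 ^ (L + 3)),
        (if Z ⊆ G.uncv g l ν M v then (1 : ℝ) else 0) ≤
      if Z ⊆ univ.filter (fun x => ¬ G.Rch l M l x) then
        ((2 : ℝ) ^ (L + 3)) ^ (n * nsl L g ν0 l) * ∏ x ∈ Z,
          Real.exp (-4 * ((Ico ν l).filter fun μ => G.Rch l M μ x).card) else 0 := by
    intro Z
    rw [← sum_filter, sum_const, nsmul_eq_mul, mul_one]
    split_ifs with hZ
    · refine le_trans ?_ ((G.prod_bound g l ν hn h0 hν hl M Z).trans_eq ?_)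
      · have : (univ.filter fun v : Fin (nsl L g ν0 l) → Fin n → Fin (2 ^ (L + 3)) =>
            Z ⊆ G.uncv g l ν M v) ⊆ univ.filter fun v => ∀ j, ν ≤ sca L g ν0 l j.val →
              ∀ a ∈ M, G.pick (sca L g ν0 l j.val) a (v j a).val ∉ Z := by
          intro v hv
          rw [mem_filter] at hv ⊢
          refine ⟨mem_univ _, fun j hj a ha hmem => ?_⟩
          exact (G.uncv_spec hν (hv.2 hmem)).2 j hj a ha rfl
        exact_mod_cast card_le_card this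
      · congr 1
        rw [← Real.exp_sum, ← mul_sum]
        congr 2
        have h3 : ∀ μ, ((Z.filter fun x => G.Rch l M μ x).card : ℝ) =
            ∑ x ∈ Z, if G.Rch l M μ x then (1 : ℝ) else 0 := by
          intro μ; rw [card_filter]; push_cast; rfl
        have h4 : ∀ x, (((Ico ν l).filter fun μ => G.Rch l M μ x).card : ℝ) =
            ∑ μ ∈ Ico ν l, if G.Rch l M μ x then (1 : ℝ) else 0 := by
          intro x; rw [card_filter]; push_cast; rfl
        simp_rw [h3, h4]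
        rw [sum_comm]
    · have : (univ.filter fun v : Fin (nsl L g ν0 l) → Fin n → Fin (2 ^ (L + 3)) =>
            Z ⊆ G.uncv g l ν M v) = ∅ := by
        rw [filter_eq_empty_iff]
        intro v _ hv
        apply hZ
        intro x hx
        rw [mem_filter]
        exact ⟨mem_univ _, (G.uncv_spec hν (hv hx)).1⟩
      rw [this]; simp
  refine (sum_le_sum fun Z _ => h2 Z).trans ?_
  rw [← sum_filter, ← mul_sum]
  refine mul_le_mul_of_nonneg_left ?_ (by positivity)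
  have h5 : (univ.filter fun Z : Finset (Fin n) =>
      Z ⊆ univ.filter (fun x => ¬ G.Rch l M l x)) =
        (univ.filter (fun x => ¬ G.Rch l M l x)).powerset := by
    ext Z; rw [mem_filter, mem_powerset]; simp only [mem_univ, true_and]
  rw [h5, ← prod_one_add]
  calc ∏ x ∈ univ.filter (fun x => ¬ G.Rch l M l x),
        (1 + Real.exp (-4 * ((Ico ν l).filter fun μ => G.Rch l M μ x).card))
      ≤ ∏ x ∈ univ.filter (fun x => ¬ G.Rch l M l x), Real.exp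
        (Real.exp (-4 * ((Ico ν l).filter fun μ => G.Rch l M μ x).card)) := by
        refine prod_le_prod (fun x _ => by positivity) (fun x _ => ?_)
        rw [add_comm]
        exact Real.add_one_le_exp _
    _ = Real.exp (∑ x ∈ univ.filter (fun x => ¬ G.Rch l M l x),
          Real.exp (-4 * ((Ico ν l).filter fun μ => G.Rch l M μ x).card)) :=
        (Real.exp_sum _ _).symm
    _ ≤ Real.exp (2 ^ (ν + 1)) := Real.exp_le_exp.mpr (G.sum_weight h0 hν hl M hM)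

/-- PROOF: Markov with `moment`: `exp (2 ^ (ν+1)) ≤ 4 ^ (2 ^ (ν+1)) = 2 ^ (2 ^ (ν+2))` and
`2 ^ (ν+5) - 2 ^ (ν+2) ≥ 2 ^ (ν+4) ≥ 32 (L+1)`. -/
theorem tail {g l ν : ℕ} (hn : n < 2 ^ (L + 1)) (hν0 : 16 * (L + 1) ≤ 2 ^ ν0) (h0 : ν0 < ν)
    (hν : ν ≤ l) (hl : l ≤ L) (M : Finset (Fin n)) (hM : 2 ^ (l + 5) ≤ M.card) :
    2 ^ (32 * (L + 1)) *
      (univ.filter fun v : Fin (nsl L g ν0 l) → Fin n → Fin (2 ^ (L + 3)) =>
        2 ^ (ν + 5) ≤ (G.uncv g l ν M v).card).card ≤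
      (2 ^ (L + 3)) ^ (n * nsl L g ν0 l) := by
  have hmom := G.moment (g := g) hn h0 hν hl M hM
  set c := (univ.filter fun v : Fin (nsl L g ν0 l) → Fin n → Fin (2 ^ (L + 3)) =>
        2 ^ (ν + 5) ≤ (G.uncv g l ν M v).card).card with hc
  have h1 : (c : ℝ) * 2 ^ (2 ^ (ν + 5)) ≤
      ∑ v : Fin (nsl L g ν0 l) → Fin n → Fin (2 ^ (L + 3)),
        (2 : ℝ) ^ (G.uncv g l ν M v).card := by
    calc (c : ℝ) * 2 ^ (2 ^ (ν + 5))
        = ∑ v ∈ univ.filter (fun v : Fin (nsl L g ν0 l) → Fin n → Fin (2 ^ (L + 3)) =>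
            2 ^ (ν + 5) ≤ (G.uncv g l ν M v).card), (2 : ℝ) ^ (2 ^ (ν + 5)) := by
          rw [sum_const, nsmul_eq_mul]
      _ ≤ ∑ v ∈ univ.filter (fun v : Fin (nsl L g ν0 l) → Fin n → Fin (2 ^ (L + 3)) =>
            2 ^ (ν + 5) ≤ (G.uncv g l ν M v).card), (2 : ℝ) ^ (G.uncv g l ν M v).card := by
          refine sum_le_sum fun v hv => ?_
          rw [mem_filter] at hv
          exact pow_le_pow_right₀ (by norm_num) hv.2
      _ ≤ _ := sum_le_sum_of_subset_of_nonneg (filter_subset _ _)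
          (fun v _ _ => by positivity)
  have h2 : Real.exp (2 ^ (ν + 1)) ≤ 2 ^ (2 ^ (ν + 2)) := by
    have h3 : Real.exp 1 ≤ 4 := by
      have := Real.exp_one_lt_d9
      linarith
    calc Real.exp (2 ^ (ν + 1)) = Real.exp 1 ^ (2 ^ (ν + 1)) := by
          rw [← Real.exp_nat_mul]; congr 1; push_cast; ring
      _ ≤ 4 ^ (2 ^ (ν + 1)) := pow_le_pow_left₀ (Real.exp_pos _).le h3 _
      _ = 2 ^ (2 ^ (ν + 2)) := by
          rw [show (4 : ℝ) = 2 ^ 2 by norm_num, ← pow_mul]; congr 1; ring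
  have h3 : (2 : ℝ) ^ (32 * (L + 1)) * 2 ^ (2 ^ (ν + 2)) ≤ 2 ^ (2 ^ (ν + 5)) := by
    rw [← pow_add]
    refine pow_le_pow_right₀ (by norm_num) ?_
    have h4 : 2 ^ (ν0 + 1) ≤ 2 ^ ν := Nat.pow_le_pow_right (by norm_num) h0
    rw [pow_succ] at h4
    have h5 : 2 ^ (ν + 2) = 4 * 2 ^ ν := by rw [pow_add]; ring
    have h6 : 2 ^ (ν + 5) = 32 * 2 ^ ν := by rw [pow_add]; ring
    omega
  have h4 : (2 : ℝ) ^ (32 * (L + 1)) * (c : ℝ) * (2 : ℝ) ^ (2 ^ (ν + 2)) ≤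
      ((2 : ℝ) ^ (L + 3)) ^ (n * nsl L g ν0 l) * (2 : ℝ) ^ (2 ^ (ν + 2)) := by
    have e1 : (2 : ℝ) ^ (32 * (L + 1)) * (c : ℝ) * (2 : ℝ) ^ (2 ^ (ν + 2)) =
        (c : ℝ) * ((2 : ℝ) ^ (32 * (L + 1)) * (2 : ℝ) ^ (2 ^ (ν + 2))) := by
      rw [mul_comm ((2 : ℝ) ^ (32 * (L + 1))) (c : ℝ), mul_assoc]
    rw [e1]
    refine (mul_le_mul_of_nonneg_left h3 (Nat.cast_nonneg c)).trans ?_
    refine (h1.trans hmom).trans ?_
    exact mul_le_mul_of_nonneg_left h2 (by positivity)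
  have h5 : (2 : ℝ) ^ (32 * (L + 1)) * c ≤ ((2 : ℝ) ^ (L + 3)) ^ (n * nsl L g ν0 l) :=
    le_of_mul_le_mul_right h4 (by positivity)
  exact_mod_cast h5

end Nest

end Pool.Agent.A217
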