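import Pool.Agent.MP217Area.CovDefs

set_option autoImplicit false

/-!
# Coverage: one pick
-/

namespace Pool.Agent.A217

open Finset

attribute [local instance 10] Classical.propDecidable

namespace Nest

variable {n L ν0 : ℕ} (G : Nest n L ν0 (4 * n * 2 ^ ν0))

theorem pick_mem (ν : ℕ) (p : Fin n) (s : ℕ) : G.pick ν p s ∈ G.N ν p := by
  unfold pick
  by_cases h : s % 2 ^ (L + 3 + ν0 - ν) < ((G.N ν p).toList).length
  · rw [List.getD_eq_getElem _ _ h]
    exact Finset.mem_toList.1 (List.getElem_mem h)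
  · rw [List.getD_eq_default _ _ (not_lt.1 h)]
    exact G.self ν p

/-- One pick.  PROOF: every `x ∈ Z ∩ N ν p` has an index `r < (N ν p).card ≤ 2 ^ (L+3+ν0-ν)` in the
list (`G.deg`, `n < 2 ^ (L+1)`), and `2 ^ (ν - ν0)` of the `s < 2 ^ (L+3)` have
`s % 2 ^ (L+3+ν0-ν) = r`; different `x` have different `r`. -/
theorem card_pick {ν : ℕ} (hn : n < 2 ^ (L + 1)) (h0 : ν0 ≤ ν) (hν : ν ≤ L) (p : Fin n)
    (Z : Finset (Fin n)) :
    (univ.filter fun s : Fin (2 ^ (L + 3)) => G.pick ν p s.val ∉ Z).card +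
      2 ^ (ν - ν0) * (Z ∩ G.N ν p).card ≤ 2 ^ (L + 3) := by
  classical
  set a := 2 ^ (ν - ν0) with ha
  set b := 2 ^ (L + 3 + ν0 - ν) with hb
  have hab : a * b = 2 ^ (L + 3) := by
    rw [ha, hb, ← pow_add]
    congr 1
    omega
  have hb0 : 0 < b := by positivity
  have hNb : (G.N ν p).card ≤ b := by
    have h1 := G.deg ν p hν
    have h2 : 2 ^ ν * (G.N ν p).card ≤ 2 ^ ν * b := by
      calc 2 ^ ν * (G.N ν p).card ≤ 4 * n * 2 ^ ν0 := h1
        _ ≤ 4 * 2 ^ (L + 1) * 2 ^ ν0 :=
            Nat.mul_le_mul_right _ (Nat.mul_le_mul_left _ hn.le)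
        _ = 2 ^ (2 + (L + 1) + ν0) := by ring
        _ = 2 ^ ν * b := by
            rw [hb, ← pow_add]
            congr 1
            omega
    exact Nat.le_of_mul_le_mul_left h2 (by positivity)
  let r : Fin n → ℕ := fun x => ((G.N ν p).toList).idxOf x
  have hr : ∀ x ∈ G.N ν p, r x < b := by
    intro x hx
    have h1 : r x < ((G.N ν p).toList).length := List.idxOf_lt_length_of_mem (Finset.mem_toList.2 hx)
    rw [Finset.length_toList] at h1
    omega
  have hpick : ∀ x ∈ G.N ν p, ∀ t : ℕ, G.pick ν p (r x + b * t) = x := by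
    intro x hx t
    unfold pick
    rw [← hb, Nat.add_mul_mod_self_left, Nat.mod_eq_of_lt (hr x hx)]
    have h1 : r x < ((G.N ν p).toList).length :=
      List.idxOf_lt_length_of_mem (Finset.mem_toList.2 hx)
    rw [List.getD_eq_getElem _ _ h1]
    exact List.getElem_idxOf h1
  have hlt : ∀ x ∈ G.N ν p, ∀ t < a, r x + b * t < 2 ^ (L + 3) := by
    intro x hx t ht
    calc r x + b * t < b + b * t := Nat.add_lt_add_right (hr x hx) _
      _ = b * (t + 1) := by ring
      _ ≤ b * a := Nat.mul_le_mul_left _ ht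
      _ = 2 ^ (L + 3) := by rw [mul_comm, hab]
  have hkey : a * (Z ∩ G.N ν p).card ≤
      (univ.filter fun s : Fin (2 ^ (L + 3)) => ¬ G.pick ν p s.val ∉ Z).card := by
    have h1 : ((Z ∩ G.N ν p) ×ˢ range a).card = a * (Z ∩ G.N ν p).card := by
      rw [card_product, card_range, mul_comm]
    rw [← h1]
    refine card_le_card_of_injOn (fun q : Fin n × ℕ =>
      if h : r q.1 + b * q.2 < 2 ^ (L + 3) then (⟨r q.1 + b * q.2, h⟩ : Fin (2 ^ (L + 3)))
      else ⟨0, by positivity⟩) ?_ ?_
    · rintro ⟨x, t⟩ hq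
      rw [mem_coe, mem_product, mem_inter, mem_range] at hq
      have h2 := hlt x hq.1.2 t hq.2
      rw [mem_coe, mem_filter]
      refine ⟨mem_univ _, ?_⟩
      simp only
      rw [dif_pos h2, hpick x hq.1.2 t, not_not]
      exact hq.1.1
    · rintro ⟨x, t⟩ hq ⟨x', t'⟩ hq' heq
      rw [mem_coe, mem_product, mem_inter, mem_range] at hq hq'
      simp only at hq hq' heq
      rw [dif_pos (hlt x hq.1.2 t hq.2), dif_pos (hlt x' hq'.1.2 t' hq'.2),
        Fin.mk.injEq] at heq
      have h3 : x = x' := by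
        rw [← hpick x hq.1.2 t, ← hpick x' hq'.1.2 t', heq]
      subst h3
      have h4 : b * t = b * t' := by omega
      rw [Nat.eq_of_mul_eq_mul_left hb0 h4]
  have htot := card_filter_add_card_filter_not (s := (univ : Finset (Fin (2 ^ (L + 3)))))
    (fun s : Fin (2 ^ (L + 3)) => G.pick ν p s.val ∉ Z)
  rw [card_univ, Fintype.card_fin] at htot
  omega

end Nest

/-- The slots of scale `μ`.  PROOF: `j = kap0 + (μ - ν0 - 1) * kap + i`, `i < kap`. -/
theorem card_sca {L g ν0 l μ : ℕ} (h0 : ν0 < μ) (hμ : μ < l) :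
    (univ.filter fun j : Fin (nsl L g ν0 l) => sca L g ν0 l j.val = μ).card = kap L l := by
  have hk : 0 < kap L l := by
    unfold kap
    positivity
  rw [← card_range (kap L l)]
  have hlt : ∀ i < kap L l, kap0 L g l + (μ - ν0 - 1) * kap L l + i < nsl L g ν0 l := by
    intro i hi
    unfold nsl
    have h1 : (μ - ν0 - 1 + 1) * kap L l ≤ (l - ν0 - 1) * kap L l :=
      Nat.mul_le_mul_right _ (by omega)
    rw [Nat.add_mul, Nat.one_mul] at h1
    omega
  have hsca : ∀ i < kap L l, sca L g ν0 l (kap0 L g l + (μ - ν0 - 1) * kap L l + i) = μ := by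
    intro i hi
    unfold sca
    rw [if_neg (by omega)]
    have h1 : kap0 L g l + (μ - ν0 - 1) * kap L l + i - kap0 L g l =
        i + kap L l * (μ - ν0 - 1) := by
      rw [mul_comm (kap L l)]
      omega
    rw [h1, Nat.add_mul_div_left _ _ hk, Nat.div_eq_of_lt hi]
    omega
  refine card_bij' (fun j _ => j.val - (kap0 L g l + (μ - ν0 - 1) * kap L l))
    (fun i hi => ⟨kap0 L g l + (μ - ν0 - 1) * kap L l + i, hlt i (mem_range.1 hi)⟩)
    ?_ ?_ ?_ ?_
  · intro j hj
    rw [mem_filter] at hj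
    have hj2 := hj.2
    unfold sca at hj2
    rw [mem_range]
    by_cases hjk : j.val < kap0 L g l
    · rw [if_pos hjk] at hj2
      omega
    · rw [if_neg hjk] at hj2
      have h1 : (j.val - kap0 L g l) / kap L l = μ - ν0 - 1 := by omega
      have h2 := Nat.lt_mul_div_succ (j.val - kap0 L g l) hk
      rw [h1, mul_comm, Nat.add_mul, Nat.one_mul] at h2
      omega
  · intro i hi
    rw [mem_filter]
    exact ⟨mem_univ _, hsca i (mem_range.1 hi)⟩
  · intro j hj
    rw [mem_filter] at hj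
    have hj2 := hj.2
    unfold sca at hj2
    refine Fin.ext ?_
    simp only
    by_cases hjk : j.val < kap0 L g l
    · rw [if_pos hjk] at hj2
      omega
    · rw [if_neg hjk] at hj2
      have h1 : (j.val - kap0 L g l) / kap L l = μ - ν0 - 1 := by omega
      have h2 := Nat.div_mul_le_self (j.val - kap0 L g l) (kap L l)
      rw [h1] at h2
      omega
  · intro i hi
    simp only
    omega

theorem card_sca0 {L g ν0 l : ℕ} :
    kap0 L g l ≤ (univ.filter fun j : Fin (nsl L g ν0 l) => sca L g ν0 l j.val = ν0).card := by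
  have hle : kap0 L g l ≤ nsl L g ν0 l := Nat.le_add_right _ _
  have h1 : (univ : Finset (Fin (kap0 L g l))).card = kap0 L g l := by
    rw [card_univ, Fintype.card_fin]
  rw [← h1]
  refine card_le_card_of_injOn (fun i => (⟨i.val, lt_of_lt_of_le i.isLt hle⟩ :
    Fin (nsl L g ν0 l))) ?_ ?_
  · intro i _
    rw [mem_coe, mem_filter]
    refine ⟨mem_univ _, ?_⟩
    unfold sca
    rw [if_pos i.isLt]
  · intro i _ j _ h
    simp only [Fin.mk.injEq] at h
    exact Fin.ext h

theorem sca_lt {L g ν0 l : ℕ} (hl : ν0 < l) (j : Fin (nsl L g ν0 l)) :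
    ν0 ≤ sca L g ν0 l j.val ∧ sca L g ν0 l j.val < l := by
  have hk : 0 < kap L l := by
    unfold kap
    positivity
  have hj := j.isLt
  unfold nsl at hj
  unfold sca
  split_ifs with h
  · exact ⟨le_rfl, hl⟩
  · have h1 : (j.val - kap0 L g l) / kap L l < l - ν0 - 1 := by
      rw [Nat.div_lt_iff_lt_mul hk]
      omega
    generalize (j.val - kap0 L g l) / kap L l = t at *
    omega

end Pool.Agent.A217
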