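import Pool.Agent.MP217Area.CovPick

set_option autoImplicit false

/-!
# Coverage: the product bound for a fixed set of vertices
-/

namespace Pool.Agent.A217

open Finset

attribute [local instance 10] Classical.propDecidable

/-- Counting in a product with exponential bounds for the factors. -/
private theorem v2_prod_gen {J A : Type*} [Fintype J] [Fintype A] [DecidableEq J] [DecidableEq A]
    (N : ℕ) (B : J → A → Finset (Fin N)) (c : J → A → ℝ)
    (h : ∀ j a, ((B j a).card : ℝ) ≤ N * Real.exp (- c j a)) (S : Finset (J → A → Fin N))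
    (hS : ∀ v ∈ S, ∀ j a, v j a ∈ B j a) :
    (S.card : ℝ) ≤
      (N : ℝ) ^ (Fintype.card A * Fintype.card J) * Real.exp (- ∑ j, ∑ a, c j a) := by
  have e : S ⊆ Fintype.piFinset fun j => Fintype.piFinset fun a => B j a := by
    intro v hv
    simp only [Fintype.mem_piFinset]
    exact hS v hv
  have e2 : (S.card : ℝ) ≤
      ((Fintype.piFinset fun j => Fintype.piFinset fun a => B j a).card : ℝ) := by
    exact_mod_cast card_le_card e
  refine e2.trans ?_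
  rw [Fintype.card_piFinset]
  simp only [Fintype.card_piFinset, Nat.cast_prod]
  calc ∏ j, ∏ a, ((B j a).card : ℝ)
      ≤ ∏ j : J, ∏ a : A, ((N : ℝ) * Real.exp (- c j a)) := by
        refine prod_le_prod (fun j _ => prod_nonneg fun a _ => Nat.cast_nonneg _) fun j _ => ?_
        exact prod_le_prod (fun a _ => Nat.cast_nonneg _) fun a _ => h j a
    _ = (N : ℝ) ^ (Fintype.card A * Fintype.card J) * Real.exp (- ∑ j, ∑ a, c j a) := by
        simp only [prod_mul_distrib, prod_const, card_univ, ← Real.exp_sum, sum_neg_distrib]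
        rw [← pow_mul]

namespace Nest

variable {n L ν0 : ℕ} (G : Nest n L ν0 (4 * n * 2 ^ ν0))

private theorem v2_factor {ν : ℕ} (hn : n < 2 ^ (L + 1)) (h0 : ν0 ≤ ν) (hν : ν ≤ L) (p : Fin n)
    (Z : Finset (Fin n)) :
    ((univ.filter fun s : Fin (2 ^ (L + 3)) => G.pick ν p s.val ∉ Z).card : ℝ) ≤
      ((2 ^ (L + 3) : ℕ) : ℝ) *
        Real.exp (- ((2 : ℝ) ^ (ν - ν0) * (Z ∩ G.N ν p).card / 2 ^ (L + 3))) := by
  have h := G.card_pick hn h0 hν p Z
  have h' : ((univ.filter fun s : Fin (2 ^ (L + 3)) => G.pick ν p s.val ∉ Z).card : ℝ) +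
      (2 : ℝ) ^ (ν - ν0) * (Z ∩ G.N ν p).card ≤ 2 ^ (L + 3) := by
    exact_mod_cast h
  have hpos : (0 : ℝ) < 2 ^ (L + 3) := by positivity
  have hexp := Real.add_one_le_exp (- ((2 : ℝ) ^ (ν - ν0) * (Z ∩ G.N ν p).card / 2 ^ (L + 3)))
  have hmul := mul_le_mul_of_nonneg_left hexp hpos.le
  have e : (2 : ℝ) ^ (L + 3) * (- ((2 : ℝ) ^ (ν - ν0) * (Z ∩ G.N ν p).card / 2 ^ (L + 3)) + 1) =
      2 ^ (L + 3) - (2 : ℝ) ^ (ν - ν0) * (Z ∩ G.N ν p).card := by
    field_simp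
    ring
  rw [e] at hmul
  push_cast
  linarith

private theorem v2_swap (μ : ℕ) (M Z : Finset (Fin n)) :
    ∑ a ∈ M, (Z ∩ G.N μ a).card = ∑ x ∈ Z, (M ∩ G.N μ x).card := by
  have h1 : ∀ a, (Z ∩ G.N μ a).card = ∑ x ∈ Z, if x ∈ G.N μ a then 1 else 0 := by
    intro a
    rw [← card_filter, filter_mem_eq_inter]
  have h2 : ∀ x, (M ∩ G.N μ x).card = ∑ a ∈ M, if a ∈ G.N μ x then 1 else 0 := by
    intro x
    rw [← card_filter, filter_mem_eq_inter]
  simp only [h1, h2]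
  rw [sum_comm]
  refine sum_congr rfl fun x _ => sum_congr rfl fun a _ => ?_
  have : x ∈ G.N μ a ↔ a ∈ G.N μ x := ⟨G.symm μ a x, G.symm μ x a⟩
  simp only [this]

/-- One scale. -/
private theorem v2_scale (l μ : ℕ) (hl : l ≤ L) (h0 : ν0 ≤ μ) (M Z : Finset (Fin n)) :
    4 * ((Z.filter fun x => G.Rch l M μ x).card : ℝ) ≤
      (kap L l : ℝ) * ∑ a ∈ M, (2 : ℝ) ^ (μ - ν0) * (Z ∩ G.N μ a).card / 2 ^ (L + 3) := by
  have e1 : (kap L l : ℝ) * ∑ a ∈ M, (2 : ℝ) ^ (μ - ν0) * (Z ∩ G.N μ a).card / 2 ^ (L + 3) =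
      4 * ((2 : ℝ) ^ μ / 2 ^ (ν0 + l)) * ∑ x ∈ Z, ((M ∩ G.N μ x).card : ℝ) := by
    have hs : (∑ a ∈ M, ((Z ∩ G.N μ a).card : ℝ)) = ∑ x ∈ Z, ((M ∩ G.N μ x).card : ℝ) := by
      exact_mod_cast G.v2_swap μ M Z
    have hs2 : ∑ a ∈ M, (2 : ℝ) ^ (μ - ν0) * (Z ∩ G.N μ a).card / 2 ^ (L + 3) =
        (2 : ℝ) ^ (μ - ν0) / 2 ^ (L + 3) * ∑ a ∈ M, ((Z ∩ G.N μ a).card : ℝ) := by
      rw [mul_sum]
      refine sum_congr rfl fun a _ => ?_
      ring
    rw [hs2, hs, ← mul_assoc]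
    congr 1
    unfold kap
    push_cast
    have p1 : (2 : ℝ) ^ μ = 2 ^ (μ - ν0) * 2 ^ ν0 := by
      rw [← pow_add]
      congr 1
      omega
    have p2 : (2 : ℝ) ^ (L + 3) = 2 ^ (L - l) * 2 ^ l * 8 := by
      have : L + 3 = (L - l) + l + 3 := by omega
      rw [this, pow_add, pow_add]
      norm_num
    rw [p1, p2, pow_add, pow_add]
    field_simp
    norm_num
  rw [e1]
  have h3 : ((Z.filter fun x => G.Rch l M μ x).card : ℝ) ≤
      ∑ x ∈ Z, ((2 : ℝ) ^ μ / 2 ^ (ν0 + l)) * ((M ∩ G.N μ x).card : ℝ) := by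
    have h4 : ((Z.filter fun x => G.Rch l M μ x).card : ℝ) =
        ∑ x ∈ Z, if G.Rch l M μ x then (1 : ℝ) else 0 := by
      rw [card_filter]
      push_cast
      rfl
    rw [h4]
    refine sum_le_sum fun x _ => ?_
    split_ifs with hR
    · have hR' : (2 : ℝ) ^ (ν0 + l) ≤ 2 ^ μ * (M ∩ G.N μ x).card := by
        unfold Rch at hR
        exact_mod_cast hR
      rw [div_mul_eq_mul_div, le_div_iff₀ (by positivity), one_mul]
      exact hR'
    · positivity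
  rw [← mul_sum] at h3
  calc 4 * ((Z.filter fun x => G.Rch l M μ x).card : ℝ)
      ≤ 4 * ((2 : ℝ) ^ μ / 2 ^ (ν0 + l) * ∑ x ∈ Z, ((M ∩ G.N μ x).card : ℝ)) :=
        mul_le_mul_of_nonneg_left h3 (by norm_num)
    _ = 4 * ((2 : ℝ) ^ μ / 2 ^ (ν0 + l)) * ∑ x ∈ Z, ((M ∩ G.N μ x).card : ℝ) := by ring

/-- General product bound.  PROOF: the set is a product over `(j, a)` (`Fintype.card_pi` /
`card_piFinset`); the factor for `a ∈ M` is at most `2 ^ (L+3) (1 - 2 ^ (μ - ν0) |Z ∩ N μ a| / 2 ^ (L+3))`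
(`card_pick`, `μ = sca j`), `1 - z ≤ exp (- z)`; group the slots by scale (`card_sca`), and
`∑_{a ∈ M} |Z ∩ N μ a| = ∑_{x ∈ Z} |M ∩ N μ x|` (`G.symm`).  For a scale `ν ≤ μ < l` the exponent is
`kap * 2 ^ (μ - ν0) / 2 ^ (L + 3) * ∑_{x ∈ Z} |M ∩ N μ x| =
4 * ∑_{x ∈ Z} 2 ^ μ |M ∩ N μ x| / 2 ^ (ν0 + l)`, which is at least `4 * #{x ∈ Z : Rch μ x}`. -/
theorem prod_bound (g l ν : ℕ) (hn : n < 2 ^ (L + 1)) (h0 : ν0 < ν) (hν : ν ≤ l) (hl : l ≤ L)
    (M Z : Finset (Fin n)) :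
    ((univ.filter fun v : Fin (nsl L g ν0 l) → Fin n → Fin (2 ^ (L + 3)) =>
      ∀ j, ν ≤ sca L g ν0 l j.val → ∀ a ∈ M,
        G.pick (sca L g ν0 l j.val) a (v j a).val ∉ Z).card : ℝ) ≤
      ((2 : ℝ) ^ (L + 3)) ^ (n * nsl L g ν0 l) *
        Real.exp (-4 * ∑ μ ∈ Ico ν l, ((Z.filter fun x => G.Rch l M μ x).card : ℝ)) := by
  set sc : Fin (nsl L g ν0 l) → ℕ := fun j => sca L g ν0 l j.val with hsc
  set F : ℕ → ℝ := fun μ => ∑ a ∈ M, (2 : ℝ) ^ (μ - ν0) * (Z ∩ G.N μ a).card / 2 ^ (L + 3)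
    with hF
  have hsl : ∀ j, ν0 ≤ sc j ∧ sc j < l := fun j => sca_lt (by omega) j
  have hgen := v2_prod_gen (2 ^ (L + 3))
    (fun (j : Fin (nsl L g ν0 l)) (a : Fin n) =>
      if ν ≤ sc j ∧ a ∈ M then
        univ.filter fun s : Fin (2 ^ (L + 3)) => G.pick (sc j) a s.val ∉ Z
      else univ)
    (fun j a => if ν ≤ sc j ∧ a ∈ M then
      (2 : ℝ) ^ (sc j - ν0) * (Z ∩ G.N (sc j) a).card / 2 ^ (L + 3) else 0)
    (by
      intro j a
      by_cases hja : ν ≤ sc j ∧ a ∈ M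
      · simp only [if_pos hja]
        exact G.v2_factor hn (hsl j).1 ((hsl j).2.le.trans hl) a Z
      · simp only [if_neg hja, neg_zero, Real.exp_zero, mul_one]
        rw [card_univ, Fintype.card_fin])
  refine (hgen _ (by
    intro v hv j a
    rw [mem_filter] at hv
    by_cases hja : ν ≤ sc j ∧ a ∈ M
    · rw [if_pos hja, mem_filter]
      exact ⟨mem_univ _, hv.2 j hja.1 a hja.2⟩
    · rw [if_neg hja]
      exact mem_univ _)).trans ?_
  rw [Fintype.card_fin, Fintype.card_fin]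
  have hcast : ((2 ^ (L + 3) : ℕ) : ℝ) = (2 : ℝ) ^ (L + 3) := by push_cast; rfl
  rw [hcast]
  refine mul_le_mul_of_nonneg_left (Real.exp_le_exp.2 ?_) (by positivity)
  have hsum : ∑ j : Fin (nsl L g ν0 l), ∑ a : Fin n, (if ν ≤ sc j ∧ a ∈ M then
      (2 : ℝ) ^ (sc j - ν0) * (Z ∩ G.N (sc j) a).card / 2 ^ (L + 3) else 0) =
      ∑ μ ∈ Ico ν l, (kap L l : ℝ) * F μ := by
    have h1 : ∀ j : Fin (nsl L g ν0 l), ∑ a : Fin n, (if ν ≤ sc j ∧ a ∈ M then
        (2 : ℝ) ^ (sc j - ν0) * (Z ∩ G.N (sc j) a).card / 2 ^ (L + 3) else 0) =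
        if sc j ∈ Ico ν l then F (sc j) else 0 := by
      intro j
      by_cases hj : ν ≤ sc j
      · have hm : sc j ∈ Ico ν l := mem_Ico.2 ⟨hj, (hsl j).2⟩
        rw [if_pos hm, hF]
        simp only [hj, true_and]
        rw [← sum_filter, filter_mem_eq_inter, univ_inter]
      · have hm : sc j ∉ Ico ν l := fun h => hj (mem_Ico.1 h).1
        rw [if_neg hm]
        simp only [hj, false_and, if_false, sum_const_zero]
    rw [sum_congr rfl fun j _ => h1 j, ← sum_filter]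
    have hmap : ∀ j ∈ (univ.filter fun j : Fin (nsl L g ν0 l) => sc j ∈ Ico ν l),
        sc j ∈ Ico ν l := fun j hj => (mem_filter.1 hj).2
    rw [← sum_fiberwise_of_maps_to hmap (fun j => F (sc j))]
    refine sum_congr rfl fun μ hμ => ?_
    rw [sum_congr rfl (g := fun _ => F μ) (fun j hj => by rw [(mem_filter.1 hj).2]), sum_const,
      nsmul_eq_mul]
    congr 2
    rw [mem_Ico] at hμ
    rw [← card_sca (L := L) (g := g) (ν0 := ν0) (l := l) (μ := μ) (by omega) hμ.2]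
    congr 1
    ext j
    simp only [mem_filter, mem_univ, true_and]
    constructor
    · exact fun h => h.2
    · intro h
      refine ⟨?_, h⟩
      have : sc j = μ := h
      rw [this]
      exact mem_Ico.2 hμ
  rw [hsum, mul_sum, ← sum_neg_distrib]
  refine sum_le_sum fun μ hμ => ?_
  rw [mem_Ico] at hμ
  have := G.v2_scale l μ hl (by omega) M Z
  simp only [hF]
  linarith

/-- The scale `ν0`.  PROOF: as `prod_bound`, with `Z = {x}`, `N ν0 a = univ`, `kap0` slots: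
the fraction is at most `(1 - 2 ^ (-(L+3))) ^ (kap0 * |M|) ≤ exp (- 2 ^ (g + 5))`
`≤ 2 ^ (-32 (L+1))`. -/
theorem miss_one (g l : ℕ) (hn : n < 2 ^ (L + 1)) (hg : L + 1 ≤ 2 ^ g) (hl0 : ν0 < l) (hl : l ≤ L)
    (hfull : ∀ x, G.N ν0 x = univ) (M : Finset (Fin n)) (hM : 2 ^ (l + 5) ≤ M.card) (x : Fin n) :
    2 ^ (32 * (L + 1)) *
      (univ.filter fun v : Fin (nsl L g ν0 l) → Fin n → Fin (2 ^ (L + 3)) =>
        ∀ j, sca L g ν0 l j.val = ν0 → ∀ a ∈ M, G.pick ν0 a (v j a).val ≠ x).card ≤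
      (2 ^ (L + 3)) ^ (n * nsl L g ν0 l) := by
  set sc : Fin (nsl L g ν0 l) → ℕ := fun j => sca L g ν0 l j.val with hsc
  have hgen := v2_prod_gen (2 ^ (L + 3))
    (fun (j : Fin (nsl L g ν0 l)) (a : Fin n) =>
      if sc j = ν0 ∧ a ∈ M then
        univ.filter fun s : Fin (2 ^ (L + 3)) => G.pick ν0 a s.val ∉ ({x} : Finset (Fin n))
      else univ)
    (fun j a => if sc j = ν0 ∧ a ∈ M then 1 / (2 : ℝ) ^ (L + 3) else 0)
    (by
      intro j a
      by_cases hja : sc j = ν0 ∧ a ∈ M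
      · simp only [if_pos hja]
        have h := G.v2_factor hn (le_refl ν0) (hl0.le.trans hl) a {x}
        rw [hfull a, inter_univ, card_singleton, Nat.sub_self, pow_zero, one_mul,
          Nat.cast_one] at h
        exact h
      · simp only [if_neg hja, neg_zero, Real.exp_zero, mul_one]
        rw [card_univ, Fintype.card_fin])
  have hsum : (2 : ℝ) ^ (g + 5) ≤
      ∑ j : Fin (nsl L g ν0 l), ∑ a : Fin n,
        (if sc j = ν0 ∧ a ∈ M then 1 / (2 : ℝ) ^ (L + 3) else 0) := by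
    have h1 : ∀ j : Fin (nsl L g ν0 l), ∑ a : Fin n,
        (if sc j = ν0 ∧ a ∈ M then 1 / (2 : ℝ) ^ (L + 3) else 0) =
        if sc j = ν0 then (M.card : ℝ) * (1 / (2 : ℝ) ^ (L + 3)) else 0 := by
      intro j
      by_cases hj : sc j = ν0
      · simp only [hj, true_and, if_true]
        rw [← sum_filter, filter_mem_eq_inter, univ_inter, sum_const, nsmul_eq_mul]
      · simp only [hj, false_and, if_false, sum_const_zero]
    rw [sum_congr rfl fun j _ => h1 j, ← sum_filter, sum_const, nsmul_eq_mul]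
    have h2 : ((kap0 L g l : ℕ) : ℝ) ≤
        ((univ.filter fun j : Fin (nsl L g ν0 l) => sc j = ν0).card : ℝ) := by
      exact_mod_cast card_sca0 (L := L) (g := g) (ν0 := ν0) (l := l)
    have h3 : (2 : ℝ) ^ (l + 5) ≤ (M.card : ℝ) := by exact_mod_cast hM
    have h4 : (2 : ℝ) ^ (g + 5) =
        ((kap0 L g l : ℕ) : ℝ) * ((2 : ℝ) ^ (l + 5) * (1 / (2 : ℝ) ^ (L + 3))) := by
      unfold kap0
      push_cast
      rw [mul_one_div, ← mul_div_assoc, eq_div_iff (by positivity), ← pow_add, ← pow_add]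
      congr 1
      omega
    rw [h4]
    refine mul_le_mul h2 (mul_le_mul_of_nonneg_right h3 (by positivity)) (by positivity)
      (by positivity)
  have hexp : Real.exp (- ∑ j : Fin (nsl L g ν0 l), ∑ a : Fin n,
        (if sc j = ν0 ∧ a ∈ M then 1 / (2 : ℝ) ^ (L + 3) else 0)) ≤
      1 / (2 : ℝ) ^ (32 * (L + 1)) := by
    have h5 : ((32 * (L + 1) : ℕ) : ℝ) ≤ (2 : ℝ) ^ (g + 5) := by
      have : 32 * (L + 1) ≤ 2 ^ (g + 5) := by
        rw [pow_add]
        omega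
      exact_mod_cast this
    have h6 : (2 : ℝ) ^ (32 * (L + 1)) ≤ Real.exp ((32 * (L + 1) : ℕ) : ℝ) := by
      have h7 : Real.exp ((32 * (L + 1) : ℕ) : ℝ) = Real.exp 1 ^ (32 * (L + 1)) := by
        rw [← Real.exp_nat_mul, mul_one]
      rw [h7]
      refine pow_le_pow_left₀ (by norm_num) ?_ _
      have := Real.add_one_le_exp 1
      linarith
    rw [Real.exp_neg, one_div (2 ^ (32 * (L + 1)) : ℝ)]
    exact inv_anti₀ (by positivity) (h6.trans (Real.exp_le_exp.2 (h5.trans hsum)))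
  have hgen2 := hgen (univ.filter fun v : Fin (nsl L g ν0 l) → Fin n → Fin (2 ^ (L + 3)) =>
        ∀ j, sca L g ν0 l j.val = ν0 → ∀ a ∈ M, G.pick ν0 a (v j a).val ≠ x) (by
    intro v hv j a
    rw [mem_filter] at hv
    by_cases hja : sc j = ν0 ∧ a ∈ M
    · rw [if_pos hja, mem_filter, mem_singleton]
      exact ⟨mem_univ _, hv.2 j hja.1 a hja.2⟩
    · rw [if_neg hja]
      exact mem_univ _)
  have hcast : ((2 ^ (L + 3) : ℕ) : ℝ) = (2 : ℝ) ^ (L + 3) := by push_cast; rfl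
  rw [Fintype.card_fin, Fintype.card_fin, hcast] at hgen2
  have hfin : (2 : ℝ) ^ (32 * (L + 1)) *
      ((univ.filter fun v : Fin (nsl L g ν0 l) → Fin n → Fin (2 ^ (L + 3)) =>
        ∀ j, sca L g ν0 l j.val = ν0 → ∀ a ∈ M, G.pick ν0 a (v j a).val ≠ x).card : ℝ) ≤
      ((2 : ℝ) ^ (L + 3)) ^ (n * nsl L g ν0 l) := by
    calc (2 : ℝ) ^ (32 * (L + 1)) *
        ((univ.filter fun v : Fin (nsl L g ν0 l) → Fin n → Fin (2 ^ (L + 3)) =>
          ∀ j, sca L g ν0 l j.val = ν0 → ∀ a ∈ M, G.pick ν0 a (v j a).val ≠ x).card : ℝ)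
        ≤ (2 : ℝ) ^ (32 * (L + 1)) * (((2 : ℝ) ^ (L + 3)) ^ (n * nsl L g ν0 l) *
          (1 / (2 : ℝ) ^ (32 * (L + 1)))) :=
          mul_le_mul_of_nonneg_left (hgen2.trans
            (mul_le_mul_of_nonneg_left hexp (by positivity))) (by positivity)
      _ = ((2 : ℝ) ^ (L + 3)) ^ (n * nsl L g ν0 l) := by
          field_simp
  exact_mod_cast hfin

end Nest

end Pool.Agent.A217
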