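import Pool.Agent.MP217Area.GLab

set_option autoImplicit false

/-!
# Degrees
-/

namespace Pool.Agent.A217

open Finset

/-- The sum over all labellings of a product over different pairs. -/
private theorem gdeg_sum_prod {n M : ℕ} {α : Type*} [DecidableEq α] (Z : Finset α)
    (φ : α → Fin n × Fin n) (hφ : Set.InjOn φ Z) (h : Fin M → ℝ) :
    ∑ f : Lab n M, ∏ z ∈ Z, h (f (φ z)) =
      (M : ℝ) ^ (n * n - Z.card) * (∑ v, h v) ^ Z.card := by
  classical
  have hcard : Z.card ≤ n * n := by
    have h1 : (Z.image φ).card = Z.card := card_image_of_injOn hφ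
    have h2 : (Z.image φ).card ≤ (univ : Finset (Fin n × Fin n)).card := card_le_card (subset_univ _)
    rw [card_univ, Fintype.card_prod, Fintype.card_fin] at h2
    omega
  have h1 : ∀ f : Lab n M, ∏ z ∈ Z, h (f (φ z)) =
      ∏ e : Fin n × Fin n, if e ∈ Z.image φ then h (f e) else 1 := by
    intro f
    rw [prod_ite_mem, univ_inter, prod_image hφ]
  have h2 := Finset.prod_univ_sum (R := ℝ) (fun _ : Fin n × Fin n => (univ : Finset (Fin M)))
    (fun e v => if e ∈ Z.image φ then h v else 1)
  rw [Fintype.piFinset_univ] at h2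
  calc ∑ f : Lab n M, ∏ z ∈ Z, h (f (φ z))
      = ∑ f : Lab n M, ∏ e : Fin n × Fin n, (if e ∈ Z.image φ then h (f e) else 1) :=
        sum_congr rfl fun f _ => h1 f
    _ = ∏ e : Fin n × Fin n, ∑ v, (if e ∈ Z.image φ then h v else 1) := h2.symm
    _ = ∏ e : Fin n × Fin n, (if e ∈ Z.image φ then ∑ v, h v else (M : ℝ)) := by
        apply prod_congr rfl
        intro e _
        split_ifs <;> simp
    _ = _ := by
        rw [prod_ite, prod_const, prod_const, filter_mem_eq_inter, univ_inter,
          card_image_of_injOn hφ, mul_comm]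
        congr 2
        have h3 : (univ.filter fun e : Fin n × Fin n => e ∉ Z.image φ) = (Z.image φ)ᶜ := by
          ext e
          simp
        rw [h3, card_compl, card_image_of_injOn hφ, Fintype.card_prod, Fintype.card_fin]

/-- Few labellings give `x` a large degree. -/
theorem deg_count (n M t L : ℕ) (hM : 0 < M) (ht : t ≤ M) (x : Fin n) :
    2 ^ (4 * (L + 1)) * (univ.filter fun f : Lab n M =>
      2 * (n * t) + 4 * (L + 1) * M < M * (nb f t x).card).card ≤ M ^ (n * n) := by
  classical
  have hn : 1 ≤ n := by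
    have := x.2
    omega
  set Z : Finset (Fin n) := univ.filter fun y => y ≠ x with hZ
  have hZc : Z.card = n - 1 := by
    rw [hZ, filter_ne' univ x, card_erase_of_mem (mem_univ x), card_univ, Fintype.card_fin]
  have hφ : Set.InjOn (fun y : Fin n => (min x y, max x y)) Z := by
    intro y hy z hz hyz
    have hy' : y ≠ x := by simpa [hZ] using hy
    have hz' : z ≠ x := by simpa [hZ] using hz
    simp only [Prod.mk.injEq] at hyz
    obtain ⟨h1, h2⟩ := hyz
    rcases le_total x y with h | h <;> rcases le_total x z with h' | h'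
    · rw [max_eq_right h, max_eq_right h'] at h2
      exact h2
    · rw [min_eq_left h, min_eq_right h'] at h1
      exact absurd h1.symm hz'
    · rw [min_eq_right h, min_eq_left h'] at h1
      exact absurd h1 hy'
    · rw [min_eq_right h, min_eq_right h'] at h1
      exact h1
  have hsum := gdeg_sum_prod (M := M) Z _ hφ (fun v => if v.val < t then (2 : ℝ) else 1)
  have hw : ∀ f : Lab n M, ∏ z ∈ Z, (fun v : Fin M => if v.val < t then (2 : ℝ) else 1)
      (f ((fun y : Fin n => (min x y, max x y)) z)) = 2 ^ (nb f t x).card := by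
    intro f
    have h1 : nb f t x = Z.filter fun y => (lb f x y).val < t := by
      ext y
      simp [nb, hZ]
    rw [h1]
    simp only [lb]
    rw [prod_ite, prod_const, prod_const, one_pow, mul_one]
    try congr!
  have hv : ∑ v : Fin M, (if v.val < t then (2 : ℝ) else 1) = M + t := by
    have h1 : ∀ v : Fin M, (if v.val < t then (2 : ℝ) else 1) = 1 + if v.val < t then 1 else 0 := by
      intro v
      split_ifs <;> norm_num
    rw [sum_congr rfl fun v _ => h1 v, sum_add_distrib, sum_boole]
    simp only [sum_const, card_univ, Fintype.card_fin, nsmul_eq_mul, mul_one]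
    congr 2
    have h2 : (univ.filter fun v : Fin M => v.val < t) =
        (univ.filter fun v : Fin M => v.val < t) := rfl
    have h3 : (univ.filter fun v : Fin M => v.val < t).card = t := by
      have h4 : ((univ.filter fun v : Fin M => v.val < t).image Fin.val) = range t := by
        ext k
        simp only [mem_image, mem_filter, mem_univ, true_and, mem_range]
        constructor
        · rintro ⟨v, hv, rfl⟩
          exact hv
        · intro hk
          exact ⟨⟨k, by omega⟩, hk, rfl⟩
      rw [← card_image_of_injective _ Fin.val_injective, h4, card_range]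
    exact h3
  have hM0 : (0 : ℝ) < M := by exact_mod_cast hM
  rw [sum_congr rfl fun f _ => hw f, hv, hZc] at hsum
  set B := univ.filter fun f : Lab n M =>
      2 * (n * t) + 4 * (L + 1) * M < M * (nb f t x).card with hB
  set q : ℝ := n * t / M with hq
  have hq0 : 0 ≤ q := by positivity
  have hlow : ∀ f ∈ B, Real.exp q * 2 ^ (4 * (L + 1)) ≤ (2 : ℝ) ^ (nb f t x).card := by
    intro f hf
    rw [hB, mem_filter] at hf
    have h1 : (2 * (n * t) + 4 * (L + 1) * M : ℝ) ≤ M * (nb f t x).card := by
      exact_mod_cast hf.2.le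
    have h2 : 2 * q + 4 * (L + 1) ≤ ((nb f t x).card : ℝ) := by
      rw [hq]
      have : 2 * (n * t / M) + 4 * (L + 1) = (2 * (n * t) + 4 * (L + 1) * M : ℝ) / M := by
        field_simp
      rw [this, div_le_iff₀ hM0]
      linarith
    have h3 : (2 : ℝ) ^ (nb f t x).card = Real.exp ((nb f t x).card * Real.log 2) := by
      rw [Real.exp_nat_mul, Real.exp_log (by norm_num)]
    have h4 : (2 : ℝ) ^ (4 * (L + 1)) = Real.exp ((4 * (L + 1)) * Real.log 2) := by
      have := Real.exp_nat_mul (Real.log 2) (4 * (L + 1))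
      rw [Real.exp_log (by norm_num)] at this
      rw [← this]
      push_cast
      ring_nf
    rw [h3, h4, ← Real.exp_add]
    apply Real.exp_le_exp.mpr
    have hl := Real.log_two_gt_d9
    nlinarith
  have hupper : ((M : ℝ) + t) ^ (n - 1) ≤ M ^ (n - 1) * Real.exp q := by
    have h1 : (M : ℝ) + t ≤ M * Real.exp (t / M) := by
      have h2 := Real.add_one_le_exp ((t : ℝ) / M)
      calc (M : ℝ) + t = M * (t / M + 1) := by field_simp; ring
        _ ≤ _ := mul_le_mul_of_nonneg_left h2 hM0.le
    calc ((M : ℝ) + t) ^ (n - 1) ≤ (M * Real.exp (t / M)) ^ (n - 1) :=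
          pow_le_pow_left₀ (by positivity) h1 _
      _ = M ^ (n - 1) * Real.exp (((n - 1 : ℕ) : ℝ) * (t / M)) := by
          rw [mul_pow, Real.exp_nat_mul]
      _ ≤ _ := by
          apply mul_le_mul_of_nonneg_left _ (by positivity)
          apply Real.exp_le_exp.mpr
          have h2 : ((n - 1 : ℕ) : ℝ) ≤ n := by exact_mod_cast Nat.sub_le n 1
          calc ((n - 1 : ℕ) : ℝ) * (t / M) ≤ n * (t / M) :=
                mul_le_mul_of_nonneg_right h2 (by positivity)
            _ = q := by rw [hq]; ring
  have hle : (B.card : ℝ) * (Real.exp q * 2 ^ (4 * (L + 1))) ≤ M ^ (n * n) * Real.exp q := by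
    calc (B.card : ℝ) * (Real.exp q * 2 ^ (4 * (L + 1)))
        = ∑ _f ∈ B, (Real.exp q * 2 ^ (4 * (L + 1))) := by rw [sum_const, nsmul_eq_mul]
      _ ≤ ∑ f ∈ B, (2 : ℝ) ^ (nb f t x).card := sum_le_sum hlow
      _ ≤ ∑ f : Lab n M, (2 : ℝ) ^ (nb f t x).card :=
          sum_le_sum_of_subset_of_nonneg (subset_univ _) fun f _ _ => by positivity
      _ = M ^ (n * n - (n - 1)) * (M + t) ^ (n - 1) := hsum
      _ ≤ M ^ (n * n - (n - 1)) * (M ^ (n - 1) * Real.exp q) :=
          mul_le_mul_of_nonneg_left hupper (by positivity)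
      _ = M ^ (n * n) * Real.exp q := by
          rw [← mul_assoc, ← pow_add]
          congr 3
          have : n - 1 ≤ n * n := by nlinarith [Nat.sub_le n 1]
          omega
  have hfin : (2 : ℝ) ^ (4 * (L + 1)) * B.card ≤ M ^ (n * n) := by
    have he := Real.exp_pos q
    have : (2 ^ (4 * (L + 1)) * B.card) * Real.exp q ≤ (M : ℝ) ^ (n * n) * Real.exp q := by
      calc _ = (B.card : ℝ) * (Real.exp q * 2 ^ (4 * (L + 1))) := by ring
        _ ≤ _ := hle
    exact le_of_mul_le_mul_right this he
  exact_mod_cast hfin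

end Pool.Agent.A217
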