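import Pool.Agent.MP217Area.Nest

set_option autoImplicit false

/-!
# Random labels (definitions)
-/

namespace Pool.Agent.A217

open Finset

/-- A labelling of the pairs. -/
abbrev Lab (n M : ℕ) : Type := Fin n × Fin n → Fin M

/-- The label of the unordered pair `{x, y}`. -/
def lb {n M : ℕ} (f : Lab n M) (x y : Fin n) : Fin M := f (min x y, max x y)

/-- The neighbours of `x`: the `y ≠ x` such that the label of `{x, y}` is smaller than `t`. -/
def nb {n M : ℕ} (f : Lab n M) (t : ℕ) (x : Fin n) : Finset (Fin n) :=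
  univ.filter fun y => y ≠ x ∧ (lb f x y).val < t

/-- The basic property of one graph of the nest. -/
def Basic {n : ℕ} (N : Fin n → Finset (Fin n)) (ν ν0 : ℕ) : Prop :=
  ∀ X A : Finset (Fin n), X.card = 2 ^ (ν - 1) → A.card = 2 ^ (ν - 1) → Disjoint X A →
    ∃ x ∈ X, 2 ^ ν0 ≤ 8 * (A ∩ N x).card

end Pool.Agent.A217
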