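import Pool.Agent.MP217Area.GLab

set_option autoImplicit false

/-!
# From the basic property to richness
-/

namespace Pool.Agent.A217

open Finset

private theorem pieces {V : Type*} [DecidableEq V] (w : ℕ) : ∀ (r : ℕ) (A : Finset V),
    r * w ≤ A.card → ∃ P : ℕ → Finset V, (∀ i < r, P i ⊆ A ∧ (P i).card = w) ∧
      ∀ i < r, ∀ j < r, i ≠ j → Disjoint (P i) (P j) := by
  intro r
  induction r with
  | zero => intro A _; exact ⟨fun _ => ∅, by simp, by simp⟩
  | succ r ih =>
    intro A hA
    have hA' : (r + 1) * w = r * w + w := by ring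
    obtain ⟨B, hBA, hBc⟩ := exists_subset_card_eq (s := A) (n := w) (by omega)
    obtain ⟨P, hP1, hP2⟩ := ih (A \ B) (by rw [card_sdiff_of_subset hBA, hBc]; omega)
    refine ⟨fun i => if i = r then B else P i, ?_, ?_⟩
    · intro i hi
      by_cases h : i = r
      · simp only [h, if_true]
        exact ⟨hBA, hBc⟩
      · simp only [h, if_false]
        have := hP1 i (by omega)
        exact ⟨this.1.trans sdiff_subset, this.2⟩
    · intro i hi j hj hij
      by_cases h1 : i = r <;> by_cases h2 : j = r
      · omega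
      · simp only [h1, h2, if_true, if_false]
        exact (disjoint_sdiff (s := B) (t := A)).mono_right (hP1 j (by omega)).1
      · simp only [h1, h2, if_true, if_false]
        exact ((disjoint_sdiff (s := B) (t := A)).mono_right (hP1 i (by omega)).1).symm
      · simp only [h1, h2, if_false]
        exact hP2 i (by omega) j (by omega) hij

theorem rich_of_basic {n ν ν0 : ℕ} (N : Fin n → Finset (Fin n)) (hν : 1 ≤ ν)
    (h : Basic N ν ν0) (A : Finset (Fin n)) (hA : 2 ^ ν ≤ A.card) :
    (univ.filter fun x => 32 * (2 ^ ν * (A ∩ N x).card) < 2 ^ ν0 * A.card).card < 2 ^ ν := by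
  classical
  obtain ⟨μ, rfl⟩ : ∃ μ, ν = μ + 1 := ⟨ν - 1, by omega⟩
  rw [Basic, Nat.add_sub_cancel] at h
  set s := 2 ^ μ with hs
  have hs0 : 0 < s := by positivity
  have h2s : 2 ^ (μ + 1) = 2 * s := by rw [pow_succ, mul_comm]
  rw [h2s] at hA ⊢
  set r := A.card / (2 * s) with hr
  have hr1 : 1 ≤ r := (Nat.one_le_div_iff (by omega)).mpr hA
  have hrA : r * (2 * s) ≤ A.card := Nat.div_mul_le_self _ _
  have hAr : A.card < (r + 1) * (2 * s) := by
    have := Nat.lt_div_mul_add (a := A.card) (b := 2 * s) (by omega)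
    calc A.card < A.card / (2 * s) * (2 * s) + 2 * s := this
      _ = (r + 1) * (2 * s) := by rw [hr]; ring
  obtain ⟨P, hP1, hP2⟩ := pieces (2 * s) r A hrA
  -- bad vertices of one piece
  have hbad : ∀ i < r, (univ.filter fun x => 8 * (P i ∩ N x).card < 2 ^ ν0).card < s := by
    intro i hi
    by_contra hcon
    push Not at hcon
    obtain ⟨X, hX, hXc⟩ := exists_subset_card_eq hcon
    have h1 : s ≤ (P i \ X).card := by
      have := le_card_sdiff X (P i)
      rw [(hP1 i hi).2, hXc] at this
      omega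
    obtain ⟨A', hA', hA'c⟩ := exists_subset_card_eq h1
    obtain ⟨x, hx, hxx⟩ := h X A' hXc hA'c
      ((disjoint_sdiff (s := X) (t := P i)).mono_right hA')
    have h2 := (mem_filter.mp (hX hx)).2
    have h3 : (A' ∩ N x).card ≤ (P i ∩ N x).card :=
      card_le_card (inter_subset_inter_right (hA'.trans sdiff_subset))
    omega
  set Bad := univ.filter fun x => 32 * (2 * s * (A ∩ N x).card) < 2 ^ ν0 * A.card with hBad
  have hmany : ∀ x ∈ Bad,
      r + 1 ≤ 2 * ((range r).filter fun i => 8 * (P i ∩ N x).card < 2 ^ ν0).card := by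
    intro x hx
    have hx := (mem_filter.mp hx).2
    have hdis : ∑ i ∈ range r, (P i ∩ N x).card ≤ (A ∩ N x).card := by
      rw [← card_biUnion]
      · apply card_le_card
        intro a ha
        rw [mem_biUnion] at ha
        obtain ⟨i, hi, hai⟩ := ha
        rw [mem_inter] at hai ⊢
        exact ⟨(hP1 i (mem_range.mp hi)).1 hai.1, hai.2⟩
      · intro i hi j hj hij
        exact (hP2 i (mem_range.mp hi) j (mem_range.mp hj) hij).mono inter_subset_left
          inter_subset_left
    have hgood : ((range r).filter fun i => ¬ 8 * (P i ∩ N x).card < 2 ^ ν0).card * 2 ^ ν0 ≤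
        8 * (A ∩ N x).card := by
      calc ((range r).filter fun i => ¬ 8 * (P i ∩ N x).card < 2 ^ ν0).card * 2 ^ ν0
          = ∑ _i ∈ (range r).filter fun i => ¬ 8 * (P i ∩ N x).card < 2 ^ ν0, 2 ^ ν0 := by
            rw [sum_const, smul_eq_mul]
        _ ≤ ∑ i ∈ (range r).filter fun i => ¬ 8 * (P i ∩ N x).card < 2 ^ ν0,
            8 * (P i ∩ N x).card := by
            apply sum_le_sum
            intro i hi
            have := (mem_filter.mp hi).2
            omega
        _ ≤ ∑ i ∈ range r, 8 * (P i ∩ N x).card := sum_le_sum_of_subset (filter_subset _ _)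
        _ = 8 * ∑ i ∈ range r, (P i ∩ N x).card := (mul_sum _ _ _).symm
        _ ≤ 8 * (A ∩ N x).card := Nat.mul_le_mul_left _ hdis
    have hsplit := card_filter_add_card_filter_not (s := range r)
      (fun i => 8 * (P i ∩ N x).card < 2 ^ ν0)
    rw [card_range] at hsplit
    set gd := ((range r).filter fun i => ¬ 8 * (P i ∩ N x).card < 2 ^ ν0).card with hgd
    set w := 2 ^ ν0 with hw
    have hw0 : 0 < w := by positivity
    have h1 : 32 * (2 * s * (A ∩ N x).card) < w * ((r + 1) * (2 * s)) :=
      lt_of_lt_of_le hx (Nat.mul_le_mul_left _ hAr.le)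
    have h2 : 32 * (A ∩ N x).card < w * (r + 1) := by
      have e1 : 32 * (2 * s * (A ∩ N x).card) = (32 * (A ∩ N x).card) * (2 * s) := by ring
      have e2 : w * ((r + 1) * (2 * s)) = (w * (r + 1)) * (2 * s) := by ring
      rw [e1, e2] at h1
      exact Nat.lt_of_mul_lt_mul_right h1
    have h3 : 4 * (gd * w) < w * (r + 1) := by omega
    have h4 : 4 * gd < r + 1 := by
      have e1 : 4 * (gd * w) = (4 * gd) * w := by ring
      rw [e1, mul_comm w] at h3
      exact Nat.lt_of_mul_lt_mul_right h3
    omega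
  -- double counting
  have hdc : ∑ x ∈ Bad, ((range r).filter fun i => 8 * (P i ∩ N x).card < 2 ^ ν0).card =
      ∑ i ∈ range r, (Bad.filter fun x => 8 * (P i ∩ N x).card < 2 ^ ν0).card :=
    sum_card_bipartiteAbove_eq_sum_card_bipartiteBelow _
  have h5 : Bad.card * (r + 1) ≤
      ∑ x ∈ Bad, 2 * ((range r).filter fun i => 8 * (P i ∩ N x).card < 2 ^ ν0).card := by
    rw [← smul_eq_mul, ← sum_const]
    exact sum_le_sum hmany
  rw [← mul_sum, hdc] at h5
  have h6 : ∑ i ∈ range r, (Bad.filter fun x => 8 * (P i ∩ N x).card < 2 ^ ν0).card ≤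
      r * (s - 1) := by
    calc ∑ i ∈ range r, (Bad.filter fun x => 8 * (P i ∩ N x).card < 2 ^ ν0).card
        ≤ ∑ _i ∈ range r, (s - 1) := by
          apply sum_le_sum
          intro i hi
          have h7 := hbad i (mem_range.mp hi)
          have h8 : (Bad.filter fun x => 8 * (P i ∩ N x).card < 2 ^ ν0).card ≤
              (univ.filter fun x => 8 * (P i ∩ N x).card < 2 ^ ν0).card :=
            card_le_card (filter_subset_filter _ (subset_univ _))
          omega
      _ = r * (s - 1) := by rw [sum_const, card_range, smul_eq_mul]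
  by_contra hcon
  push Not at hcon
  have h9 : 2 * s * (r + 1) ≤ 2 * (r * (s - 1)) :=
    (Nat.mul_le_mul_right _ hcon).trans (h5.trans (Nat.mul_le_mul_left _ h6))
  have h10 : r * (s - 1) ≤ r * s := Nat.mul_le_mul_left _ (Nat.sub_le _ _)
  have h11 : 2 * s * (r + 1) = 2 * (r * s) + 2 * s := by ring
  omega

end Pool.Agent.A217
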