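import Pool.Agent.MP217Area.GLab

set_option autoImplicit false

/-!
# Few edges between two sets
-/

namespace Pool.Agent.A217

open Finset

/-- The sum over all labellings of a product over different pairs. -/
private theorem grich_sum_prod {n M : ℕ} {α : Type*} [DecidableEq α] (Z : Finset α)
    (φ : α → Fin n × Fin n) (hφ : Set.InjOn φ Z) (h : Fin M → ℝ) :
    Z.card ≤ n * n ∧ ∑ f : Lab n M, ∏ z ∈ Z, h (f (φ z)) =
      (M : ℝ) ^ (n * n - Z.card) * (∑ v, h v) ^ Z.card := by
  classical
  have hcard : Z.card ≤ n * n := by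
    have h1 : (Z.image φ).card = Z.card := card_image_of_injOn hφ
    have h2 : (Z.image φ).card ≤ (univ : Finset (Fin n × Fin n)).card := card_le_card (subset_univ _)
    rw [card_univ, Fintype.card_prod, Fintype.card_fin] at h2
    omega
  refine ⟨hcard, ?_⟩
  have h1 : ∀ f : Lab n M, ∏ z ∈ Z, h (f (φ z)) =
      ∏ e : Fin n × Fin n, if e ∈ Z.image φ then h (f e) else 1 := by
    intro f
    rw [prod_ite_mem, univ_inter, prod_image hφ]
  have h2 := Finset.prod_univ_sum (R := ℝ) (fun _ : Fin n × Fin n => (univ : Finset (Fin M)))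
    (fun e v => if e ∈ Z.image φ then h v else 1)
  rw [Fintype.piFinset_univ] at h2
  calc ∑ f : Lab n M, ∏ z ∈ Z, h (f (φ z))
      = ∑ f : Lab n M, ∏ e : Fin n × Fin n, (if e ∈ Z.image φ then h (f e) else 1) :=
        sum_congr rfl fun f _ => h1 f
    _ = ∏ e : Fin n × Fin n, ∑ v, (if e ∈ Z.image φ then h v else 1) := h2.symm
    _ = ∏ e : Fin n × Fin n, (if e ∈ Z.image φ then ∑ v, h v else (M : ℝ)) := by
        apply prod_congr rfl
        intro e _
        split_ifs <;> simp
    _ = _ := by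
        rw [prod_ite, prod_const, prod_const, filter_mem_eq_inter, univ_inter,
          card_image_of_injOn hφ, mul_comm]
        congr 2
        have h3 : (univ.filter fun e : Fin n × Fin n => e ∉ Z.image φ) = (Z.image φ)ᶜ := by
          ext e
          simp
        rw [h3, card_compl, card_image_of_injOn hφ, Fintype.card_prod, Fintype.card_fin]

/-- Few labellings leave every `x ∈ X` with few neighbours in `A`. -/
theorem rich_count (n M t s L : ℕ) (hM : 0 < M) (ht : t ≤ M) (hμ : 8 * (L + 1) * M ≤ s * t)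
    (X A : Finset (Fin n)) (hX : X.card = s) (hA : A.card = s) (hXA : Disjoint X A) :
    2 ^ (3 * (L + 1) * s) * (univ.filter fun f : Lab n M =>
      ∀ x ∈ X, 4 * (M * (A ∩ nb f t x).card) < s * t).card ≤ M ^ (n * n) := by
  classical
  have hM0 : (0 : ℝ) < M := by exact_mod_cast hM
  have htM : (t : ℝ) ≤ M := by exact_mod_cast ht
  have hφ : Set.InjOn (fun z : Fin n × Fin n => (min z.1 z.2, max z.1 z.2))
      ((X ×ˢ A : Finset (Fin n × Fin n)) : Set (Fin n × Fin n)) := by
    rintro ⟨x, y⟩ hy ⟨x', y'⟩ hz hyz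
    simp only [coe_product, Set.mem_prod, mem_coe] at hy hz
    simp only [Prod.mk.injEq] at hyz
    obtain ⟨h1, h2⟩ := hyz
    have hd : ∀ u ∈ X, u ∉ A := fun u hu => Finset.disjoint_left.mp hXA hu
    rcases le_total x y with h | h <;> rcases le_total x' y' with h' | h'
    · rw [min_eq_left h, min_eq_left h'] at h1
      rw [max_eq_right h, max_eq_right h'] at h2
      rw [h1, h2]
    · rw [min_eq_left h, min_eq_right h'] at h1
      exact absurd (h1 ▸ hz.2) (hd x hy.1)
    · rw [min_eq_right h, min_eq_left h'] at h1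
      exact absurd (h1 ▸ hy.2) (hd x' hz.1)
    · rw [min_eq_right h, min_eq_right h'] at h1
      rw [max_eq_left h, max_eq_left h'] at h2
      rw [h1, h2]
  obtain ⟨hc, hsum⟩ := grich_sum_prod (M := M) (X ×ˢ A) _ hφ
    (fun v => if v.val < t then (1 / 2 : ℝ) else 1)
  rw [card_product, hX, hA] at hc hsum
  have hw : ∀ f : Lab n M, ∏ z ∈ X ×ˢ A, (fun v : Fin M => if v.val < t then (1 / 2 : ℝ) else 1)
      (f ((fun z : Fin n × Fin n => (min z.1 z.2, max z.1 z.2)) z)) =
      ∏ x ∈ X, (1 / 2 : ℝ) ^ (A ∩ nb f t x).card := by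
    intro f
    rw [prod_product]
    apply prod_congr rfl
    intro x hx
    have h1 : A ∩ nb f t x = A.filter fun y => (lb f x y).val < t := by
      ext y
      simp only [mem_inter, nb, mem_filter, mem_univ, true_and]
      constructor
      · rintro ⟨h1, _, h2⟩
        exact ⟨h1, h2⟩
      · rintro ⟨h1, h2⟩
        exact ⟨h1, fun h => Finset.disjoint_left.mp hXA hx (h ▸ h1), h2⟩
    rw [h1]
    simp only [lb]
    rw [prod_ite, prod_const, prod_const, one_pow, mul_one]
    try congr!
  have hv : ∑ v : Fin M, (if v.val < t then (1 / 2 : ℝ) else 1) = M - t / 2 := by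
    have h1 : ∀ v : Fin M, (if v.val < t then (1 / 2 : ℝ) else 1) =
        1 - (if v.val < t then 1 else 0) / 2 := by
      intro v
      split_ifs <;> norm_num
    rw [sum_congr rfl fun v _ => h1 v, sum_sub_distrib, ← sum_div, sum_boole]
    simp only [sum_const, card_univ, Fintype.card_fin, nsmul_eq_mul, mul_one]
    have h3 : (univ.filter fun v : Fin M => v.val < t).card = t := by
      have h4 : ((univ.filter fun v : Fin M => v.val < t).image Fin.val) = range t := by
        ext k
        simp only [mem_image, mem_filter, mem_univ, true_and, mem_range]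
        constructor
        · rintro ⟨v, hv, rfl⟩
          exact hv
        · intro hk
          exact ⟨⟨k, by omega⟩, hk, rfl⟩
      rw [← card_image_of_injective _ Fin.val_injective, h4, card_range]
    rw [h3]
  rw [sum_congr rfl fun f _ => hw f, hv] at hsum
  set B := univ.filter fun f : Lab n M =>
      ∀ x ∈ X, 4 * (M * (A ∩ nb f t x).card) < s * t with hB
  -- μ = s t / M
  set μ : ℝ := s * t / M with hμd
  have hμ8 : 8 * ((L : ℝ) + 1) ≤ μ := by
    rw [hμd, le_div_iff₀ hM0]
    exact_mod_cast hμ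
  have hlow : ∀ f ∈ B, Real.exp (-(μ / 4 * Real.log 2) * s) ≤
      ∏ x ∈ X, (1 / 2 : ℝ) ^ (A ∩ nb f t x).card := by
    intro f hf
    rw [hB, mem_filter] at hf
    have h1 : ∏ _x ∈ X, Real.exp (-(μ / 4 * Real.log 2)) ≤
        ∏ x ∈ X, (1 / 2 : ℝ) ^ (A ∩ nb f t x).card := by
      apply prod_le_prod
      · intro x _
        exact (Real.exp_pos _).le
      · intro x hx
        have h2 : (4 * (M * (A ∩ nb f t x).card) : ℝ) ≤ s * t := by
          exact_mod_cast (hf.2 x hx).le
        have h3 : ((A ∩ nb f t x).card : ℝ) ≤ μ / 4 := by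
          rw [hμd, le_div_iff₀ (by norm_num), le_div_iff₀ hM0]
          linarith
        have h4 : (1 / 2 : ℝ) ^ (A ∩ nb f t x).card =
            Real.exp (-((A ∩ nb f t x).card * Real.log 2)) := by
          rw [Real.exp_neg, Real.exp_nat_mul, Real.exp_log (by norm_num), one_div, inv_pow]
        rw [h4]
        apply Real.exp_le_exp.mpr
        have hl : 0 ≤ Real.log 2 := Real.log_nonneg (by norm_num)
        have := mul_le_mul_of_nonneg_right h3 hl
        linarith
    rw [prod_const, hX, ← Real.exp_nat_mul, mul_comm] at h1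
    exact h1
  have hupper : ((M : ℝ) - t / 2) ^ (s * s) ≤ M ^ (s * s) * Real.exp (-(μ / 2) * s) := by
    have h1 : (M : ℝ) - t / 2 ≤ M * Real.exp (-(t / M / 2)) := by
      have h2 := Real.add_one_le_exp (-((t : ℝ) / M / 2))
      calc (M : ℝ) - t / 2 = M * (-(t / M / 2) + 1) := by field_simp; ring
        _ ≤ _ := mul_le_mul_of_nonneg_left h2 hM0.le
    calc ((M : ℝ) - t / 2) ^ (s * s) ≤ (M * Real.exp (-(t / M / 2))) ^ (s * s) :=
          pow_le_pow_left₀ (by linarith [htM, (Nat.cast_nonneg t : (0 : ℝ) ≤ t)]) h1 _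
      _ = M ^ (s * s) * Real.exp (((s * s : ℕ) : ℝ) * -(t / M / 2)) := by
          rw [mul_pow, Real.exp_nat_mul]
      _ = _ := by
          congr 2
          rw [hμd]
          push_cast
          ring
  have hkey : (2 : ℝ) ^ (3 * (L + 1) * s) * Real.exp (-(μ / 2) * s) ≤
      Real.exp (-(μ / 4 * Real.log 2) * s) := by
    have h4 : (2 : ℝ) ^ (3 * (L + 1) * s) = Real.exp ((3 * (L + 1) * s) * Real.log 2) := by
      have := Real.exp_nat_mul (Real.log 2) (3 * (L + 1) * s)
      rw [Real.exp_log (by norm_num)] at this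
      rw [← this]
      push_cast
      ring_nf
    rw [h4, ← Real.exp_add]
    apply Real.exp_le_exp.mpr
    have hl := Real.log_two_lt_d9
    have hl' := Real.log_two_gt_d9
    have hs : (0 : ℝ) ≤ s := Nat.cast_nonneg s
    have h5 : 3 * ((L : ℝ) + 1) * Real.log 2 ≤ μ / 2 - μ / 4 * Real.log 2 := by
      have h6 : (0 : ℝ) ≤ L := Nat.cast_nonneg L
      nlinarith
    nlinarith [mul_le_mul_of_nonneg_right h5 hs]
  have hle : (B.card : ℝ) * Real.exp (-(μ / 4 * Real.log 2) * s) ≤
      M ^ (n * n) * Real.exp (-(μ / 2) * s) := by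
    calc (B.card : ℝ) * Real.exp (-(μ / 4 * Real.log 2) * s)
        = ∑ _f ∈ B, Real.exp (-(μ / 4 * Real.log 2) * s) := by rw [sum_const, nsmul_eq_mul]
      _ ≤ ∑ f ∈ B, ∏ x ∈ X, (1 / 2 : ℝ) ^ (A ∩ nb f t x).card := sum_le_sum hlow
      _ ≤ ∑ f : Lab n M, ∏ x ∈ X, (1 / 2 : ℝ) ^ (A ∩ nb f t x).card :=
          sum_le_sum_of_subset_of_nonneg (subset_univ _) fun f _ _ =>
            prod_nonneg fun x _ => by positivity
      _ = M ^ (n * n - s * s) * (M - t / 2) ^ (s * s) := hsum
      _ ≤ M ^ (n * n - s * s) * (M ^ (s * s) * Real.exp (-(μ / 2) * s)) :=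
          mul_le_mul_of_nonneg_left hupper (by positivity)
      _ = M ^ (n * n) * Real.exp (-(μ / 2) * s) := by
          rw [← mul_assoc, ← pow_add]
          congr 3
          omega
  have hfin : (2 : ℝ) ^ (3 * (L + 1) * s) * B.card ≤ M ^ (n * n) := by
    have he := Real.exp_pos (-(μ / 2) * s)
    have : (2 ^ (3 * (L + 1) * s) * B.card) * Real.exp (-(μ / 2) * s) ≤
        (M : ℝ) ^ (n * n) * Real.exp (-(μ / 2) * s) := by
      calc _ = (2 ^ (3 * (L + 1) * s) * Real.exp (-(μ / 2) * s)) * (B.card : ℝ) := by ring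
        _ ≤ Real.exp (-(μ / 4 * Real.log 2) * s) * (B.card : ℝ) :=
            mul_le_mul_of_nonneg_right hkey (Nat.cast_nonneg _)
        _ = (B.card : ℝ) * Real.exp (-(μ / 4 * Real.log 2) * s) := mul_comm _ _
        _ ≤ _ := hle
    exact le_of_mul_le_mul_right this he
  exact_mod_cast hfin

end Pool.Agent.A217
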