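import Pool.Agent.MP217Area.GDeg
import Pool.Agent.MP217Area.GRich
import Pool.Agent.MP217Area.GPiece

set_option autoImplicit false

/-!
# Existence of the nested rich graphs
-/

namespace Pool.Agent.A217

open Finset

private theorem g4_deg {n L : ℕ} (hn2 : n < 2 ^ (L + 1)) (t : ℕ) (ht : t ≤ 2 ^ L) :
    2 ^ (L + 2) * ∑ x : Fin n, (univ.filter fun f : Lab n (2 ^ L) =>
      2 * (n * t) + 4 * (L + 1) * 2 ^ L < 2 ^ L * (nb f t x).card).card ≤
    (2 ^ L) ^ (n * n) := by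
  set S := ∑ x : Fin n, (univ.filter fun f : Lab n (2 ^ L) =>
      2 * (n * t) + 4 * (L + 1) * 2 ^ L < 2 ^ L * (nb f t x).card).card with hS
  have h1 : 2 ^ (4 * (L + 1)) * S ≤ n * (2 ^ L) ^ (n * n) := by
    rw [hS, Finset.mul_sum]
    calc _ ≤ ∑ _x : Fin n, (2 ^ L) ^ (n * n) :=
          Finset.sum_le_sum fun x _ => deg_count n (2 ^ L) t L (by positivity) ht x
      _ = n * (2 ^ L) ^ (n * n) := by
          rw [Finset.sum_const, Finset.card_univ, Fintype.card_fin, smul_eq_mul]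
  have h2 : 2 ^ (L + 1) * (2 ^ (L + 2) * S) ≤ 2 ^ (L + 1) * (2 ^ L) ^ (n * n) := by
    calc 2 ^ (L + 1) * (2 ^ (L + 2) * S) = 2 ^ (L + 1 + (L + 2)) * S := by rw [pow_add]; ring
      _ ≤ 2 ^ (4 * (L + 1)) * S :=
          Nat.mul_le_mul_right _ (Nat.pow_le_pow_right (by norm_num) (by omega))
      _ ≤ n * (2 ^ L) ^ (n * n) := h1
      _ ≤ 2 ^ (L + 1) * (2 ^ L) ^ (n * n) := Nat.mul_le_mul_right _ hn2.le
  exact Nat.le_of_mul_le_mul_left h2 (by positivity)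

private theorem g4_rich {n L : ℕ} (hn2 : n < 2 ^ (L + 1)) (t s : ℕ) (hs : 2 ≤ s)
    (ht : t ≤ 2 ^ L) (hμ : 8 * (L + 1) * 2 ^ L ≤ s * t) :
    2 ^ (L + 2) * ∑ XA ∈ ((powersetCard s (univ : Finset (Fin n))) ×ˢ
        (powersetCard s (univ : Finset (Fin n)))).filter (fun XA => Disjoint XA.1 XA.2),
      (univ.filter fun f : Lab n (2 ^ L) =>
        ∀ x ∈ XA.1, 4 * (2 ^ L * (XA.2 ∩ nb f t x).card) < s * t).card ≤
    (2 ^ L) ^ (n * n) := by
  set I := ((powersetCard s (univ : Finset (Fin n))) ×ˢ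
        (powersetCard s (univ : Finset (Fin n)))).filter (fun XA => Disjoint XA.1 XA.2) with hI
  set S := ∑ XA ∈ I, (univ.filter fun f : Lab n (2 ^ L) =>
        ∀ x ∈ XA.1, 4 * (2 ^ L * (XA.2 ∩ nb f t x).card) < s * t).card with hS
  have hIc : I.card ≤ 2 ^ (2 * (L + 1) * s) := by
    calc I.card ≤ ((powersetCard s (univ : Finset (Fin n))) ×ˢ
        (powersetCard s (univ : Finset (Fin n)))).card := Finset.card_filter_le _ _
      _ = n.choose s * n.choose s := by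
          rw [Finset.card_product, Finset.card_powersetCard, Finset.card_univ, Fintype.card_fin]
      _ ≤ n ^ s * n ^ s := Nat.mul_le_mul (Nat.choose_le_pow n s) (Nat.choose_le_pow n s)
      _ ≤ (2 ^ (L + 1)) ^ s * (2 ^ (L + 1)) ^ s :=
          Nat.mul_le_mul (Nat.pow_le_pow_left hn2.le s) (Nat.pow_le_pow_left hn2.le s)
      _ = 2 ^ (2 * (L + 1) * s) := by
          rw [← pow_mul, ← pow_add]
          congr 1
          ring
  have h1 : 2 ^ (3 * (L + 1) * s) * S ≤ 2 ^ (2 * (L + 1) * s) * (2 ^ L) ^ (n * n) := by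
    rw [hS, Finset.mul_sum]
    calc _ ≤ ∑ _XA ∈ I, (2 ^ L) ^ (n * n) := by
          refine Finset.sum_le_sum fun XA hXA => ?_
          rw [hI, Finset.mem_filter, Finset.mem_product, Finset.mem_powersetCard,
            Finset.mem_powersetCard] at hXA
          exact rich_count n (2 ^ L) t s L (by positivity) ht hμ XA.1 XA.2 hXA.1.1.2 hXA.1.2.2
            hXA.2
      _ = I.card * (2 ^ L) ^ (n * n) := by
          rw [Finset.sum_const, smul_eq_mul]
      _ ≤ _ := Nat.mul_le_mul_right _ hIc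
  have h2 : 2 ^ (2 * (L + 1) * s) * (2 ^ (L + 2) * S) ≤
      2 ^ (2 * (L + 1) * s) * (2 ^ L) ^ (n * n) := by
    calc 2 ^ (2 * (L + 1) * s) * (2 ^ (L + 2) * S) = 2 ^ (2 * (L + 1) * s + (L + 2)) * S := by
          rw [pow_add]; ring
      _ ≤ 2 ^ (3 * (L + 1) * s) * S := by
          refine Nat.mul_le_mul_right _ (Nat.pow_le_pow_right (by norm_num) ?_)
          nlinarith
      _ ≤ _ := h1
  exact Nat.le_of_mul_le_mul_left h2 (by positivity)

private theorem g4_exists {n L ν0 : ℕ} (hn2 : n < 2 ^ (L + 1))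
    (h0 : 16 * (L + 1) ≤ 2 ^ ν0) :
    ∃ f : Lab n (2 ^ L), ∀ ν ∈ Ioc ν0 L,
      (∀ x, 2 ^ L * (nb f (2 ^ (L + ν0 - ν)) x).card ≤
        2 * (n * 2 ^ (L + ν0 - ν)) + 4 * (L + 1) * 2 ^ L) ∧
      ∀ X A : Finset (Fin n), X.card = 2 ^ (ν - 1) → A.card = 2 ^ (ν - 1) → Disjoint X A →
        ∃ x ∈ X, 2 ^ (ν - 1) * 2 ^ (L + ν0 - ν) ≤
          4 * (2 ^ L * (A ∩ nb f (2 ^ (L + ν0 - ν)) x).card) := by
  classical
  by_contra hcon
  push Not at hcon
  set I : ℕ → Finset (Finset (Fin n) × Finset (Fin n)) := fun ν =>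
    ((powersetCard (2 ^ (ν - 1)) (univ : Finset (Fin n))) ×ˢ
        (powersetCard (2 ^ (ν - 1)) (univ : Finset (Fin n)))).filter
          (fun XA => Disjoint XA.1 XA.2) with hI
  set D : ℕ → Fin n → Finset (Lab n (2 ^ L)) := fun ν x => univ.filter fun f : Lab n (2 ^ L) =>
      2 * (n * 2 ^ (L + ν0 - ν)) + 4 * (L + 1) * 2 ^ L <
        2 ^ L * (nb f (2 ^ (L + ν0 - ν)) x).card with hD
  set R : ℕ → Finset (Fin n) × Finset (Fin n) → Finset (Lab n (2 ^ L)) := fun ν XA =>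
    univ.filter fun f : Lab n (2 ^ L) =>
        ∀ x ∈ XA.1, 4 * (2 ^ L * (XA.2 ∩ nb f (2 ^ (L + ν0 - ν)) x).card) <
          2 ^ (ν - 1) * 2 ^ (L + ν0 - ν) with hR
  have hcov : (univ : Finset (Lab n (2 ^ L))) ⊆ (Ioc ν0 L).biUnion fun ν =>
      (univ.biUnion fun x => D ν x) ∪ ((I ν).biUnion fun XA => R ν XA) := by
    intro f _
    obtain ⟨ν, hν, h⟩ := hcon f
    rw [Finset.mem_biUnion]
    refine ⟨ν, hν, ?_⟩
    rw [Finset.mem_union]
    by_cases hd : ∀ x, 2 ^ L * (nb f (2 ^ (L + ν0 - ν)) x).card ≤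
        2 * (n * 2 ^ (L + ν0 - ν)) + 4 * (L + 1) * 2 ^ L
    · right
      obtain ⟨X, A, hX, hA, hXA, hx⟩ := h hd
      rw [Finset.mem_biUnion]
      refine ⟨(X, A), ?_, ?_⟩
      · rw [hI]
        simp only [Finset.mem_filter, Finset.mem_product, Finset.mem_powersetCard]
        exact ⟨⟨⟨subset_univ _, hX⟩, ⟨subset_univ _, hA⟩⟩, hXA⟩
      · rw [hR]
        simp only [Finset.mem_filter]
        exact ⟨mem_univ _, hx⟩
    · left
      push Not at hd
      obtain ⟨x, hx⟩ := hd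
      rw [Finset.mem_biUnion]
      refine ⟨x, mem_univ _, ?_⟩
      rw [hD]
      simp only [Finset.mem_filter]
      exact ⟨mem_univ _, hx⟩
  have hν0 : 1 ≤ ν0 := by
    by_contra h
    have h1 : ν0 = 0 := by omega
    rw [h1] at h0
    omega
  have hterm : ∀ ν ∈ Ioc ν0 L, 2 ^ (L + 1) * ((∑ x, (D ν x).card) +
      ∑ XA ∈ I ν, (R ν XA).card) ≤ (2 ^ L) ^ (n * n) := by
    intro ν hν
    rw [Finset.mem_Ioc] at hν
    have ht : 2 ^ (L + ν0 - ν) ≤ 2 ^ L := Nat.pow_le_pow_right (by norm_num) (by omega)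
    have hs : 2 ≤ 2 ^ (ν - 1) := by
      calc 2 = 2 ^ 1 := by norm_num
        _ ≤ 2 ^ (ν - 1) := Nat.pow_le_pow_right (by norm_num) (by omega)
    have hst : 2 ^ (ν - 1) * 2 ^ (L + ν0 - ν) * 2 = 2 ^ ν0 * 2 ^ L := by
      rw [← pow_add, ← pow_succ, ← pow_add]
      congr 1
      omega
    have hμ : 8 * (L + 1) * 2 ^ L ≤ 2 ^ (ν - 1) * 2 ^ (L + ν0 - ν) := by
      have : 16 * (L + 1) * 2 ^ L ≤ 2 ^ ν0 * 2 ^ L := Nat.mul_le_mul_right _ h0
      rw [← hst] at this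
      linarith
    have h1 := g4_deg hn2 (2 ^ (L + ν0 - ν)) ht
    have h2 := g4_rich hn2 (2 ^ (L + ν0 - ν)) (2 ^ (ν - 1)) hs ht hμ
    have h1' : 2 ^ (L + 2) * (∑ x, (D ν x).card) ≤ (2 ^ L) ^ (n * n) := h1
    have h2' : 2 ^ (L + 2) * (∑ XA ∈ I ν, (R ν XA).card) ≤ (2 ^ L) ^ (n * n) := h2
    have h3 : 2 ^ (L + 2) = 2 * 2 ^ (L + 1) := by
      rw [pow_succ]
      ring
    rw [h3] at h1' h2'
    nlinarith
  have hcard : (2 ^ L) ^ (n * n) ≤ ∑ ν ∈ Ioc ν0 L, ((∑ x, (D ν x).card) +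
      ∑ XA ∈ I ν, (R ν XA).card) := by
    calc (2 ^ L) ^ (n * n) = (univ : Finset (Lab n (2 ^ L))).card := by
          rw [Finset.card_univ, Fintype.card_fun, Fintype.card_prod, Fintype.card_fin,
            Fintype.card_fin]
      _ ≤ _ := Finset.card_le_card hcov
      _ ≤ ∑ ν ∈ Ioc ν0 L, ((univ.biUnion fun x => D ν x) ∪
            ((I ν).biUnion fun XA => R ν XA)).card := Finset.card_biUnion_le
      _ ≤ _ := by
          refine Finset.sum_le_sum fun ν _ => ?_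
          refine (Finset.card_union_le _ _).trans ?_
          exact Nat.add_le_add Finset.card_biUnion_le Finset.card_biUnion_le
  have hfin : 2 ^ (L + 1) * (2 ^ L) ^ (n * n) ≤ L * (2 ^ L) ^ (n * n) := by
    calc 2 ^ (L + 1) * (2 ^ L) ^ (n * n) ≤ 2 ^ (L + 1) * ∑ ν ∈ Ioc ν0 L,
          ((∑ x, (D ν x).card) + ∑ XA ∈ I ν, (R ν XA).card) := Nat.mul_le_mul_left _ hcard
      _ = ∑ ν ∈ Ioc ν0 L, 2 ^ (L + 1) * ((∑ x, (D ν x).card) +
            ∑ XA ∈ I ν, (R ν XA).card) := Finset.mul_sum _ _ _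
      _ ≤ ∑ _ν ∈ Ioc ν0 L, (2 ^ L) ^ (n * n) := Finset.sum_le_sum hterm
      _ = (L - ν0) * (2 ^ L) ^ (n * n) := by
          rw [Finset.sum_const, Nat.card_Ioc, smul_eq_mul]
      _ ≤ _ := Nat.mul_le_mul_right _ (by omega)
  have h5 : 2 ^ (L + 1) ≤ L := Nat.le_of_mul_le_mul_right hfin (by positivity)
  have h6 : L < 2 ^ (L + 1) := lt_trans L.lt_succ_self (Nat.lt_two_pow_self)
  omega

private theorem g4_lb {n M : ℕ} (f : Lab n M) (x y : Fin n) : lb f x y = lb f y x := by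
  unfold lb
  rw [min_comm, max_comm]

private theorem g4_nb_symm {n M : ℕ} (f : Lab n M) (t : ℕ) (x y : Fin n)
    (h : y ∈ nb f t x) : x ∈ nb f t y := by
  unfold nb at h ⊢
  rw [mem_filter] at h ⊢
  exact ⟨mem_univ _, h.2.1.symm, by rw [g4_lb f y x]; exact h.2.2⟩

private theorem g4_nb_mono {n M : ℕ} (f : Lab n M) {s t : ℕ} (hst : s ≤ t) (x : Fin n) :
    nb f s x ⊆ nb f t x := by
  intro y h
  unfold nb at h ⊢
  rw [mem_filter] at h ⊢
  exact ⟨mem_univ _, h.2.1, h.2.2.trans_le hst⟩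

theorem exists_nest (n : ℕ) (hn : 1 ≤ n) (ν0 : ℕ) (h0 : 16 * (Nat.log 2 n + 1) ≤ 2 ^ ν0) :
    Nonempty (Nest n (Nat.log 2 n) ν0 (4 * n * 2 ^ ν0)) := by
  classical
  have hn1 : 2 ^ Nat.log 2 n ≤ n := Nat.pow_log_le_self 2 (by omega)
  have hn2 : n < 2 ^ (Nat.log 2 n + 1) := Nat.lt_pow_succ_log_self (by norm_num) n
  generalize Nat.log 2 n = L at *
  obtain ⟨f, hf⟩ := g4_exists hn2 h0
  let N : ℕ → Fin n → Finset (Fin n) := fun ν x =>
    if ν ≤ L then (if ν ≤ ν0 then univ else insert x (nb f (2 ^ (L + ν0 - ν)) x)) else {x}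
  have hN1 : ∀ ν x, ν ≤ L → ν ≤ ν0 → N ν x = univ := by
    intro ν x h1 h2
    simp only [N]
    rw [if_pos h1, if_pos h2]
  have hN2 : ∀ ν x, ν ≤ L → ¬ ν ≤ ν0 → N ν x = insert x (nb f (2 ^ (L + ν0 - ν)) x) := by
    intro ν x h1 h2
    simp only [N]
    rw [if_pos h1, if_neg h2]
  have hN3 : ∀ ν x, ¬ ν ≤ L → N ν x = {x} := by
    intro ν x h1
    simp only [N]
    rw [if_neg h1]
  refine ⟨⟨N, ?_, ?_, ?_, ?_, ?_, ?_, ?_⟩⟩
  · intro ν x
    by_cases h1 : ν ≤ L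
    · by_cases h2 : ν ≤ ν0
      · rw [hN1 ν x h1 h2]
        exact mem_univ _
      · rw [hN2 ν x h1 h2]
        exact mem_insert_self _ _
    · rw [hN3 ν x h1]
      exact mem_singleton_self _
  · intro ν x y hy
    by_cases h1 : ν ≤ L
    · by_cases h2 : ν ≤ ν0
      · rw [hN1 ν y h1 h2]
        exact mem_univ _
      · rw [hN2 ν x h1 h2, mem_insert] at hy
        rw [hN2 ν y h1 h2, mem_insert]
        rcases hy with hy | hy
        · exact Or.inl hy.symm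
        · exact Or.inr (g4_nb_symm f _ x y hy)
    · rw [hN3 ν x h1, mem_singleton] at hy
      rw [hN3 ν y h1, mem_singleton]
      exact hy.symm
  · intro x
    exact hN1 0 x (Nat.zero_le _) (Nat.zero_le _)
  · intro ν x
    by_cases h1 : ν + 1 ≤ L
    · by_cases h2 : ν ≤ ν0
      · rw [hN1 ν x (by omega) h2]
        exact subset_univ _
      · rw [hN2 (ν + 1) x h1 (by omega), hN2 ν x (by omega) h2]
        exact insert_subset_insert _ (g4_nb_mono f (Nat.pow_le_pow_right (by norm_num)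
          (by omega)) x)
    · rw [hN3 (ν + 1) x h1, singleton_subset_iff]
      by_cases h3 : ν ≤ L
      · by_cases h2 : ν ≤ ν0
        · rw [hN1 ν x h3 h2]
          exact mem_univ _
        · rw [hN2 ν x h3 h2]
          exact mem_insert_self _ _
      · rw [hN3 ν x h3]
        exact mem_singleton_self _
  · intro ν x h1
    by_cases h2 : ν ≤ ν0
    · rw [hN1 ν x h1 h2, card_univ, Fintype.card_fin]
      have h3 : 2 ^ ν ≤ 2 ^ ν0 := Nat.pow_le_pow_right (by norm_num) h2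
      calc 2 ^ ν * n ≤ 2 ^ ν0 * n := Nat.mul_le_mul_right _ h3
        _ ≤ 4 * n * 2 ^ ν0 := by nlinarith [Nat.zero_le (n * 2 ^ ν0)]
    · rw [hN2 ν x h1 h2]
      have h3 := (hf ν (Finset.mem_Ioc.2 ⟨by omega, h1⟩)).1 x
      have h4 := card_insert_le x (nb f (2 ^ (L + ν0 - ν)) x)
      set c := (nb f (2 ^ (L + ν0 - ν)) x).card with hc
      have h5 : 2 ^ (L + ν0 - ν) * 2 ^ ν = 2 ^ L * 2 ^ ν0 := by
        rw [← pow_add, ← pow_add]
        congr 1
        omega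
      have h6 : 2 ^ ν ≤ n := (Nat.pow_le_pow_right (by norm_num) h1).trans hn1
      have h7 : 2 ^ L * (2 ^ ν * c) ≤ 2 ^ L * (2 * (n * 2 ^ ν0) + 4 * (L + 1) * 2 ^ ν) := by
        calc 2 ^ L * (2 ^ ν * c) = (2 ^ L * c) * 2 ^ ν := by ring
          _ ≤ (2 * (n * 2 ^ (L + ν0 - ν)) + 4 * (L + 1) * 2 ^ L) * 2 ^ ν :=
              Nat.mul_le_mul_right _ h3
          _ = 2 * (n * (2 ^ (L + ν0 - ν) * 2 ^ ν)) + 4 * (L + 1) * 2 ^ L * 2 ^ ν := by ring
          _ = _ := by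
              rw [h5]
              ring
      have h8 : 2 ^ ν * c ≤ 2 * (n * 2 ^ ν0) + 4 * (L + 1) * 2 ^ ν :=
        Nat.le_of_mul_le_mul_left h7 (by positivity)
      have h9 : 16 * (L + 1) * 2 ^ ν ≤ 2 ^ ν0 * n := Nat.mul_le_mul h0 h6
      have h10 : 2 ^ ν ≤ 2 ^ ν0 * n := by
        calc 2 ^ ν = 1 * 2 ^ ν := by ring
          _ ≤ 2 ^ ν0 * n := Nat.mul_le_mul Nat.one_le_two_pow h6
      calc 2 ^ ν * (insert x (nb f (2 ^ (L + ν0 - ν)) x)).card ≤ 2 ^ ν * (c + 1) :=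
            Nat.mul_le_mul_left _ h4
        _ = 2 ^ ν * c + 2 ^ ν := by ring
        _ ≤ 4 * n * 2 ^ ν0 := by nlinarith
  · intro ν x h1
    rw [hN3 ν x (by omega), card_singleton]
  · intro ν h1 A hA
    by_cases h2 : ν ≤ ν0
    · have hpos : 0 < A.card := lt_of_lt_of_le (by positivity) hA
      have h3 : (univ.filter fun x => 32 * (2 ^ max ν ν0 * (A ∩ N ν x).card) <
          2 ^ ν0 * A.card) = ∅ := by
        rw [Finset.filter_eq_empty_iff]
        intro x _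
        rw [hN1 ν x h1 h2, inter_univ, max_eq_right h2]
        have : 0 < 2 ^ ν0 * A.card := by positivity
        omega
      rw [h3, card_empty]
      positivity
    · rw [max_eq_left (by omega)]
      refine rich_of_basic (N ν) (by omega) ?_ A hA
      intro X B hX hB hXB
      obtain ⟨x, hx, hx2⟩ := (hf ν (Finset.mem_Ioc.2 ⟨by omega, h1⟩)).2 X B hX hB hXB
      refine ⟨x, hx, ?_⟩
      rw [hN2 ν x h1 h2]
      have h3 : (B ∩ nb f (2 ^ (L + ν0 - ν)) x).card ≤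
          (B ∩ insert x (nb f (2 ^ (L + ν0 - ν)) x)).card :=
        card_le_card (inter_subset_inter_left (subset_insert _ _))
      have hst : 2 ^ (ν - 1) * 2 ^ (L + ν0 - ν) * 2 = 2 ^ L * 2 ^ ν0 := by
        rw [← pow_add, ← pow_succ, ← pow_add]
        congr 1
        omega
      have h4 : 2 ^ L * 2 ^ ν0 ≤ 2 ^ L * (8 * (B ∩ nb f (2 ^ (L + ν0 - ν)) x).card) := by
        rw [← hst]
        linarith
      have h5 : 2 ^ ν0 ≤ 8 * (B ∩ nb f (2 ^ (L + ν0 - ν)) x).card :=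
        Nat.le_of_mul_le_mul_left h4 (by positivity)
      omega

end Pool.Agent.A217
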