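import Pool.Agent.MP217Upper.Model

set_option autoImplicit false

/-!
# Independence of coordinates
-/

namespace Pool.Agent.A217

open MeasureTheory
open scoped ENNReal
open Pool.Agent.MP217Upper.Model (coins)

private theorem iIndep_co {n : ℕ} :
    ProbabilityTheory.iIndepFun (fun (i : Fin n × ℕ) (c : Fin n → ℕ → Bool) => c i.1 i.2)
    (coins n) := by
  have h := ProbabilityTheory.iIndepFun_uncurry_infinitePi' (ι := Fin n) (κ := ℕ)
    (Ω := fun _ _ => Bool) (X := fun _ _ x => x)
    (fun _ _ => (PMF.uniformOfFintype Bool).toMeasure) (fun _ _ => measurable_id)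
  rw [Measure.infinitePi_eq_pi] at h
  exact h

/-- The sigma algebra of one coordinate. -/
private abbrev sg {n : ℕ} (i : Fin n × ℕ) : MeasurableSpace (Fin n → ℕ → Bool) :=
  MeasurableSpace.comap (fun c : Fin n → ℕ → Bool => c i.1 i.2) inferInstance

private theorem sg_le {n : ℕ} (i : Fin n × ℕ) :
    sg i ≤ (inferInstance : MeasurableSpace (Fin n → ℕ → Bool)) := by
  apply Measurable.comap_le
  exact (measurable_pi_apply i.2).comp (measurable_pi_apply i.1)

open Classical in
/-- Keep the coordinates in `T`. -/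
private noncomputable def keep {n : ℕ} (T : Set (Fin n × ℕ)) (c : Fin n → ℕ → Bool) :
    Fin n → ℕ → Bool := fun p j => if (p, j) ∈ T then c p j else false

private theorem measurable_keep {n : ℕ} (T : Set (Fin n × ℕ)) :
    Measurable[⨆ i ∈ T, sg i] (keep T) := by
  refine @measurable_pi_lambda _ _ _ (⨆ i ∈ T, sg i) _ _ fun p => ?_
  refine @measurable_pi_lambda _ _ _ (⨆ i ∈ T, sg i) _ _ fun j => ?_
  by_cases h : (p, j) ∈ T
  · have h1 : (fun c : Fin n → ℕ → Bool => keep T c p j) = fun c => c p j := by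
      funext c
      simp [keep, h]
    rw [h1]
    have h2 : Measurable[sg (p, j)] (fun c : Fin n → ℕ → Bool => c p j) :=
      comap_measurable _
    exact h2.mono (le_iSup₂ (f := fun (i : Fin n × ℕ) (_ : i ∈ T) => sg i) (p, j) h) le_rfl
  · have h1 : (fun c : Fin n → ℕ → Bool => keep T c p j) = fun _ => false := by
      funext c
      simp [keep, h]
    rw [h1]
    exact @measurable_const _ _ _ (⨆ i ∈ T, sg i) _

/-- An event depending on the coordinates outside `T` is independent of a function of the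
coordinates in `T`. -/
theorem coins_mul {n : ℕ} (T : Set (Fin n × ℕ)) (E : Set (Fin n → ℕ → Bool))
    (g : (Fin n → ℕ → Bool) → ℝ≥0∞) (hE : MeasurableSet E) (hg : Measurable g)
    (hET : ∀ c c' : Fin n → ℕ → Bool, (∀ p j, (p, j) ∉ T → c p j = c' p j) →
      (c ∈ E ↔ c' ∈ E))
    (hgT : ∀ c c' : Fin n → ℕ → Bool, (∀ p j, (p, j) ∈ T → c p j = c' p j) → g c = g c') :
    ∫⁻ c in E, g c ∂coins n = coins n E * ∫⁻ c, g c ∂coins n := by
  classical
  have hind : ProbabilityTheory.Indep (⨆ i ∈ Tᶜ, sg i) (⨆ i ∈ T, sg i) (coins n) :=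
    ProbabilityTheory.indep_iSup_of_disjoint (fun i => sg_le i) (iIndep_co (n := n)).iIndep
      disjoint_compl_left
  have hle : ∀ U : Set (Fin n × ℕ), (⨆ i ∈ U, sg i) ≤
      (inferInstance : MeasurableSpace (Fin n → ℕ → Bool)) :=
    fun U => iSup₂_le fun i _ => sg_le i
  have hg' : Measurable[⨆ i ∈ T, sg i] g := by
    have h1 : g = g ∘ keep T := by
      funext c
      refine hgT c (keep T c) fun p j h => ?_
      simp [keep, h]
    rw [h1]
    exact hg.comp (measurable_keep T)
  have hE' : MeasurableSet[⨆ i ∈ Tᶜ, sg i] E := by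
    have h1 : E = keep Tᶜ ⁻¹' E := by
      ext c
      refine hET c (keep Tᶜ c) fun p j h => ?_
      have : (p, j) ∈ Tᶜ := h
      simp only [keep]
      rw [if_pos this]
    rw [h1]
    exact measurable_keep Tᶜ hE
  have hc : Measurable[⨆ i ∈ Tᶜ, sg i] (fun _ : Fin n → ℕ → Bool => (1 : ℝ≥0∞)) :=
    measurable_const
  have hind' : ∫⁻ c, E.indicator (fun _ => (1 : ℝ≥0∞)) c * g c ∂coins n =
      (∫⁻ c, E.indicator (fun _ => (1 : ℝ≥0∞)) c ∂coins n) * ∫⁻ c, g c ∂coins n := by
    refine ProbabilityTheory.lintegral_mul_eq_lintegral_mul_lintegral_of_independent_measurableSpace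
      (hle Tᶜ) (hle T) hind ?_ hg'
    exact Measurable.indicator (m := ⨆ i ∈ Tᶜ, sg i) hc hE'
  rw [lintegral_indicator_const hE, one_mul] at hind'
  rw [← hind', ← lintegral_indicator hE]
  refine lintegral_congr fun c => ?_
  by_cases h : c ∈ E <;> simp [h]

/-- A subsequence of the coins has the law of the coins. -/
theorem coins_map {n : ℕ} (φ : ℕ → ℕ) (hφ : Function.Injective φ) :
    MeasurePreserving (fun (c : Fin n → ℕ → Bool) (p : Fin n) (j : ℕ) => c p (φ j))
      (coins n) (coins n) := by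
  have h1 : MeasurePreserving (fun (x : ℕ → Bool) (j : ℕ) => x (φ j))
      (Measure.infinitePi fun _ => (PMF.uniformOfFintype Bool).toMeasure)
      (Measure.infinitePi fun _ => (PMF.uniformOfFintype Bool).toMeasure) := by
    refine ⟨by fun_prop, ?_⟩
    exact Measure.map_infinitePi_infinitePi_of_inj
      (P := fun _ : ℕ => (PMF.uniformOfFintype Bool).toMeasure) hφ
  unfold coins
  exact measurePreserving_pi (fun _ : Fin n => _) (fun _ : Fin n => _) fun _ => h1

end Pool.Agent.A217
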