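import Pool.Agent.MP217Area.LabOne

set_option autoImplicit false

/-!
# Random labels lose few classes: all sets
-/

namespace Pool.Agent.A217

open Finset

private theorem f3_sum (n L : ℕ) (hn : n < 2 ^ (L + 1)) :
    (∑ U ∈ (univ : Finset (Finset (Fin n))).erase ∅, ((1 / 2 : ℝ) ^ (L + 5)) ^ U.card) ≤ 1 / 15 := by
  set z : ℝ := (1 / 2 : ℝ) ^ (L + 5) with hz
  have hz0 : 0 < z := by positivity
  have h1 := Fintype.sum_pow_mul_eq_add_pow (Fin n) z 1
  simp only [one_pow, mul_one, Fintype.card_fin] at h1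
  have h2 : (∑ U ∈ (univ : Finset (Finset (Fin n))).erase ∅, z ^ U.card) + z ^ (∅ : Finset (Fin n)).card
      = (z + 1) ^ n := by
    rw [← h1, sum_erase_add _ _ (mem_univ _)]
  rw [card_empty, pow_zero] at h2
  have hnz : (n : ℝ) * z ≤ 1 / 16 := by
    have hn' : (n : ℝ) ≤ 2 ^ (L + 1) := by exact_mod_cast hn.le
    calc (n : ℝ) * z ≤ 2 ^ (L + 1) * z := mul_le_mul_of_nonneg_right hn' hz0.le
      _ = 1 / 16 := by
          rw [hz, show L + 5 = (L + 1) + 4 by ring, pow_add (1 / 2 : ℝ), ← mul_assoc, ← mul_pow]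
          norm_num
  have h3 : (z + 1) ^ n ≤ 16 / 15 := by
    have ha : (z + 1) ^ n ≤ Real.exp (n * z) := by
      rw [mul_comm, Real.exp_mul, Real.rpow_natCast]
      exact pow_le_pow_left₀ (by positivity) (Real.add_one_le_exp z) n
    have hb : Real.exp (n * z) ≤ Real.exp (1 / 16) := Real.exp_le_exp.2 hnz
    have hc : (15 / 16 : ℝ) ≤ Real.exp (-(1 / 16)) := by
      have := Real.add_one_le_exp (-(1 / 16 : ℝ))
      linarith
    have hd : Real.exp (1 / 16) ≤ 16 / 15 := by
      rw [Real.exp_neg] at hc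
      have hp := Real.exp_pos (1 / 16)
      have : (15 / 16 : ℝ) * Real.exp (1 / 16) ≤ 1 := by
        calc (15 / 16 : ℝ) * Real.exp (1 / 16) ≤ (Real.exp (1 / 16))⁻¹ * Real.exp (1 / 16) :=
              mul_le_mul_of_nonneg_right hc hp.le
          _ = 1 := inv_mul_cancel₀ hp.ne'
      linarith
    exact ha.trans (hb.trans hd)
  linarith

open Classical in
/-- All sets with at most `u` elements.  PROOF: union bound with `loss_one`
(`L + 5 ≤ y * R'`): the fraction is at most `∑_{U ≠ ∅} 2 ^ (-(L+5) |U|) = (1 + 2 ^ (-(L+5))) ^ n - 1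
≤ exp (1/16) - 1 ≤ 1/8`; for `U = ∅` the condition `0 < 0` is false. -/
theorem loss_all (n A R' a y u L : ℕ) (haA : a ≤ A) (hn : n < 2 ^ (L + 1))
    (hu : 44 * u * 2 ^ y ≤ 2 ^ a) (hy : L + 5 ≤ y * R') :
    8 * ((univ : Finset (Fin (16 * R') → Fin n → Fin (2 ^ A))).filter fun g =>
      ∃ U : Finset (Fin n), U.card ≤ u ∧
        16 * ∑ r, (U.image fun x => (g r x).val % 2 ^ a).card < 15 * (16 * R' * U.card)).card ≤
      (2 ^ A) ^ (16 * R' * n) := by
  set X : ℕ := (2 ^ A) ^ (16 * R' * n) with hX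
  let Bad : Finset (Fin n) → Finset (Fin (16 * R') → Fin n → Fin (2 ^ A)) := fun U =>
    univ.filter fun g => 16 * ∑ r, (U.image fun x => (g r x).val % 2 ^ a).card < 15 * (16 * R' * U.card)
  let F : Finset (Finset (Fin n)) := univ.filter fun U => U ≠ ∅ ∧ U.card ≤ u
  have hcov : ((univ : Finset (Fin (16 * R') → Fin n → Fin (2 ^ A))).filter fun g =>
      ∃ U : Finset (Fin n), U.card ≤ u ∧
        16 * ∑ r, (U.image fun x => (g r x).val % 2 ^ a).card < 15 * (16 * R' * U.card)) ⊆ F.biUnion Bad := by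
    intro g hg
    rw [mem_filter] at hg
    obtain ⟨-, U, hUu, hU⟩ := hg
    rw [mem_biUnion]
    refine ⟨U, ?_, ?_⟩
    · simp only [F, mem_filter, mem_univ, true_and]
      refine ⟨?_, hUu⟩
      rintro rfl
      simp at hU
    · simp only [Bad, mem_filter, mem_univ, true_and]
      exact hU
  have hbad : ∀ U ∈ F, ((Bad U).card : ℝ) ≤ X * ((1 / 2 : ℝ) ^ (L + 5)) ^ U.card := by
    intro U hU
    simp only [F, mem_filter, mem_univ, true_and] at hU
    have hUa : 44 * U.card * 2 ^ y ≤ 2 ^ a :=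
      (Nat.mul_le_mul_right _ (Nat.mul_le_mul_left _ hU.2)).trans hu
    have h1 := loss_one n A R' a y haA U hUa
    have h2 : (L + 5) * U.card ≤ y * (R' * U.card) := by
      rw [← mul_assoc]; exact Nat.mul_le_mul_right _ hy
    have h3 : (Bad U).card * 2 ^ ((L + 5) * U.card) ≤ X :=
      (Nat.mul_le_mul_left _ (Nat.pow_le_pow_right (by norm_num) h2)).trans h1
    have h4 : ((Bad U).card : ℝ) * 2 ^ ((L + 5) * U.card) ≤ X := by exact_mod_cast h3
    rw [← pow_mul, one_div, inv_pow, ← div_eq_mul_inv, le_div_iff₀ (by positivity)]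
    exact h4
  have hfin : (((univ : Finset (Fin (16 * R') → Fin n → Fin (2 ^ A))).filter fun g =>
      ∃ U : Finset (Fin n), U.card ≤ u ∧
        16 * ∑ r, (U.image fun x => (g r x).val % 2 ^ a).card < 15 * (16 * R' * U.card)).card : ℝ) ≤
      X * (1 / 15) := by
    calc _ ≤ ((∑ U ∈ F, (Bad U).card : ℕ) : ℝ) := by
          exact_mod_cast (card_le_card hcov).trans card_biUnion_le
      _ = ∑ U ∈ F, ((Bad U).card : ℝ) := by push_cast; rfl
      _ ≤ ∑ U ∈ F, X * ((1 / 2 : ℝ) ^ (L + 5)) ^ U.card := sum_le_sum hbad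
      _ ≤ ∑ U ∈ (univ : Finset (Finset (Fin n))).erase ∅,
            X * ((1 / 2 : ℝ) ^ (L + 5)) ^ U.card := by
          refine sum_le_sum_of_subset_of_nonneg ?_ fun U _ _ => by positivity
          intro U hU
          simp only [F, mem_filter, mem_univ, true_and] at hU
          exact mem_erase.2 ⟨hU.1, mem_univ _⟩
      _ = X * ∑ U ∈ (univ : Finset (Finset (Fin n))).erase ∅,
            ((1 / 2 : ℝ) ^ (L + 5)) ^ U.card := by rw [mul_sum]
      _ ≤ X * (1 / 15) := mul_le_mul_of_nonneg_left (f3_sum n L hn) (by positivity)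
  have hX0 : (0 : ℝ) ≤ X := by positivity
  have : (8 : ℝ) * (((univ : Finset (Fin (16 * R') → Fin n → Fin (2 ^ A))).filter fun g =>
      ∃ U : Finset (Fin n), U.card ≤ u ∧
        16 * ∑ r, (U.image fun x => (g r x).val % 2 ^ a).card < 15 * (16 * R' * U.card)).card : ℝ) ≤ X := by
    linarith
  exact_mod_cast this

end Pool.Agent.A217
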