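import Pool.Agent.MP217Area.LabMom

set_option autoImplicit false

/-!
# Degrees
-/

namespace Pool.Agent.A217

open Finset

/-- The pointwise bound behind Markov. -/
private theorem deg_one_pt (z : ℝ) (hz : 0 ≤ z) (S K : ℕ) (h : 2 * z + K < S) :
    Real.exp z * (2 : ℝ) ^ K ≤ (2 : ℝ) ^ S := by
  have hlog : (1 : ℝ) / 2 < Real.log 2 := by
    have := Real.log_two_gt_d9
    linarith
  have h2 : ∀ m : ℕ, (2 : ℝ) ^ m = Real.exp (m * Real.log 2) := by
    intro m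
    rw [Real.exp_nat_mul, Real.exp_log (by norm_num)]
  rw [h2 K, h2 S, ← Real.exp_add]
  apply Real.exp_le_exp.mpr
  have h3 : 2 * z ≤ (S : ℝ) - K := by linarith
  have h4 : z ≤ ((S : ℝ) - K) * Real.log 2 := by nlinarith
  nlinarith

open Classical in
/-- PROOF: Markov with `deg_moment`: on the set in question
`2 ^ (∑ ..) ≥ 2 ^ (2 R n / 2 ^ b + 8 (L + 1))` (real powers), and `exp z ≤ 4 ^ z`. -/
theorem deg_one (n A R b L : ℕ) (hb : b ≤ A) (x : Fin n) :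
    ((univ : Finset (Fin R → Fin n → Fin (2 ^ A))).filter fun g =>
      2 * (R * n) + 2 ^ b * (8 * (L + 1)) <
        2 ^ b * ∑ r, (univ.filter fun y => y ≠ x ∧ (g r y).val % 2 ^ b = (g r x).val % 2 ^ b).card).card *
      2 ^ (8 * (L + 1)) ≤ (2 ^ A) ^ (R * n) := by
  have hm := deg_moment n A R b hb x
  set z : ℝ := (R : ℝ) * n / 2 ^ b with hzdef
  have hz : 0 ≤ z := by positivity
  set B : Finset (Fin R → Fin n → Fin (2 ^ A)) := univ.filter fun g =>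
      2 * (R * n) + 2 ^ b * (8 * (L + 1)) <
        2 ^ b * ∑ r, (univ.filter fun y => y ≠ x ∧ (g r y).val % 2 ^ b = (g r x).val % 2 ^ b).card
    with hB
  have hpt : ∀ g ∈ B, Real.exp z * (2 : ℝ) ^ (8 * (L + 1)) ≤
      (2 : ℝ) ^ (∑ r, (univ.filter fun y => y ≠ x ∧
        (g r y).val % 2 ^ b = (g r x).val % 2 ^ b).card) := by
    intro g hg
    rw [hB, mem_filter] at hg
    apply deg_one_pt z hz
    have h1 := hg.2
    generalize (∑ r, (univ.filter fun y => y ≠ x ∧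
        (g r y).val % 2 ^ b = (g r x).val % 2 ^ b).card) = S at h1 ⊢
    have h2 : (2 : ℝ) * (R * n) + 2 ^ b * ((8 * (L + 1) : ℕ) : ℝ) < 2 ^ b * (S : ℝ) := by
      exact_mod_cast h1
    have hbp : (0 : ℝ) < 2 ^ b := by positivity
    have h3 : (R : ℝ) * n = z * 2 ^ b := by
      rw [hzdef, div_mul_cancel₀ _ hbp.ne']
    rw [h3] at h2
    have h4 : (2 : ℝ) ^ b * (2 * z + ((8 * (L + 1) : ℕ) : ℝ)) < 2 ^ b * (S : ℝ) := by
      linarith
    exact lt_of_mul_lt_mul_left h4 hbp.le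
  have hsum : (B.card : ℝ) * (Real.exp z * (2 : ℝ) ^ (8 * (L + 1))) ≤
      ((2 : ℝ) ^ A) ^ (R * n) * Real.exp z := by
    calc (B.card : ℝ) * (Real.exp z * (2 : ℝ) ^ (8 * (L + 1)))
        = ∑ _g ∈ B, Real.exp z * (2 : ℝ) ^ (8 * (L + 1)) := by
          rw [sum_const, nsmul_eq_mul]
      _ ≤ ∑ g ∈ B, (2 : ℝ) ^ (∑ r, (univ.filter fun y => y ≠ x ∧
            (g r y).val % 2 ^ b = (g r x).val % 2 ^ b).card) := sum_le_sum hpt
      _ ≤ ∑ g : Fin R → Fin n → Fin (2 ^ A), (2 : ℝ) ^ (∑ r, (univ.filter fun y => y ≠ x ∧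
            (g r y).val % 2 ^ b = (g r x).val % 2 ^ b).card) :=
          sum_le_sum_of_subset_of_nonneg (subset_univ _) (fun _ _ _ => by positivity)
      _ ≤ _ := hm
  have hfin : (B.card : ℝ) * (2 : ℝ) ^ (8 * (L + 1)) ≤ ((2 : ℝ) ^ A) ^ (R * n) := by
    have he : 0 < Real.exp z := Real.exp_pos z
    have h5 : ((B.card : ℝ) * (2 : ℝ) ^ (8 * (L + 1))) * Real.exp z ≤
        ((2 : ℝ) ^ A) ^ (R * n) * Real.exp z := by
      calc ((B.card : ℝ) * (2 : ℝ) ^ (8 * (L + 1))) * Real.exp z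
          = (B.card : ℝ) * (Real.exp z * (2 : ℝ) ^ (8 * (L + 1))) := by ring
        _ ≤ _ := hsum
    exact le_of_mul_le_mul_right h5 he
  exact_mod_cast hfin

end Pool.Agent.A217
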