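import Pool.Agent.MP217Area.LabAll
import Pool.Agent.MP217Area.LabDeg

set_option autoImplicit false

/-!
# Existence of labels
-/

namespace Pool.Agent.A217

open Finset

private theorem LabEx_count {α : Type*} [Fintype α] [DecidableEq α] (T n L I : ℕ)
    (hT : Fintype.card α = T) (hT0 : 0 < T) (hn : n < 2 ^ (L + 1))
    (hI : I + 1 ≤ 2 ^ (6 * (L + 1))) (B : Finset α) (hB : 8 * B.card ≤ T)
    (D : Fin n × Fin (I + 1) → Finset α)
    (hD : ∀ q, (D q).card * 2 ^ (8 * (L + 1)) ≤ T) :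
    ∃ g : α, g ∉ B ∧ ∀ q, g ∉ D q := by
  by_contra hcon
  push Not at hcon
  have hcov : (univ : Finset α) ⊆ B ∪ univ.biUnion D := by
    intro g _
    by_cases hg : g ∈ B
    · exact mem_union_left _ hg
    · obtain ⟨q, hq⟩ := hcon g hg
      exact mem_union_right _ (mem_biUnion.2 ⟨q, mem_univ _, hq⟩)
  have h1 : T ≤ B.card + ∑ q, (D q).card := by
    calc T = (univ : Finset α).card := by rw [← hT, Finset.card_univ]
      _ ≤ (B ∪ univ.biUnion D).card := card_le_card hcov
      _ ≤ B.card + (univ.biUnion D).card := card_union_le _ _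
      _ ≤ B.card + ∑ q, (D q).card := Nat.add_le_add_left card_biUnion_le _
  have h2 : (∑ q, (D q).card) * 2 ^ (8 * (L + 1)) ≤ n * (I + 1) * T := by
    rw [sum_mul]
    calc ∑ q, (D q).card * 2 ^ (8 * (L + 1)) ≤ ∑ _q : Fin n × Fin (I + 1), T :=
          sum_le_sum fun q _ => hD q
      _ = n * (I + 1) * T := by
          rw [sum_const, Finset.card_univ, Fintype.card_prod, Fintype.card_fin, Fintype.card_fin,
            smul_eq_mul]
  have h3 : n * (I + 1) ≤ 2 ^ (7 * (L + 1)) := by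
    calc n * (I + 1) ≤ 2 ^ (L + 1) * 2 ^ (6 * (L + 1)) := Nat.mul_le_mul hn.le hI
      _ = 2 ^ (7 * (L + 1)) := by
          rw [← pow_add]
          congr 1
          ring
  have h4 : (∑ q, (D q).card) * 2 ≤ T := by
    have h5 : (∑ q, (D q).card) * 2 * 2 ^ (7 * (L + 1)) ≤ T * 2 ^ (7 * (L + 1)) := by
      calc (∑ q, (D q).card) * 2 * 2 ^ (7 * (L + 1))
          = (∑ q, (D q).card) * 2 ^ (7 * (L + 1) + 1) := by rw [pow_succ]; ring
        _ ≤ (∑ q, (D q).card) * 2 ^ (8 * (L + 1)) := by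
            refine Nat.mul_le_mul_left _ (Nat.pow_le_pow_right (by norm_num) (by omega))
        _ ≤ n * (I + 1) * T := h2
        _ ≤ 2 ^ (7 * (L + 1)) * T := Nat.mul_le_mul_right _ h3
        _ = T * 2 ^ (7 * (L + 1)) := Nat.mul_comm _ _
    exact Nat.le_of_mul_le_mul_right h5 (by positivity)
  omega

/-- PROOF: `loss_all` and `deg_one` for all `x` and `i ≤ I` with `b = a + i`, `A = a + I`: the bad
fraction is at most `1/8 + n (I + 1) / 2 ^ (8 (L + 1)) < 1`.  Extend `g` by `0` to all `r`. -/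
theorem exists_design (n L R' a y u I : ℕ) (hn : n < 2 ^ (L + 1))
    (hu : 44 * u * 2 ^ y ≤ 2 ^ a) (hy : L + 5 ≤ y * R') (hI : I + 1 ≤ 2 ^ (6 * (L + 1))) :
    ∃ g : ℕ → Fin n → ℕ,
      (∀ U : Finset (Fin n), U.card ≤ u →
        15 * (16 * R' * U.card) ≤
          16 * ∑ r ∈ range (16 * R'), (U.image fun x => g r x % 2 ^ a).card) ∧
      (∀ x, ∀ i ≤ I, 2 ^ (a + i) * ∑ r ∈ range (16 * R'),
          (univ.filter fun y => y ≠ x ∧ g r y % 2 ^ (a + i) = g r x % 2 ^ (a + i)).card ≤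
        2 * (16 * R' * n) + 2 ^ (a + i) * (8 * (L + 1))) := by
  classical
  have hcard : Fintype.card (Fin (16 * R') → Fin n → Fin (2 ^ (a + I))) =
      (2 ^ (a + I)) ^ (16 * R' * n) := by
    rw [Fintype.card_fun, Fintype.card_fun, Fintype.card_fin, Fintype.card_fin, Fintype.card_fin,
      ← pow_mul, Nat.mul_comm n]
  obtain ⟨g, hg1, hg2⟩ := LabEx_count ((2 ^ (a + I)) ^ (16 * R' * n)) n L I hcard (by positivity)
    hn hI _ (loss_all n (a + I) R' a y u L (by omega) hn hu hy)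
    (fun q => (univ : Finset (Fin (16 * R') → Fin n → Fin (2 ^ (a + I)))).filter fun g =>
      2 * (16 * R' * n) + 2 ^ (a + q.2.val) * (8 * (L + 1)) <
        2 ^ (a + q.2.val) * ∑ r, (univ.filter fun y => y ≠ q.1 ∧
          (g r y).val % 2 ^ (a + q.2.val) = (g r q.1).val % 2 ^ (a + q.2.val)).card)
    (fun q => deg_one n (a + I) (16 * R') (a + q.2.val) L (by have := q.2.isLt; omega) q.1)
  refine ⟨fun r x => if h : r < 16 * R' then (g ⟨r, h⟩ x).val else 0, ?_, ?_⟩
  · intro U hU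
    have h1 : ¬ 16 * ∑ r, (U.image fun x => (g r x).val % 2 ^ a).card <
        15 * (16 * R' * U.card) := by
      intro hlt
      exact hg1 (mem_filter.2 ⟨mem_univ _, U, hU, hlt⟩)
    have h2 : ∑ r ∈ range (16 * R'), (U.image fun x =>
        (if h : r < 16 * R' then (g ⟨r, h⟩ x).val else 0) % 2 ^ a).card =
        ∑ r, (U.image fun x => (g r x).val % 2 ^ a).card := by
      rw [Finset.sum_range]
      refine sum_congr rfl fun r _ => ?_
      simp only [r.isLt, dif_pos]
    rw [h2]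
    exact not_lt.1 h1
  · intro x i hi
    have h1 := hg2 (x, ⟨i, by omega⟩)
    simp only [mem_filter, mem_univ, true_and, not_lt] at h1
    have h2 : ∑ r ∈ range (16 * R'), (univ.filter fun y => y ≠ x ∧
        (if h : r < 16 * R' then (g ⟨r, h⟩ y).val else 0) % 2 ^ (a + i) =
          (if h : r < 16 * R' then (g ⟨r, h⟩ x).val else 0) % 2 ^ (a + i)).card =
        ∑ r, (univ.filter fun y => y ≠ x ∧
          (g r y).val % 2 ^ (a + i) = (g r x).val % 2 ^ (a + i)).card := by
      rw [Finset.sum_range]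
      refine sum_congr rfl fun r _ => ?_
      simp only [r.isLt, dif_pos]
    rw [h2]
    exact h1

end Pool.Agent.A217
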