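import Mathlib

set_option autoImplicit false

/-!
# Prescribed congruences
-/

namespace Pool.Agent.A217

open Finset

/-- the value with a new residue stays below `2 ^ A` -/
private theorem f1_lt {A a f z : ℕ} (haA : a ≤ A) (hf : f < 2 ^ A) (hz : z < 2 ^ a) :
    2 ^ a * (f / 2 ^ a) + z < 2 ^ A := by
  have hA : 2 ^ A = 2 ^ a * 2 ^ (A - a) := by rw [← pow_add]; congr 1; omega
  have h1 : f / 2 ^ a < 2 ^ (A - a) := by
    rw [Nat.div_lt_iff_lt_mul (by positivity), mul_comm, ← hA]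
    exact hf
  calc 2 ^ a * (f / 2 ^ a) + z < 2 ^ a * (f / 2 ^ a) + 2 ^ a := by omega
    _ = 2 ^ a * (f / 2 ^ a + 1) := by ring
    _ ≤ 2 ^ a * 2 ^ (A - a) := Nat.mul_le_mul_left _ h1
    _ = 2 ^ A := hA.symm

/-- Prescribed congruences.  PROOF: induction on `C`.  For `c ∉ C`, the map
`(f, z) ↦ Function.update f c (f c - f c % 2 ^ a + z)`, `z < 2 ^ a`, is injective from
(functions that satisfy the congruences for `insert c C`) × `Fin (2 ^ a)` to the functions that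
satisfy them for `C` (`w` has no value in `insert c C`, and `f c % 2 ^ a = f (w c) % 2 ^ a` is
recovered from the other coordinates). -/
theorem fix_count {ι : Type*} [Fintype ι] [DecidableEq ι] (A a : ℕ) (haA : a ≤ A)
    (C : Finset ι) (w : ι → ι) (hw : ∀ c ∈ C, w c ∉ C) :
    ((univ : Finset (ι → Fin (2 ^ A))).filter fun f =>
      ∀ c ∈ C, (f c).val % 2 ^ a = (f (w c)).val % 2 ^ a).card * 2 ^ (a * C.card) ≤
      (2 ^ A) ^ Fintype.card ι := by
  set F := ((univ : Finset (ι → Fin (2 ^ A))).filter fun f =>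
      ∀ c ∈ C, (f c).val % 2 ^ a = (f (w c)).val % 2 ^ a) with hF
  have hc1 : (F ×ˢ (univ : Finset ({x // x ∈ C} → Fin (2 ^ a)))).card =
      F.card * 2 ^ (a * C.card) := by
    rw [Finset.card_product, Finset.card_univ, Fintype.card_fun, Fintype.card_fin,
      Fintype.card_coe, ← pow_mul]
  have hc2 : (univ : Finset (ι → Fin (2 ^ A))).card = (2 ^ A) ^ Fintype.card ι := by
    rw [Finset.card_univ, Fintype.card_fun, Fintype.card_fin]
  rw [← hc1, ← hc2]
  refine Finset.card_le_card_of_injOn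
    (fun x : (ι → Fin (2 ^ A)) × ({x // x ∈ C} → Fin (2 ^ a)) => fun c =>
      if h : c ∈ C then
        (⟨2 ^ a * ((x.1 c).val / 2 ^ a) + (x.2 ⟨c, h⟩).val,
          f1_lt haA (x.1 c).isLt (x.2 ⟨c, h⟩).isLt⟩ : Fin (2 ^ A))
      else x.1 c) (fun _ _ => Finset.mem_coe.mpr (Finset.mem_univ _)) ?_
  rintro ⟨f, z⟩ hx ⟨f', z'⟩ hx' heq
  have hf : ∀ c ∈ C, (f c).val % 2 ^ a = (f (w c)).val % 2 ^ a :=
    (Finset.mem_filter.mp (Finset.mem_product.mp (Finset.mem_coe.mp hx)).1).2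
  have hf' : ∀ c ∈ C, (f' c).val % 2 ^ a = (f' (w c)).val % 2 ^ a :=
    (Finset.mem_filter.mp (Finset.mem_product.mp (Finset.mem_coe.mp hx')).1).2
  have hout : ∀ c, c ∉ C → f c = f' c := by
    intro c hc
    have := congrFun heq c
    simpa [hc] using this
  have hin : ∀ c (hc : c ∈ C), 2 ^ a * ((f c).val / 2 ^ a) + (z ⟨c, hc⟩).val =
      2 ^ a * ((f' c).val / 2 ^ a) + (z' ⟨c, hc⟩).val := by
    intro c hc
    have := congrArg Fin.val (congrFun heq c)
    simpa [hc] using this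
  have hpos : 0 < 2 ^ a := by positivity
  have hq : ∀ c (hc : c ∈ C), (f c).val / 2 ^ a = (f' c).val / 2 ^ a ∧
      (z ⟨c, hc⟩).val = (z' ⟨c, hc⟩).val := by
    intro c hc
    have h := hin c hc
    have h1 := congrArg (· / 2 ^ a) h
    have h2 := congrArg (· % 2 ^ a) h
    simp only [Nat.mul_add_div hpos, Nat.mul_add_mod,
      Nat.div_eq_of_lt (z ⟨c, hc⟩).isLt, Nat.div_eq_of_lt (z' ⟨c, hc⟩).isLt,
      Nat.mod_eq_of_lt (z ⟨c, hc⟩).isLt, Nat.mod_eq_of_lt (z' ⟨c, hc⟩).isLt, add_zero] at h1 h2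
    exact ⟨h1, h2⟩
  refine Prod.ext ?_ ?_
  · funext c
    by_cases hc : c ∈ C
    · have h1 := (hq c hc).1
      have h2 : (f c).val % 2 ^ a = (f' c).val % 2 ^ a := by
        rw [hf c hc, hf' c hc, hout (w c) (hw c hc)]
      apply Fin.ext
      rw [← Nat.div_add_mod (f c).val (2 ^ a), ← Nat.div_add_mod (f' c).val (2 ^ a), h1, h2]
    · exact hout c hc
  · funext c
    exact Fin.ext (hq c.1 c.2).2

/-- `44 > 16 e`.  PROOF: `choose ≤ (16 m) ^ m / m!` and `m ^ m / m! ≤ exp m`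
(`Real.pow_div_factorial_le_exp`), `exp 1 < 2.7183`. -/
theorem choose_le (m : ℕ) : (16 * m).choose m ≤ 44 ^ m := by
  have h1 : (((16 * m).choose m : ℕ) : ℝ) ≤ ((16 * m : ℕ) : ℝ) ^ m / (m.factorial : ℝ) :=
    Nat.choose_le_pow_div m (16 * m)
  have h2 : ((m : ℝ)) ^ m / (m.factorial : ℝ) ≤ Real.exp m :=
    Real.pow_div_factorial_le_exp m (Nat.cast_nonneg m) m
  have h3 : Real.exp m = Real.exp 1 ^ m := by
    rw [← Real.exp_nat_mul, mul_one]
  have h4 : ((16 * m : ℕ) : ℝ) ^ m / (m.factorial : ℝ) =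
      16 ^ m * ((m : ℝ) ^ m / (m.factorial : ℝ)) := by
    push_cast
    rw [mul_pow]
    ring
  have h5 : (16 : ℝ) * Real.exp 1 ≤ 44 := by
    have := Real.exp_one_lt_d9
    linarith
  have h6 : (((16 * m).choose m : ℕ) : ℝ) ≤ 44 ^ m := by
    calc (((16 * m).choose m : ℕ) : ℝ) ≤ 16 ^ m * ((m : ℝ) ^ m / (m.factorial : ℝ)) := by
          rw [← h4]; exact h1
      _ ≤ 16 ^ m * Real.exp 1 ^ m := by
          rw [← h3]
          exact mul_le_mul_of_nonneg_left h2 (by positivity)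
      _ = (16 * Real.exp 1) ^ m := by rw [mul_pow]
      _ ≤ 44 ^ m := pow_le_pow_left₀ (by positivity) h5 m
  exact_mod_cast h6

end Pool.Agent.A217
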