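import Mathlib

set_option autoImplicit false

/-!
# The exponential moment of the degrees
-/

namespace Pool.Agent.A217

open Finset

private theorem f4_count (A b : ℕ) (hb : b ≤ A) (c : ℕ) :
    (univ.filter fun v : Fin (2 ^ A) => v.val % 2 ^ b = c % 2 ^ b).card ≤ 2 ^ (A - b) := by
  have hb0 : 0 < 2 ^ b := Nat.two_pow_pos b
  rw [← card_range (2 ^ (A - b))]
  refine card_le_card_of_injOn (fun v => v.val / 2 ^ b) ?_ ?_
  · intro v _
    rw [mem_coe, mem_range, Nat.div_lt_iff_lt_mul hb0, ← pow_add, Nat.sub_add_cancel hb]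
    exact v.isLt
  · intro v hv w hw hvw
    rw [mem_coe, mem_filter] at hv hw
    simp only at hvw
    apply Fin.ext
    rw [← Nat.div_add_mod v.val (2 ^ b), ← Nat.div_add_mod w.val (2 ^ b), hvw, hv.2, hw.2]

private theorem f4_one (A b : ℕ) (hb : b ≤ A) (c : ℕ) :
    (∑ v : Fin (2 ^ A), (if v.val % 2 ^ b = c % 2 ^ b then (2 : ℝ) else 1)) ≤
      (2 : ℝ) ^ A * Real.exp (1 / 2 ^ b) := by
  have h1 : ∀ v : Fin (2 ^ A), (if v.val % 2 ^ b = c % 2 ^ b then (2 : ℝ) else 1) =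
      1 + (if v.val % 2 ^ b = c % 2 ^ b then (1 : ℝ) else 0) := by
    intro v
    split_ifs <;> norm_num
  rw [sum_congr rfl fun v _ => h1 v, sum_add_distrib, sum_boole]
  simp only [sum_const, card_univ, Fintype.card_fin, nsmul_eq_mul, mul_one, Nat.cast_pow,
    Nat.cast_ofNat]
  have h2 : ((univ.filter fun v : Fin (2 ^ A) => v.val % 2 ^ b = c % 2 ^ b).card : ℝ) ≤
      (2 : ℝ) ^ A * (1 / 2 ^ b) := by
    have h3 := f4_count A b hb c
    have h4 : ((univ.filter fun v : Fin (2 ^ A) => v.val % 2 ^ b = c % 2 ^ b).card : ℝ) ≤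
        (2 : ℝ) ^ (A - b) := by
      exact_mod_cast h3
    have h5 : (2 : ℝ) ^ (A - b) = (2 : ℝ) ^ A * (1 / 2 ^ b) := by
      rw [mul_one_div, eq_div_iff (by positivity), ← pow_add, Nat.sub_add_cancel hb]
    rw [← h5]
    exact h4
  have h6 := Real.add_one_le_exp ((1 : ℝ) / 2 ^ b)
  have h7 : (0 : ℝ) < (2 : ℝ) ^ A := by positivity
  nlinarith

private theorem f4_S (n A b : ℕ) (hb : b ≤ A) (x : Fin n) :
    (∑ h : Fin n → Fin (2 ^ A),
      (2 : ℝ) ^ (univ.filter fun y => y ≠ x ∧ (h y).val % 2 ^ b = (h x).val % 2 ^ b).card) ≤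
      ((2 : ℝ) ^ A) ^ n * Real.exp (n / 2 ^ b) := by
  -- the factors
  let ps : Fin (2 ^ A) → Fin n → Fin (2 ^ A) → ℝ := fun c y v =>
    if y = x then (if v = c then 1 else 0) else (if v.val % 2 ^ b = c.val % 2 ^ b then 2 else 1)
  have h1 : ∀ h : Fin n → Fin (2 ^ A),
      (2 : ℝ) ^ (univ.filter fun y => y ≠ x ∧ (h y).val % 2 ^ b = (h x).val % 2 ^ b).card =
        ∑ c, ∏ y, ps c y (h y) := by
    intro h
    rw [sum_eq_single (h x)]
    · rw [← prod_const, prod_filter]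
      refine prod_congr rfl fun y _ => ?_
      by_cases hy : y = x
      · subst hy
        simp [ps]
      · simp [ps, hy]
    · intro c _ hc
      refine prod_eq_zero (mem_univ x) ?_
      simp [ps, hc.symm]
    · intro h'
      exact absurd (mem_univ _) h'
  rw [sum_congr rfl fun h _ => h1 h, sum_comm]
  have h2 : ∀ c : Fin (2 ^ A), ∑ h : Fin n → Fin (2 ^ A), ∏ y, ps c y (h y) =
      ∏ y, ∑ v, ps c y v := by
    intro c
    rw [prod_univ_sum, Fintype.piFinset_univ]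
  rw [sum_congr rfl fun c _ => h2 c]
  have h3 : ∀ c : Fin (2 ^ A), ∏ y, ∑ v, ps c y v ≤
      ((2 : ℝ) ^ A * Real.exp (1 / 2 ^ b)) ^ (n - 1) := by
    intro c
    rw [← mul_prod_erase univ _ (mem_univ x)]
    have h4 : ∑ v, ps c x v = 1 := by
      simp [ps]
    rw [h4, one_mul]
    have h5 : ((univ : Finset (Fin n)).erase x).card = n - 1 := by
      rw [card_erase_of_mem (mem_univ x), card_univ, Fintype.card_fin]
    rw [← h5, ← prod_const]
    refine prod_le_prod ?_ ?_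
    · intro y hy
      refine sum_nonneg fun v _ => ?_
      simp only [ps]
      split_ifs <;> norm_num
    · intro y hy
      have hy' : y ≠ x := ne_of_mem_erase hy
      have h6 := f4_one A b hb c.val
      simpa [ps, hy'] using h6
  have h4 : ∑ c : Fin (2 ^ A), ∏ y, ∑ v, ps c y v ≤
      (2 : ℝ) ^ A * ((2 : ℝ) ^ A * Real.exp (1 / 2 ^ b)) ^ (n - 1) := by
    refine (sum_le_sum fun c _ => h3 c).trans ?_
    simp
  refine h4.trans ?_
  have hn : 1 ≤ n := by
    have := x.isLt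
    omega
  obtain ⟨m, rfl⟩ : ∃ m, n = m + 1 := ⟨n - 1, by omega⟩
  rw [Nat.add_sub_cancel, mul_pow, pow_succ ((2 : ℝ) ^ A) m, ← Real.exp_nat_mul]
  have h5 : Real.exp ((m : ℝ) * (1 / 2 ^ b)) ≤ Real.exp (((m + 1 : ℕ) : ℝ) / 2 ^ b) := by
    apply Real.exp_le_exp.2
    rw [mul_one_div]
    refine div_le_div_of_nonneg_right ?_ (by positivity)
    push_cast
    linarith
  calc (2 : ℝ) ^ A * (((2 : ℝ) ^ A) ^ m * Real.exp ((m : ℝ) * (1 / 2 ^ b)))
      = (((2 : ℝ) ^ A) ^ m * (2 : ℝ) ^ A) * Real.exp ((m : ℝ) * (1 / 2 ^ b)) := by ring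
    _ ≤ (((2 : ℝ) ^ A) ^ m * (2 : ℝ) ^ A) * Real.exp (((m + 1 : ℕ) : ℝ) / 2 ^ b) :=
        mul_le_mul_of_nonneg_left h5 (by positivity)

/-- The moment.  PROOF: the summand is a product over `r` of products over `y ≠ x` of
`2 ^ [g r y ≡ g r x]`; for a fixed value `c = g r x` the sum over `g r y` is `2 ^ A + 2 ^ (A - b)`.
So the sum is exactly `(2 ^ A * (2 ^ A + 2 ^ (A - b)) ^ (n - 1)) ^ R`; `1 + z ≤ exp z`. -/
theorem deg_moment (n A R b : ℕ) (hb : b ≤ A) (x : Fin n) :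
    (∑ g : Fin R → Fin n → Fin (2 ^ A),
      (2 : ℝ) ^ (∑ r, (univ.filter fun y => y ≠ x ∧ (g r y).val % 2 ^ b = (g r x).val % 2 ^ b).card)) ≤
      ((2 : ℝ) ^ A) ^ (R * n) * Real.exp (R * n / 2 ^ b) := by
  have h1 : ∀ g : Fin R → Fin n → Fin (2 ^ A),
      (2 : ℝ) ^ (∑ r, (univ.filter fun y => y ≠ x ∧
        (g r y).val % 2 ^ b = (g r x).val % 2 ^ b).card) =
      ∏ r, (2 : ℝ) ^ (univ.filter fun y => y ≠ x ∧
        (g r y).val % 2 ^ b = (g r x).val % 2 ^ b).card := by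
    intro g
    rw [prod_pow_eq_pow_sum]
  rw [sum_congr rfl fun g _ => h1 g]
  have h2 := Finset.prod_univ_sum (ι := Fin R) (fun _ => (univ : Finset (Fin n → Fin (2 ^ A))))
    (fun _ h => (2 : ℝ) ^ (univ.filter fun y => y ≠ x ∧
        (h y).val % 2 ^ b = (h x).val % 2 ^ b).card)
  rw [Fintype.piFinset_univ] at h2
  rw [← h2, prod_const, card_univ, Fintype.card_fin]
  have h3 := f4_S n A b hb x
  have h4 := pow_le_pow_left₀ (sum_nonneg fun h _ => by positivity) h3 R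
  refine h4.trans (le_of_eq ?_)
  rw [mul_pow, ← pow_mul, ← Real.exp_nat_mul, Nat.mul_comm n R]
  congr 2
  ring

end Pool.Agent.A217
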