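import Pool.Agent.MP217Area.LabFix

set_option autoImplicit false

/-!
# Random labels lose few classes: one set
-/

namespace Pool.Agent.A217

open Finset

open Classical in
/-- the pairs `(r, x)`, `x ∈ U`, such that a smaller element of `U` is in the class of `x` for
label `r` -/
private noncomputable def f2_bad {n R : ℕ} (f : Fin R → Fin n → ℕ) (U : Finset (Fin n)) :
    Finset (Fin R × Fin n) :=
  (univ ×ˢ U).filter fun c => ∃ x' ∈ U, x' < c.2 ∧ f c.1 x' = f c.1 c.2

/-- the number of pairs that are not bad is at most the number of classes -/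
private theorem f2_count {n R : ℕ} (f : Fin R → Fin n → ℕ) (U : Finset (Fin n)) :
    R * U.card ≤ (f2_bad f U).card + ∑ r, (U.image fun x => f r x).card := by
  classical
  have h1 : (f2_bad f U).card +
      (((univ : Finset (Fin R)) ×ˢ U).filter fun c =>
        ¬ ∃ x' ∈ U, x' < c.2 ∧ f c.1 x' = f c.1 c.2).card = R * U.card := by
    unfold f2_bad
    rw [Finset.card_filter_add_card_filter_not, Finset.card_product, Finset.card_univ,
      Fintype.card_fin]
  have h2 : (((univ : Finset (Fin R)) ×ˢ U).filter fun c =>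
        ¬ ∃ x' ∈ U, x' < c.2 ∧ f c.1 x' = f c.1 c.2).card ≤
      ∑ r, (U.image fun x => f r x).card := by
    rw [← Finset.card_sigma]
    refine Finset.card_le_card_of_injOn (fun c => ⟨c.1, f c.1 c.2⟩) ?_ ?_
    · intro c hc
      have hc' := Finset.mem_filter.mp (Finset.mem_coe.mp hc)
      have hcU := (Finset.mem_product.mp hc'.1).2
      exact Finset.mem_coe.mpr (Finset.mem_sigma.mpr
        ⟨Finset.mem_univ _, Finset.mem_image_of_mem _ hcU⟩)
    · rintro ⟨r, x⟩ hc ⟨r', x'⟩ hc' heq
      have hc1 := Finset.mem_filter.mp (Finset.mem_coe.mp hc)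
      have hc1' := Finset.mem_filter.mp (Finset.mem_coe.mp hc')
      have hxU := (Finset.mem_product.mp hc1.1).2
      have hxU' := (Finset.mem_product.mp hc1'.1).2
      have hr : r = r' := congrArg Sigma.fst heq
      subst hr
      have hf : f r x = f r x' := eq_of_heq (Sigma.mk.inj heq).2
      rcases lt_trichotomy x x' with h | h | h
      · exact absurd ⟨x, hxU, h, hf⟩ hc1'.2
      · rw [h]
      · exact absurd ⟨x', hxU', h, hf.symm⟩ hc1.2
  omega

/-- each pair has a pair in the same class that is not bad -/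
private theorem f2_min {n R : ℕ} (f : Fin R → Fin n → ℕ) (U : Finset (Fin n)) (r : Fin R)
    {x : Fin n} (hx : x ∈ U) : ∃ x' ∈ U, f r x = f r x' ∧ (r, x') ∉ f2_bad f U := by
  classical
  have hne : (U.filter fun x' => f r x = f r x').Nonempty :=
    ⟨x, Finset.mem_filter.mpr ⟨hx, rfl⟩⟩
  have hm := Finset.mem_filter.mp ((U.filter fun x' => f r x = f r x').min'_mem hne)
  refine ⟨(U.filter fun x' => f r x = f r x').min' hne, hm.1, hm.2, fun hbad => ?_⟩
  unfold f2_bad at hbad
  obtain ⟨x'', hx'', hlt, hfx⟩ := (Finset.mem_filter.mp hbad).2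
  have h1 : x'' ∈ U.filter fun x' => f r x = f r x' :=
    Finset.mem_filter.mpr ⟨hx'', hm.2.trans hfx.symm⟩
  exact absurd ((U.filter fun x' => f r x = f r x').min'_le x'' h1) (not_le.mpr hlt)

open Classical in
/-- the event for one pair `(C, h)` -/
private noncomputable def f2_ev (n A R a : ℕ)
    (x : (C : Finset (Fin R × Fin n)) × ((c : Fin R × Fin n) → c ∈ C → Fin n)) :
    Finset (Fin R → Fin n → Fin (2 ^ A)) :=
  univ.filter fun g => (∀ c, ∀ hc : c ∈ x.1, (c.1, x.2 c hc) ∉ x.1) ∧
    ∀ c, ∀ hc : c ∈ x.1, (g c.1 c.2).val % 2 ^ a = (g c.1 (x.2 c hc)).val % 2 ^ a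

/-- the size of the event for one pair `(C, h)` -/
private theorem f2_ev_card (n A R a : ℕ) (haA : a ≤ A)
    (x : (C : Finset (Fin R × Fin n)) × ((c : Fin R × Fin n) → c ∈ C → Fin n)) :
    (f2_ev n A R a x).card * 2 ^ (a * x.1.card) ≤ (2 ^ A) ^ (R * n) := by
  classical
  obtain ⟨C, h⟩ := x
  by_cases hC : ∀ c, ∀ hc : c ∈ C, (c.1, h c hc) ∉ C
  · have h1 := fix_count (ι := Fin R × Fin n) A a haA C
      (fun c => if hc : c ∈ C then (c.1, h c hc) else c) (by
        intro c hc
        rw [dif_pos hc]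
        exact hC c hc)
    rw [Fintype.card_prod, Fintype.card_fin, Fintype.card_fin] at h1
    refine le_trans (Nat.mul_le_mul_right _ ?_) h1
    refine Finset.card_le_card_of_injOn (fun g => Function.uncurry g) ?_ ?_
    · intro g hg
      have hg' := (Finset.mem_filter.mp (Finset.mem_coe.mp hg)).2.2
      refine Finset.mem_coe.mpr (Finset.mem_filter.mpr ⟨Finset.mem_univ _, ?_⟩)
      intro c hc
      rw [dif_pos hc]
      exact hg' c hc
    · intro g _ g' _ heq
      funext r y
      exact congrFun heq (r, y)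
  · have h0 : f2_ev n A R a ⟨C, h⟩ = ∅ := by
      unfold f2_ev
      refine Finset.filter_eq_empty_iff.mpr ?_
      intro g _ hg
      exact hC hg.1
    rw [h0]
    simp

/-- One set `U` with `v` elements, `m = R' * v`, `R = 16 * R'` labels.  PROOF: if
`16 * ∑ (classes) < 15 * (R * v)` then more than `m` pairs `(r, y)`, `y ∈ U`, are not the smallest
element of their class in `U` for label `r`; choose a set `C` of `m` of them, `w (r, y) = (r, y')`,
`y'` the smallest element of the class, which is not in `C`.  So `g` satisfies the congruences of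
one of at most `choose (16 m) m * v ^ m` pairs `(C, w)`; `fix_count` with `ι = Fin R × Fin n` (or
curried) and `choose_le`, `(44 * v) ^ m * 2 ^ (y * m) ≤ 2 ^ (a * m)`. -/
theorem loss_one (n A R' a y : ℕ) (haA : a ≤ A) (U : Finset (Fin n))
    (hU : 44 * U.card * 2 ^ y ≤ 2 ^ a) :
    ((univ : Finset (Fin (16 * R') → Fin n → Fin (2 ^ A))).filter fun g =>
      16 * ∑ r, (U.image fun x => (g r x).val % 2 ^ a).card < 15 * (16 * R' * U.card)).card *
        2 ^ (y * (R' * U.card)) ≤ (2 ^ A) ^ (16 * R' * n) := by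
  classical
  set F := ((univ : Finset (Fin (16 * R') → Fin n → Fin (2 ^ A))).filter fun g =>
      16 * ∑ r, (U.image fun x => (g r x).val % 2 ^ a).card < 15 * (16 * R' * U.card)) with hF
  set m := R' * U.card with hm
  set J := (((univ : Finset (Fin (16 * R'))) ×ˢ U).powersetCard m).sigma
    (fun C => C.pi fun _ => U) with hJ
  have hJc : J.card ≤ 44 ^ m * U.card ^ m := by
    rw [hJ, Finset.card_sigma]
    have h1 : ∀ C ∈ ((univ : Finset (Fin (16 * R'))) ×ˢ U).powersetCard m,
        (C.pi fun _ => U).card = U.card ^ m := by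
      intro C hC
      rw [Finset.card_pi, Finset.prod_const, (Finset.mem_powersetCard.mp hC).2]
    rw [Finset.sum_congr rfl h1, Finset.sum_const, smul_eq_mul, Finset.card_powersetCard,
      Finset.card_product, Finset.card_univ, Fintype.card_fin, mul_assoc 16 R' U.card, ← hm]
    exact Nat.mul_le_mul_right _ (choose_le m)
  have hsub : F ⊆ J.biUnion (f2_ev n A (16 * R') a) := by
    intro g hg
    have hg' := (Finset.mem_filter.mp hg).2
    have hcount := f2_count (fun r x => (g r x).val % 2 ^ a) U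
    have hle : m ≤ (f2_bad (fun r x => (g r x).val % 2 ^ a) U).card := by
      have h2 : 16 * R' * U.card = 16 * m := by rw [hm]; ring
      rw [h2] at hg' hcount
      omega
    obtain ⟨C, hCsub, hCcard⟩ := Finset.exists_subset_card_eq hle
    have hmin := fun c : Fin (16 * R') × Fin n => fun hc : c ∈ C =>
      f2_min (fun r x => (g r x).val % 2 ^ a) U c.1
        (Finset.mem_product.mp (Finset.mem_filter.mp (hCsub hc)).1).2
    choose h hh using hmin
    refine Finset.mem_biUnion.mpr ⟨⟨C, h⟩, ?_, ?_⟩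
    · refine Finset.mem_sigma.mpr ⟨Finset.mem_powersetCard.mpr ⟨?_, hCcard⟩, ?_⟩
      · exact hCsub.trans (Finset.filter_subset _ _)
      · exact Finset.mem_pi.mpr fun c hc => (hh c hc).1
    · refine Finset.mem_filter.mpr ⟨Finset.mem_univ _, ?_, ?_⟩
      · intro c hc hmem
        exact (hh c hc).2.2 (hCsub hmem)
      · intro c hc
        exact (hh c hc).2.1
  have hcard : F.card * 2 ^ (a * m) ≤ J.card * (2 ^ A) ^ (16 * R' * n) := by
    calc F.card * 2 ^ (a * m) ≤ (∑ x ∈ J, (f2_ev n A (16 * R') a x).card) * 2 ^ (a * m) :=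
          Nat.mul_le_mul_right _ ((Finset.card_le_card hsub).trans Finset.card_biUnion_le)
      _ = ∑ x ∈ J, (f2_ev n A (16 * R') a x).card * 2 ^ (a * m) := by rw [Finset.sum_mul]
      _ ≤ ∑ _x ∈ J, (2 ^ A) ^ (16 * R' * n) := by
          refine Finset.sum_le_sum fun x hx => ?_
          have h1 := f2_ev_card n A (16 * R') a haA x
          have h2 : x.1.card = m :=
            (Finset.mem_powersetCard.mp (Finset.mem_sigma.mp hx).1).2
          rw [h2] at h1
          exact h1
      _ = J.card * (2 ^ A) ^ (16 * R' * n) := by rw [Finset.sum_const, smul_eq_mul]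
  have hpow : 44 ^ m * U.card ^ m * 2 ^ (y * m) ≤ 2 ^ (a * m) := by
    calc 44 ^ m * U.card ^ m * 2 ^ (y * m) = (44 * U.card * 2 ^ y) ^ m := by
          rw [mul_pow, mul_pow, ← pow_mul]
      _ ≤ (2 ^ a) ^ m := Nat.pow_le_pow_left hU m
      _ = 2 ^ (a * m) := by rw [← pow_mul]
  rcases Nat.eq_zero_or_pos m with hm0 | hmpos
  · rw [hm0] at hcard hJc ⊢
    simp only [mul_zero, pow_zero, mul_one] at hcard hJc ⊢
    exact hcard.trans ((Nat.mul_le_mul_right _ hJc).trans (by rw [one_mul]))
  · have hU0 : 0 < U.card := by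
      rcases Nat.eq_zero_or_pos U.card with h | h
      · rw [hm, h, mul_zero] at hmpos
        exact absurd hmpos (lt_irrefl 0)
      · exact h
    have hpos : 0 < 44 ^ m * U.card ^ m := by positivity
    have hfin : (44 ^ m * U.card ^ m) * (F.card * 2 ^ (y * m)) ≤
        (44 ^ m * U.card ^ m) * (2 ^ A) ^ (16 * R' * n) := by
      calc (44 ^ m * U.card ^ m) * (F.card * 2 ^ (y * m)) =
            F.card * (44 ^ m * U.card ^ m * 2 ^ (y * m)) := by ring
        _ ≤ F.card * 2 ^ (a * m) := Nat.mul_le_mul_left _ hpow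
        _ ≤ J.card * (2 ^ A) ^ (16 * R' * n) := hcard
        _ ≤ (44 ^ m * U.card ^ m) * (2 ^ A) ^ (16 * R' * n) := Nat.mul_le_mul_right _ hJc
    exact Nat.le_of_mul_le_mul_left hfin hpos

end Pool.Agent.A217
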