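import Pool.Agent.MP217Area.LabEx

set_option autoImplicit false

/-!
# The labels of level `l`
-/

namespace Pool.Agent.A217

open Finset

private theorem Labels_pow (k : ℕ) : 2 * k ≤ 2 ^ k + 2 := by
  induction k with
  | zero => norm_num
  | succ k ih =>
    have h1 : 1 ≤ 2 ^ k := Nat.one_le_two_pow
    rcases Nat.lt_or_ge k 1 with h | h
    · interval_cases k; norm_num
    · have h2 : 2 ≤ 2 ^ k := by
        calc 2 = 2 ^ 1 := rfl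
          _ ≤ 2 ^ k := Nat.pow_le_pow_right (by norm_num) h
      rw [pow_succ]
      omega

private theorem Labels_I (L I : ℕ) (hI' : 2 ^ I ≤ 8 * (L + 5)) : I + 1 ≤ 2 ^ (6 * (L + 1)) := by
  have h1 : I + 1 ≤ 2 ^ I := Nat.lt_two_pow_self
  have h2 : L + 1 ≤ 2 ^ L := Nat.lt_two_pow_self
  have h3 : 8 * (L + 5) ≤ 64 * 2 ^ L := by omega
  have h4 : 64 * 2 ^ L ≤ 2 ^ (6 * (L + 1)) := by
    calc 64 * 2 ^ L = 2 ^ (L + 6) := by rw [pow_add]; ring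
      _ ≤ 2 ^ (6 * (L + 1)) := Nat.pow_le_pow_right (by norm_num) (by omega)
  omega

/-- The labels of the family `k` for level `l`.  PROOF: `exists_design` with
`R' = 2 ^ (I - 1 - k)` (`16 * R' = 2 ^ (I + 3 - k)`), `a = l + 14 - k`, `y = 2 ^ k + 1 - k`,
`u = 4 * 2 ^ (l + 5 - 2 ^ k)`: `2 ^ k ≤ l + 5 ≤ L + 5 ≤ 2 ^ (I - 2)`, so `k + 2 ≤ I`;
`44 * u * 2 ^ y = 352 * 2 ^ (l + 5 - k) ≤ 2 ^ (l + 14 - k)`; `2 * y ≥ 2 ^ k`, so
`y * R' ≥ 2 ^ (I - 2) ≥ L + 5`.  The bound `I + 1 ≤ 2 ^ (6 * (L + 1))` follows from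
`2 ^ I ≤ 8 * (L + 5)`.  Degrees: divide by `2 ^ (l + 14 - k + i)` (`Nat.le_div_iff_mul_le`). -/
theorem exists_labels (n L I l k : ℕ) (hn : n < 2 ^ (L + 1)) (hl : l ≤ L)
    (hk : k ≤ Nat.log 2 (l + 5)) (hI : 4 * (L + 5) ≤ 2 ^ I) (hI' : 2 ^ I ≤ 8 * (L + 5)) :
    ∃ lb : ℕ → Fin n → ℕ,
      (∀ U : Finset (Fin n), U.card ≤ 4 * 2 ^ (l + 5 - 2 ^ k) →
        15 * (2 ^ (I + 3 - k) * U.card) ≤
          16 * ∑ r ∈ range (2 ^ (I + 3 - k)), (U.image fun y => lb r y % 2 ^ (l + 14 - k)).card) ∧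
      (∀ i ≤ I, ∀ x, ∑ r ∈ range (2 ^ (I + 3 - k)), (univ.filter fun y =>
          y ≠ x ∧ lb r y % 2 ^ (l + 14 - k + i) = lb r x % 2 ^ (l + 14 - k + i)).card ≤
        2 ^ (I + 4) * n / 2 ^ (l + 14 + i) + 8 * (L + 1)) := by
  have hkl : 2 ^ k ≤ l + 5 :=
    (Nat.pow_le_pow_right (by norm_num) hk).trans (Nat.pow_log_le_self 2 (by omega))
  have hk1 : k + 1 ≤ 2 ^ k := Nat.lt_two_pow_self
  have hkI : k + 2 ≤ I := by
    have h1 : 2 ^ (k + 2) ≤ 2 ^ I := by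
      calc 2 ^ (k + 2) = 4 * 2 ^ k := by rw [pow_add]; ring
        _ ≤ 4 * (L + 5) := by omega
        _ ≤ 2 ^ I := hI
    exact (Nat.pow_le_pow_iff_right (by norm_num)).1 h1
  have hR : 16 * 2 ^ (I - 1 - k) = 2 ^ (I + 3 - k) := by
    have : I + 3 - k = 4 + (I - 1 - k) := by omega
    rw [this, pow_add]
    norm_num
  have hu : 44 * (4 * 2 ^ (l + 5 - 2 ^ k)) * 2 ^ (2 ^ k + 1 - k) ≤ 2 ^ (l + 14 - k) := by
    have h1 : 2 ^ (l + 5 - 2 ^ k) * 2 ^ (2 ^ k + 1 - k) = 2 ^ (l + 6 - k) := by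
      rw [← pow_add]
      congr 1
      omega
    have h2 : 2 ^ (l + 14 - k) = 256 * 2 ^ (l + 6 - k) := by
      have : l + 14 - k = 8 + (l + 6 - k) := by omega
      rw [this, pow_add]
      norm_num
    calc 44 * (4 * 2 ^ (l + 5 - 2 ^ k)) * 2 ^ (2 ^ k + 1 - k)
        = 176 * (2 ^ (l + 5 - 2 ^ k) * 2 ^ (2 ^ k + 1 - k)) := by ring
      _ = 176 * 2 ^ (l + 6 - k) := by rw [h1]
      _ ≤ 256 * 2 ^ (l + 6 - k) := Nat.mul_le_mul_right _ (by norm_num)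
      _ = 2 ^ (l + 14 - k) := h2.symm
  have hy : L + 5 ≤ (2 ^ k + 1 - k) * 2 ^ (I - 1 - k) := by
    have h1 : 2 ^ k ≤ 2 * (2 ^ k + 1 - k) := by
      have := Labels_pow k
      omega
    have h2 : 2 ^ k * 2 ^ (I - 1 - k) = 2 ^ (I - 1) := by
      rw [← pow_add]
      congr 1
      omega
    have h3 : 2 ^ I = 2 * 2 ^ (I - 1) := by
      have : I = (I - 1) + 1 := by omega
      conv_lhs => rw [this]
      rw [pow_succ]
      ring
    have h4 : 2 ^ (I - 1) ≤ 2 * ((2 ^ k + 1 - k) * 2 ^ (I - 1 - k)) := by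
      calc 2 ^ (I - 1) = 2 ^ k * 2 ^ (I - 1 - k) := h2.symm
        _ ≤ 2 * (2 ^ k + 1 - k) * 2 ^ (I - 1 - k) := Nat.mul_le_mul_right _ h1
        _ = 2 * ((2 ^ k + 1 - k) * 2 ^ (I - 1 - k)) := by ring
    omega
  obtain ⟨g, hg1, hg2⟩ := exists_design n L (2 ^ (I - 1 - k)) (l + 14 - k) (2 ^ k + 1 - k)
    (4 * 2 ^ (l + 5 - 2 ^ k)) I hn hu hy (Labels_I L I hI')
  rw [hR] at hg1 hg2
  refine ⟨g, hg1, ?_⟩
  intro i hi x
  have h1 := hg2 x i hi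
  generalize (∑ r ∈ range (2 ^ (I + 3 - k)), (univ.filter fun y =>
          y ≠ x ∧ g r y % 2 ^ (l + 14 - k + i) = g r x % 2 ^ (l + 14 - k + i)).card) = S at h1 ⊢
  rcases Nat.lt_or_ge S (8 * (L + 1)) with h | h
  · exact h.le.trans (Nat.le_add_left _ _)
  · have h2 : (S - 8 * (L + 1)) * 2 ^ (l + 14 - k + i) ≤ 2 * (2 ^ (I + 3 - k) * n) := by
      have h3 : (S - 8 * (L + 1)) * 2 ^ (l + 14 - k + i) + 2 ^ (l + 14 - k + i) * (8 * (L + 1)) =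
          2 ^ (l + 14 - k + i) * S := by
        rw [Nat.mul_comm (S - 8 * (L + 1)), ← Nat.mul_add, Nat.sub_add_cancel h]
      omega
    have h4 : (S - 8 * (L + 1)) * 2 ^ (l + 14 + i) ≤ 2 ^ (I + 4) * n := by
      have h5 : 2 ^ (l + 14 + i) = 2 ^ (l + 14 - k + i) * 2 ^ k := by
        rw [← pow_add]
        congr 1
        omega
      have h6 : 2 ^ (I + 4) = 2 * 2 ^ (I + 3 - k) * 2 ^ k := by
        have : I + 4 = 1 + (I + 3 - k) + k := by omega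
        rw [this, pow_add, pow_add]
        norm_num
      calc (S - 8 * (L + 1)) * 2 ^ (l + 14 + i)
          = (S - 8 * (L + 1)) * 2 ^ (l + 14 - k + i) * 2 ^ k := by rw [h5]; ring
        _ ≤ 2 * (2 ^ (I + 3 - k) * n) * 2 ^ k := Nat.mul_le_mul_right _ h2
        _ = 2 ^ (I + 4) * n := by rw [h6]; ring
    have h7 : S - 8 * (L + 1) ≤ 2 ^ (I + 4) * n / 2 ^ (l + 14 + i) :=
      (Nat.le_div_iff_mul_le (by positivity)).2 h4
    omega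

end Pool.Agent.A217
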