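import Mathlib

set_option autoImplicit false

/-!
# Nested rich graphs
-/

namespace Pool.Agent.A217

open Finset

/-- A nested family of graphs: `N ν x` is the closed neighbourhood of `x` in the `ν`-th graph.
`rich`: for every set `A` with at least `2^ν` elements all but fewer than `2^ν` vertices have many
`ν`-neighbours in `A`. -/
structure Nest (n L ν0 Q : ℕ) where
  N : ℕ → Fin n → Finset (Fin n)
  self : ∀ ν x, x ∈ N ν x
  symm : ∀ ν x y, y ∈ N ν x → x ∈ N ν y
  zero : ∀ x, N 0 x = univ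
  anti : ∀ ν x, N (ν + 1) x ⊆ N ν x
  deg : ∀ ν x, ν ≤ L → 2 ^ ν * (N ν x).card ≤ Q
  top : ∀ ν x, L < ν → (N ν x).card ≤ 1
  rich : ∀ ν, ν ≤ L → ∀ A : Finset (Fin n), 2 ^ ν ≤ A.card →
    (univ.filter fun x => 32 * (2 ^ max ν ν0 * (A ∩ N ν x).card) < 2 ^ ν0 * A.card).card < 2 ^ ν

namespace Nest

variable {n L ν0 Q : ℕ} (G : Nest n L ν0 Q)

theorem mono {ν μ : ℕ} (h : ν ≤ μ) (x : Fin n) : G.N μ x ⊆ G.N ν x := by
  induction h with
  | refl => exact Subset.rfl
  | step _ ih => exact (G.anti _ x).trans ih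

/-- Any two sets with `2^ν` elements are joined in the `ν`-th graph. -/
theorem join {ν : ℕ} (hν : ν ≤ L) {S Y : Finset (Fin n)} (hS : 2 ^ ν ≤ S.card)
    (hY : 2 ^ ν ≤ Y.card) : ∃ s ∈ S, ∃ y ∈ Y, y ∈ G.N ν s := by
  have h1 := G.rich ν hν S hS
  obtain ⟨y, hyY, hy⟩ : ∃ y ∈ Y, y ∉ univ.filter fun x =>
      32 * (2 ^ max ν ν0 * (S ∩ G.N ν x).card) < 2 ^ ν0 * S.card := by
    by_contra hcon
    push Not at hcon
    have := card_le_card (show Y ⊆ _ from hcon)
    omega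
  rw [mem_filter, not_and] at hy
  have hy := hy (mem_univ y)
  have hpos : 0 < (S ∩ G.N ν y).card := by
    by_contra h0
    have h0 : (S ∩ G.N ν y).card = 0 := by omega
    apply hy
    rw [h0, mul_zero, mul_zero]
    have : 0 < S.card := lt_of_lt_of_le (by positivity) hS
    positivity
  obtain ⟨s, hs⟩ := card_pos.mp hpos
  rw [mem_inter] at hs
  exact ⟨s, hs.1, y, hyY, G.symm ν y s hs.2⟩

end Nest

end Pool.Agent.A217
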