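import Pool.Agent.MP217Area.Nest

set_option autoImplicit false

/-!
# Complete graphs at the small scales
-/

namespace Pool.Agent.A217

open Finset

/-- A nest whose first graphs are complete.  PROOF: replace `N ν` by `univ` for `ν ≤ ν0`, `ν ≤ L`:
`deg`: `2 ^ ν * n ≤ 4 * n * 2 ^ ν0`; `rich`: `32 * (2 ^ ν0 * |A|) < 2 ^ ν0 * |A|` is false. -/
theorem Nest.full {n L ν0 : ℕ} (G : Nest n L ν0 (4 * n * 2 ^ ν0)) :
    ∃ G' : Nest n L ν0 (4 * n * 2 ^ ν0), ∀ ν ≤ ν0, ν ≤ L → ∀ x, G'.N ν x = univ := by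
  classical
  refine ⟨{ N := fun ν x => if ν ≤ ν0 ∧ ν ≤ L then univ else G.N ν x
            self := ?_, symm := ?_, zero := ?_, anti := ?_, deg := ?_, top := ?_, rich := ?_ }, ?_⟩
  · intro ν x
    split_ifs
    · exact mem_univ x
    · exact G.self ν x
  · intro ν x y h
    split_ifs at h ⊢
    · exact mem_univ x
    · exact G.symm ν x y h
  · intro x
    rw [if_pos ⟨Nat.zero_le _, Nat.zero_le _⟩]
  · intro ν x
    by_cases h : ν + 1 ≤ ν0 ∧ ν + 1 ≤ L
    · rw [if_pos h, if_pos ⟨by omega, by omega⟩]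
    · rw [if_neg h]
      split_ifs
      · exact subset_univ _
      · exact G.anti ν x
  · intro ν x hν
    by_cases h : ν ≤ ν0 ∧ ν ≤ L
    · rw [if_pos h, card_univ, Fintype.card_fin]
      have h1 : 2 ^ ν ≤ 2 ^ ν0 := Nat.pow_le_pow_right (by norm_num) h.1
      calc 2 ^ ν * n ≤ 2 ^ ν0 * n := Nat.mul_le_mul_right _ h1
        _ ≤ 4 * n * 2 ^ ν0 := by nlinarith [Nat.zero_le (2 ^ ν0 * n)]
    · rw [if_neg h]
      exact G.deg ν x hν
  · intro ν x hν
    rw [if_neg (by omega)]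
    exact G.top ν x hν
  · intro ν hν A hA
    by_cases h : ν ≤ ν0 ∧ ν ≤ L
    · have hemp : (univ.filter fun x : Fin n =>
          32 * (2 ^ max ν ν0 * (A ∩ (if ν ≤ ν0 ∧ ν ≤ L then univ else G.N ν x)).card) <
            2 ^ ν0 * A.card) = ∅ := by
        rw [filter_eq_empty_iff]
        intro x _
        rw [if_pos h, inter_univ, max_eq_right h.1, not_lt]
        nlinarith [Nat.zero_le (2 ^ ν0 * A.card)]
      rw [hemp, card_empty]
      positivity
    · have heq : (univ.filter fun x : Fin n =>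
          32 * (2 ^ max ν ν0 * (A ∩ (if ν ≤ ν0 ∧ ν ≤ L then univ else G.N ν x)).card) <
            2 ^ ν0 * A.card) = univ.filter fun x : Fin n =>
          32 * (2 ^ max ν ν0 * (A ∩ G.N ν x).card) < 2 ^ ν0 * A.card := by
        apply filter_congr
        intro x _
        rw [if_neg h]
      rw [heq]
      exact G.rich ν hν A hA
  · intro ν h0 hL x
    exact if_pos ⟨h0, hL⟩

end Pool.Agent.A217
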