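import Pool.Agent.MP217Upper.Model

set_option autoImplicit false

/-!
# Numbers from coins
-/

namespace Pool.Agent.A217

open MeasureTheory
open scoped ENNReal
open Pool.Agent.MP217Upper.Model (coins)

/-- The number with the `m` binary digits `c (pair t j)`, `j < m`. -/
def num (c : ℕ → Bool) (t m : ℕ) : Fin (2 ^ m) :=
  finFunctionFinEquiv fun j : Fin m => if c (Nat.pair t j) then 1 else 0

variable {n : ℕ}

private theorem indep_co :
    ProbabilityTheory.iIndepFun (fun (i : Fin n × ℕ) (c : Fin n → ℕ → Bool) => c i.1 i.2)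
    (coins n) := by
  have h := ProbabilityTheory.iIndepFun_uncurry_infinitePi' (ι := Fin n) (κ := ℕ)
    (Ω := fun _ _ => Bool) (X := fun _ _ x => x)
    (fun _ _ => (PMF.uniformOfFintype Bool).toMeasure) (fun _ _ => measurable_id)
  rw [Measure.infinitePi_eq_pi] at h
  exact h

private theorem meas_coord (p : Fin n) (j : ℕ) :
    Measurable (fun c : Fin n → ℕ → Bool => c p j) :=
  (measurable_pi_apply j).comp (measurable_pi_apply p)

private theorem map_coord (p : Fin n) (j : ℕ) :
    (coins n).map (fun c : Fin n → ℕ → Bool => c p j) =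
      (PMF.uniformOfFintype Bool).toMeasure := by
  have h1 : MeasurePreserving (fun c : Fin n → ℕ → Bool => c p) (coins n)
      (Measure.infinitePi fun _ => (PMF.uniformOfFintype Bool).toMeasure) :=
    measurePreserving_eval (fun _ : Fin n =>
      (Measure.infinitePi fun _ : ℕ => (PMF.uniformOfFintype Bool).toMeasure)) p
  have h2 : MeasurePreserving (fun x : ℕ → Bool => x j)
      (Measure.infinitePi fun _ => (PMF.uniformOfFintype Bool).toMeasure)
      (PMF.uniformOfFintype Bool).toMeasure :=
    measurePreserving_eval_infinitePi (fun _ : ℕ => (PMF.uniformOfFintype Bool).toMeasure) j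
  exact (h2.comp h1).map_eq

/-- Finitely many coins are uniformly distributed. -/
theorem unif_bits {ι : Type} [Fintype ι] [DecidableEq ι] (e : ι → Fin n × ℕ)
    (he : Function.Injective e) (g : (ι → Bool) → ℝ≥0∞) :
    ∫⁻ c, g (fun i => c (e i).1 (e i).2) ∂coins n =
      (2⁻¹ : ℝ≥0∞) ^ (Fintype.card ι) * ∑ v, g v := by
  have : IsProbabilityMeasure (coins n) := by
    unfold coins
    infer_instance
  have hind := (indep_co (n := n)).precomp he
  have hmap := (ProbabilityTheory.iIndepFun_iff_map_fun_eq_pi_map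
    (fun i => (meas_coord (e i).1 (e i).2).aemeasurable)).1 hind
  have hF : Measurable (fun (c : Fin n → ℕ → Bool) (i : ι) => c (e i).1 (e i).2) :=
    measurable_pi_lambda _ fun i => meas_coord _ _
  have hg : Measurable g := measurable_of_finite g
  have h1 : ∫⁻ c, g (fun i => c (e i).1 (e i).2) ∂coins n =
      ∫⁻ v, g v ∂((coins n).map (fun (c : Fin n → ℕ → Bool) (i : ι) => c (e i).1 (e i).2)) :=
    (lintegral_map hg hF).symm
  rw [h1, hmap, lintegral_fintype, Finset.mul_sum]
  refine Finset.sum_congr rfl fun v _ => ?_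
  have : ∀ i : ι, SigmaFinite
      ((coins n).map (fun c : Fin n → ℕ → Bool => c (e i).1 (e i).2)) := by
    intro i
    have := Measure.isProbabilityMeasure_map (μ := coins n)
      (meas_coord (e i).1 (e i).2).aemeasurable
    infer_instance
  rw [Measure.pi_singleton]
  have h2 : ∀ i : ι, ((coins n).map (fun c : Fin n → ℕ → Bool => c (e i).1 (e i).2)) {v i} =
      2⁻¹ := by
    intro i
    rw [map_coord, PMF.toMeasure_apply_singleton _ _ (measurableSet_singleton _)]
    simp
  rw [Finset.prod_congr rfl fun i _ => h2 i, Finset.prod_const, Finset.card_univ, mul_comm]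

/-- Sets that depend on finitely many coins are measurable. -/
theorem meas_of_fin (F : Finset (Fin n × ℕ)) (E : Set (Fin n → ℕ → Bool))
    (h : ∀ c c' : Fin n → ℕ → Bool, (∀ i ∈ F, c i.1 i.2 = c' i.1 i.2) → (c ∈ E ↔ c' ∈ E)) :
    MeasurableSet E := by
  have hR : Measurable (fun (c : Fin n → ℕ → Bool) (i : F) => c i.1.1 i.1.2) :=
    measurable_pi_lambda _ fun i => meas_coord _ _
  have hE : E = (fun (c : Fin n → ℕ → Bool) (i : F) => c i.1.1 i.1.2) ⁻¹'
      ((fun (c : Fin n → ℕ → Bool) (i : F) => c i.1.1 i.1.2) '' E) := by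
    ext c
    constructor
    · intro hc
      exact ⟨c, hc, rfl⟩
    · rintro ⟨c', hc', he⟩
      refine (h c' c fun i hi => ?_).1 hc'
      exact congrFun he ⟨i, hi⟩
  rw [hE]
  exact hR (Set.toFinite _).measurableSet

theorem measurable_of_fin {β : Type*} [MeasurableSpace β] (F : Finset (Fin n × ℕ))
    (f : (Fin n → ℕ → Bool) → β)
    (h : ∀ c c' : Fin n → ℕ → Bool, (∀ i ∈ F, c i.1 i.2 = c' i.1 i.2) → f c = f c') :
    Measurable f := by
  intro s _
  refine meas_of_fin F _ fun c c' hc => ?_
  rw [Set.mem_preimage, Set.mem_preimage, h c c' hc]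

end Pool.Agent.A217
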