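import Pool.Agent.MP217Area.Num

set_option autoImplicit false

/-!
# The law of the numbers
-/

namespace Pool.Agent.A217

open MeasureTheory
open scoped ENNReal
open Pool.Agent.MP217Upper.Model (coins)

variable {n : ℕ}

/-- Binary digits to numbers. -/
private def NumLaw_dec (m : ℕ) : (Fin m → Bool) ≃ Fin (2 ^ m) :=
  (Equiv.piCongrRight fun _ => finTwoEquiv.symm).trans finFunctionFinEquiv

private theorem NumLaw_num (c : ℕ → Bool) (t m : ℕ) :
    NumLaw_dec m (fun i : Fin m => c (Nat.pair t i)) = num c t m := by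
  unfold NumLaw_dec num
  rw [Equiv.trans_apply]
  congr 1
  funext i
  rw [Equiv.piCongrRight_apply]
  cases h : c (Nat.pair t i) <;> simp [h, finTwoEquiv]

/-- The numbers are uniformly distributed. -/
theorem unif_table (k ρ : ℕ) (t : Fin k → ℕ) (ht : Function.Injective t)
    (g : (Fin k → Fin n → Fin (2 ^ ρ)) → ℝ≥0∞) :
    ∫⁻ c, g (fun j a => num (c a) (t j) ρ) ∂coins n =
      ((2 ^ ρ : ℝ≥0∞)⁻¹) ^ (n * k) * ∑ v, g v := by
  let e : Fin k × Fin n × Fin ρ → Fin n × ℕ := fun i => (i.2.1, Nat.pair (t i.1) i.2.2.val)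
  have he : Function.Injective e := by
    rintro ⟨j, a, i⟩ ⟨j', a', i'⟩ h
    simp only [e, Prod.mk.injEq, Nat.pair_eq_pair] at h
    obtain ⟨h1, h2, h3⟩ := h
    rw [h1, ht h2, Fin.ext h3]
  let E : (Fin k × Fin n × Fin ρ → Bool) ≃ (Fin k → Fin n → Fin (2 ^ ρ)) :=
    (Equiv.curry _ _ _).trans (Equiv.piCongrRight fun _ => (Equiv.curry _ _ _).trans
      (Equiv.piCongrRight fun _ => NumLaw_dec ρ))
  have h1 := unif_bits (n := n) e he (fun v => g (E v))
  have h2 : ∀ c : Fin n → ℕ → Bool, g (E fun i => c (e i).1 (e i).2) =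
      g (fun j a => num (c a) (t j) ρ) := by
    intro c
    congr 1
    funext j a
    rw [← NumLaw_num]
    rfl
  rw [lintegral_congr h2] at h1
  rw [h1, Equiv.sum_comp E g]
  congr 1
  rw [Fintype.card_prod, Fintype.card_prod, Fintype.card_fin, Fintype.card_fin,
    Fintype.card_fin, ENNReal.inv_pow, ← pow_mul]
  congr 1
  ring

private theorem NumLaw_count {N a b r : ℕ} (hN : N = a * b) (hr : r < b) :
    (Finset.univ.filter fun x : Fin N => x.val % b = r).card = a := by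
  rw [← Finset.card_range a]
  refine Finset.card_bij' (fun x _ => x.val / b)
    (fun y hy => ⟨r + b * y, ?_⟩) ?_ ?_ ?_ ?_
  · rw [Finset.mem_range] at hy
    calc r + b * y < b + b * y := by omega
      _ = b * (y + 1) := by ring
      _ ≤ b * a := Nat.mul_le_mul_left _ hy
      _ = N := by rw [hN, mul_comm]
  · intro x _
    rw [Finset.mem_range]
    refine Nat.div_lt_of_lt_mul ?_
    rw [mul_comm, ← hN]
    exact x.isLt
  · intro y _
    rw [Finset.mem_filter]
    refine ⟨Finset.mem_univ _, ?_⟩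
    simp only
    rw [Nat.add_mul_mod_self_left, Nat.mod_eq_of_lt hr]
  · intro x hx
    rw [Finset.mem_filter] at hx
    refine Fin.ext ?_
    simp only
    rw [← hx.2, Nat.mod_add_div]
  · intro y _
    simp only
    rw [Nat.add_mul_div_left _ _ (by omega), Nat.div_eq_of_lt hr, zero_add]

private theorem NumLaw_pow {m h : ℕ} (hh : h ≤ m) : 2 ^ m = 2 ^ (m - h) * 2 ^ h := by
  rw [← pow_add]
  congr 1
  omega

private theorem NumLaw_meas1 (t m : ℕ) (a : Fin n) (Q : Fin (2 ^ m) → Prop) :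
    MeasurableSet {c : Fin n → ℕ → Bool | Q (num (c a) t m)} := by
  classical
  refine meas_of_fin (Finset.univ.image fun i : Fin m => (a, Nat.pair t i)) _ ?_
  intro c c' h
  have h1 : num (c a) t m = num (c' a) t m := by
    unfold num
    congr 1
    funext i
    rw [h (a, Nat.pair t i) (Finset.mem_image_of_mem _ (Finset.mem_univ i))]
  simp only [Set.mem_ofPred_eq]
  rw [h1]

/-- Residues: one processor. -/
theorem flag_prob (t m h : ℕ) (hh : h ≤ m) (a : Fin n) {r : ℕ} (hr : r < 2 ^ h) :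
    coins n {c | (num (c a) t m).val % 2 ^ h = r} = (2⁻¹ : ℝ≥0∞) ^ h := by
  classical
  let e : Fin m → Fin n × ℕ := fun i => (a, Nat.pair t i.val)
  have he : Function.Injective e := by
    intro i i' h
    simp only [e, Prod.mk.injEq, Nat.pair_eq_pair] at h
    exact Fin.ext h.2.2
  have h1 := unif_bits (n := n) e he
    (fun v => if (NumLaw_dec m v).val % 2 ^ h = r then 1 else 0)
  have h2 : ∀ c : Fin n → ℕ → Bool,
      (if (NumLaw_dec m fun i => c (e i).1 (e i).2).val % 2 ^ h = r then (1 : ℝ≥0∞) else 0) =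
      Set.indicator {c | (num (c a) t m).val % 2 ^ h = r} (1 : (Fin n → ℕ → Bool) → ℝ≥0∞) c := by
    intro c
    have h3 : (NumLaw_dec m fun i => c (e i).1 (e i).2) = num (c a) t m :=
      NumLaw_num (c a) t m
    rw [h3, Set.indicator_apply]
    rfl
  rw [lintegral_congr h2, lintegral_indicator_one
    (NumLaw_meas1 t m a fun x => x.val % 2 ^ h = r)] at h1
  rw [h1, Fintype.card_fin, Equiv.sum_comp (NumLaw_dec m)
    (fun x => if x.val % 2 ^ h = r then (1 : ℝ≥0∞) else 0), Finset.sum_boole,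
    NumLaw_count (NumLaw_pow hh) hr]
  push_cast
  have h4 : (2⁻¹ : ℝ≥0∞) ^ m = (2⁻¹ : ℝ≥0∞) ^ h * (2⁻¹ : ℝ≥0∞) ^ (m - h) := by
    rw [← pow_add]
    congr 1
    omega
  rw [h4, mul_assoc, ← mul_pow, ENNReal.inv_mul_cancel (by norm_num) (by norm_num), one_pow,
    mul_one]

private theorem NumLaw_exp (H A M : ℕ) (hH : 1 ≤ H) (hA : 6 * M * H ≤ A) :
    (H - 1) ^ A * 2 ^ (8 * M) ≤ H ^ A := by
  have hH0 : (0 : ℝ) < H := by exact_mod_cast hH
  have h1 : (1 - 1 / (H : ℝ)) ^ A ≤ (1 / 2 ^ 8) ^ M := by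
    have h2 : 1 - 1 / (H : ℝ) ≤ Real.exp (-(1 / (H : ℝ))) := Real.one_sub_le_exp_neg _
    have h3 : 0 ≤ 1 - 1 / (H : ℝ) := by
      rw [sub_nonneg, div_le_one hH0]
      exact_mod_cast hH
    calc (1 - 1 / (H : ℝ)) ^ A ≤ Real.exp (-(1 / (H : ℝ))) ^ A := pow_le_pow_left₀ h3 h2 A
      _ = Real.exp (-(A / H : ℝ)) := by
          rw [← Real.exp_nat_mul]
          congr 1
          ring
      _ ≤ Real.exp (-(6 * M)) := by
          rw [Real.exp_le_exp, neg_le_neg_iff, le_div_iff₀ hH0]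
          exact_mod_cast hA
      _ = (Real.exp (-6)) ^ M := by
          rw [← Real.exp_nat_mul]
          congr 1
          ring
      _ ≤ (1 / 2 ^ 8) ^ M := by
          refine pow_le_pow_left₀ (Real.exp_pos _).le ?_ M
          rw [Real.exp_neg, ← one_div, div_le_div_iff₀ (Real.exp_pos _) (by norm_num),
            one_mul, one_mul]
          have h4 : Real.exp 6 = Real.exp 1 ^ 6 := by
            rw [← Real.exp_nat_mul]
            norm_num
          rw [h4]
          have h5 : (2.7 : ℝ) ≤ Real.exp 1 := by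
            have := Real.exp_one_gt_d9
            linarith
          calc (2 : ℝ) ^ 8 ≤ 2.7 ^ 6 := by norm_num
            _ ≤ Real.exp 1 ^ 6 := pow_le_pow_left₀ (by norm_num) h5 6
  have h6 : ((H - 1 : ℕ) : ℝ) = H * (1 - 1 / (H : ℝ)) := by
    rw [Nat.cast_sub hH, mul_sub, mul_one_div_cancel hH0.ne']
    simp
  have h7 : (((H - 1) ^ A * 2 ^ (8 * M) : ℕ) : ℝ) ≤ ((H ^ A : ℕ) : ℝ) := by
    push_cast
    rw [h6, mul_pow]
    calc (H : ℝ) ^ A * (1 - 1 / (H : ℝ)) ^ A * 2 ^ (8 * M) ≤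
          (H : ℝ) ^ A * (1 / 2 ^ 8) ^ M * 2 ^ (8 * M) := by gcongr
      _ = (H : ℝ) ^ A := by
          rw [pow_mul, mul_assoc, ← mul_pow]
          norm_num
  exact_mod_cast h7

/-- Residues: many processors are unlikely to miss. -/
theorem seed_miss (t m h L : ℕ) (hh : h ≤ m) (A : Finset (Fin n)) (r : Fin n → ℕ)
    (hr : ∀ a ∈ A, r a < 2 ^ h) (hA : 6 * (L + 1) * 2 ^ h ≤ A.card) :
    coins n {c | ∀ a ∈ A, (num (c a) t m).val % 2 ^ h ≠ r a} ≤
      (2⁻¹ : ℝ≥0∞) ^ (8 * (L + 1)) := by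
  classical
  have hmeas : MeasurableSet {c : Fin n → ℕ → Bool |
      ∀ a ∈ A, (num (c a) t m).val % 2 ^ h ≠ r a} := by
    have h1 : {c : Fin n → ℕ → Bool | ∀ a ∈ A, (num (c a) t m).val % 2 ^ h ≠ r a} =
        ⋂ a ∈ A, {c : Fin n → ℕ → Bool | (num (c a) t m).val % 2 ^ h ≠ r a} := by
      ext c
      simp only [Set.mem_ofPred_eq, Set.mem_iInter]
    rw [h1]
    exact Finset.measurableSet_biInter _ fun a _ =>
      NumLaw_meas1 t m a fun x => x.val % 2 ^ h ≠ r a
  have h1 := unif_table (n := n) 1 m (fun _ => t) (fun _ _ _ => Subsingleton.elim _ _)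
    (fun w => if ∀ a ∈ A, (w 0 a).val % 2 ^ h ≠ r a then 1 else 0)
  have h2 : ∀ c : Fin n → ℕ → Bool,
      (if ∀ a ∈ A, (num (c a) t m).val % 2 ^ h ≠ r a then (1 : ℝ≥0∞) else 0) =
      Set.indicator {c | ∀ a ∈ A, (num (c a) t m).val % 2 ^ h ≠ r a}
        (1 : (Fin n → ℕ → Bool) → ℝ≥0∞) c := by
    intro c
    rw [Set.indicator_apply]
    rfl
  rw [lintegral_congr h2, lintegral_indicator_one hmeas, Finset.sum_boole] at h1
  rw [h1]
  set X := (Finset.univ.filter fun w : Fin 1 → Fin n → Fin (2 ^ m) =>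
    ∀ a ∈ A, (w 0 a).val % 2 ^ h ≠ r a).card with hX
  have hXc : X * 2 ^ (8 * (L + 1)) ≤ (2 ^ m) ^ n := by
    have h3 : (Finset.univ.filter fun w : Fin 1 → Fin n → Fin (2 ^ m) =>
        ∀ a ∈ A, (w 0 a).val % 2 ^ h ≠ r a) = Fintype.piFinset fun _ : Fin 1 =>
        Fintype.piFinset fun a : Fin n => Finset.univ.filter fun x : Fin (2 ^ m) =>
          a ∈ A → x.val % 2 ^ h ≠ r a := by
      ext w
      simp only [Finset.mem_filter, Finset.mem_univ, true_and, Fintype.mem_piFinset]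
      constructor
      · intro hw j a ha
        rw [Subsingleton.elim j 0]
        exact hw a ha
      · intro hw a ha
        exact hw 0 a ha
    have h4 : X = ∏ a : Fin n, (Finset.univ.filter fun x : Fin (2 ^ m) =>
        a ∈ A → x.val % 2 ^ h ≠ r a).card := by
      rw [hX, h3, Fintype.card_piFinset, Fintype.card_piFinset]
      simp
    have h5 : ∀ a : Fin n, (Finset.univ.filter fun x : Fin (2 ^ m) =>
        a ∈ A → x.val % 2 ^ h ≠ r a).card =
        if a ∈ A then 2 ^ (m - h) * (2 ^ h - 1) else 2 ^ (m - h) * 2 ^ h := by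
      intro a
      split_ifs with ha
      · have h6 : (Finset.univ.filter fun x : Fin (2 ^ m) => a ∈ A → x.val % 2 ^ h ≠ r a) =
            (Finset.univ.filter fun x : Fin (2 ^ m) => ¬ x.val % 2 ^ h = r a) := by
          ext x
          simp [ha]
        have h7 := Finset.card_filter_add_card_filter_not (s := Finset.univ)
          (fun x : Fin (2 ^ m) => x.val % 2 ^ h = r a)
        rw [NumLaw_count (NumLaw_pow hh) (hr a ha), Finset.card_univ, Fintype.card_fin] at h7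
        rw [h6]
        have h8 : 2 ^ (m - h) * (2 ^ h - 1) = 2 ^ m - 2 ^ (m - h) := by
          rw [Nat.mul_sub, Nat.mul_one, ← NumLaw_pow hh]
        rw [h8]
        omega
      · have h6 : (Finset.univ.filter fun x : Fin (2 ^ m) => a ∈ A → x.val % 2 ^ h ≠ r a) =
            Finset.univ := by
          ext x
          simp [ha]
        rw [h6, Finset.card_univ, Fintype.card_fin, NumLaw_pow hh]
    have h9 : ∏ a : Fin n, (if a ∈ A then 2 ^ (m - h) * (2 ^ h - 1) else 2 ^ (m - h) * 2 ^ h) =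
        (2 ^ (m - h)) ^ n * ((2 ^ h - 1) ^ A.card * (2 ^ h) ^ (n - A.card)) := by
      have h10 : ∀ a : Fin n, (if a ∈ A then 2 ^ (m - h) * (2 ^ h - 1)
          else 2 ^ (m - h) * 2 ^ h) = 2 ^ (m - h) * (if a ∈ A then 2 ^ h - 1 else 2 ^ h) := by
        intro a
        split_ifs <;> rfl
      rw [Finset.prod_congr rfl fun a _ => h10 a, Finset.prod_mul_distrib, Finset.prod_const,
        Finset.card_univ, Fintype.card_fin, Finset.prod_ite, Finset.prod_const,
        Finset.prod_const]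
      have h11 : (Finset.univ.filter fun a : Fin n => a ∈ A) = A := by
        ext a
        simp
      have h12 : (Finset.univ.filter fun a : Fin n => a ∉ A) = Aᶜ := by
        ext a
        simp
      rw [h11, h12, Finset.card_compl, Fintype.card_fin]
    rw [h4, Finset.prod_congr rfl fun a _ => h5 a, h9]
    have h13 : A.card ≤ n := by
      refine (Finset.card_le_univ A).trans ?_
      rw [Fintype.card_fin]
    have h14 := NumLaw_exp (2 ^ h) A.card (L + 1) Nat.one_le_two_pow hA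
    calc (2 ^ (m - h)) ^ n * ((2 ^ h - 1) ^ A.card * (2 ^ h) ^ (n - A.card)) *
          2 ^ (8 * (L + 1)) = (2 ^ (m - h)) ^ n * ((2 ^ h) ^ (n - A.card) *
          ((2 ^ h - 1) ^ A.card * 2 ^ (8 * (L + 1)))) := by ring
      _ ≤ (2 ^ (m - h)) ^ n * ((2 ^ h) ^ (n - A.card) * (2 ^ h) ^ A.card) :=
          Nat.mul_le_mul_left _ (Nat.mul_le_mul_left _ h14)
      _ = (2 ^ (m - h)) ^ n * (2 ^ h) ^ n := by
          rw [← pow_add]
          congr 2
          omega
      _ = (2 ^ m) ^ n := by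
          rw [← mul_pow, ← NumLaw_pow hh]
  have hX2 : (X : ℝ≥0∞) * 2 ^ (8 * (L + 1)) ≤ (2 ^ m) ^ n := by exact_mod_cast hXc
  have h20 : (2 : ℝ≥0∞) ^ (8 * (L + 1)) * (2⁻¹ : ℝ≥0∞) ^ (8 * (L + 1)) = 1 := by
    rw [← mul_pow, ENNReal.mul_inv_cancel (by norm_num) (by norm_num), one_pow]
  have h21 : ((2 ^ m : ℝ≥0∞)⁻¹) ^ (n * 1) * (2 ^ m) ^ n = 1 := by
    rw [mul_one, ← mul_pow, ENNReal.inv_mul_cancel (by positivity) (by
      exact ENNReal.pow_ne_top (by norm_num)), one_pow]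
  calc ((2 ^ m : ℝ≥0∞)⁻¹) ^ (n * 1) * (X : ℝ≥0∞) =
        ((2 ^ m : ℝ≥0∞)⁻¹) ^ (n * 1) * ((X : ℝ≥0∞) * (2 ^ (8 * (L + 1)) *
          (2⁻¹ : ℝ≥0∞) ^ (8 * (L + 1)))) := by rw [h20, mul_one (X : ℝ≥0∞)]
    _ = ((2 ^ m : ℝ≥0∞)⁻¹) ^ (n * 1) * ((X : ℝ≥0∞) * 2 ^ (8 * (L + 1))) *
          (2⁻¹ : ℝ≥0∞) ^ (8 * (L + 1)) := by ring
    _ ≤ ((2 ^ m : ℝ≥0∞)⁻¹) ^ (n * 1) * (2 ^ m) ^ n * (2⁻¹ : ℝ≥0∞) ^ (8 * (L + 1)) := by
        gcongr
    _ = (2⁻¹ : ℝ≥0∞) ^ (8 * (L + 1)) := by rw [h21, one_mul]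

end Pool.Agent.A217
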