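import Mathlib

set_option autoImplicit false

/-!
# Peeling

The growth theorem: if many processors finish the ticks of a level then one of them knows many
processors of this level.  Labels, a median and counting; no walk, no matching.
-/

namespace Pool.Agent.A217

open Finset

attribute [local instance 10] Classical.propDecidable

namespace Peel

/-! ### Counting lemmas -/

/-- The number of classes of `U` when many elements of `U` are not alone in their class. -/
theorem classes {V β : Type*} [DecidableEq V] [DecidableEq β] (f : V → β) (U G : Finset V)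
    (hGU : G ⊆ U) (hG : ∀ x ∈ G, ∃ q ∈ U, q ≠ x ∧ f q = f x) :
    2 * (U.image f).card + G.card ≤ 2 * U.card := by
  have h1 : U.card = ∑ b ∈ U.image f, (U.filter fun x => f x = b).card :=
    card_eq_sum_card_image f U
  have h2 : G.card = ∑ b ∈ U.image f, (G.filter fun x => f x = b).card :=
    card_eq_sum_card_fiberwise fun x hx => mem_image_of_mem f (hGU hx)
  have h3 : 2 * (U.image f).card = ∑ _b ∈ U.image f, 2 := by
    rw [sum_const, smul_eq_mul, mul_comm]
  rw [h1, h2, h3, ← sum_add_distrib, mul_sum]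
  apply sum_le_sum
  intro b hb
  have hsub : (G.filter fun x => f x = b) ⊆ (U.filter fun x => f x = b) :=
    filter_subset_filter _ hGU
  have hle := card_le_card hsub
  rcases (G.filter fun x => f x = b).eq_empty_or_nonempty with h | ⟨x, hx⟩
  · rw [h, card_empty]
    rw [mem_image] at hb
    obtain ⟨y, hy, hyb⟩ := hb
    have : 0 < (U.filter fun x => f x = b).card := card_pos.mpr ⟨y, mem_filter.mpr ⟨hy, hyb⟩⟩
    omega
  · rw [mem_filter] at hx
    obtain ⟨q, hq, hqx, hfq⟩ := hG x hx.1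
    have : 1 < (U.filter fun x => f x = b).card := by
      rw [one_lt_card]
      exact ⟨q, mem_filter.mpr ⟨hq, hfq.trans hx.2⟩, x, mem_filter.mpr ⟨hGU hx.1, hx.2⟩, hqx⟩
    omega

/-- Dyadic summation of a decreasing function. -/
theorem dyadic (N : ℕ → ℕ) (hN : ∀ x y, x ≤ y → N y ≤ N x) (n0 b I : ℕ) (h0 : N 0 ≤ n0)
    (hb : ∀ m, m < I → N (2 ^ m) ≤ b * 2 ^ (I - m)) :
    ∀ m ≤ I, ∑ x ∈ range (2 ^ m), N x ≤ n0 + m * (2 ^ I * b) := by
  intro m
  induction m with
  | zero => intro _; simpa using h0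
  | succ m ih =>
    intro hm
    have h1 := ih (by omega)
    have h2 : ∑ x ∈ range (2 ^ (m + 1)), N x =
        ∑ x ∈ range (2 ^ m), N x + ∑ x ∈ range (2 ^ m), N (2 ^ m + x) := by
      rw [pow_succ, mul_two, sum_range_add]
    have h3 : ∑ x ∈ range (2 ^ m), N (2 ^ m + x) ≤ 2 ^ I * b := by
      calc ∑ x ∈ range (2 ^ m), N (2 ^ m + x) ≤ ∑ _x ∈ range (2 ^ m), b * 2 ^ (I - m) := by
            apply sum_le_sum
            intro x _
            exact (hN _ _ (by omega)).trans (hb m (by omega))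
        _ = 2 ^ I * b := by
            rw [sum_const, card_range, smul_eq_mul]
            have e : 2 ^ m * 2 ^ (I - m) = 2 ^ I := by
              rw [← pow_add]
              congr 1
              omega
            calc 2 ^ m * (b * 2 ^ (I - m)) = 2 ^ m * 2 ^ (I - m) * b := by ring
              _ = 2 ^ I * b := by rw [e]
    rw [h2]
    have e : n0 + (m + 1) * (2 ^ I * b) = n0 + m * (2 ^ I * b) + 2 ^ I * b := by ring
    rw [e]
    exact Nat.add_le_add h1 h3

/-- The sum of the powers `2^(A - log j)`. -/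
theorem sum_log (A : ℕ) : ∀ m, m ≤ A + 1 →
    ∑ j ∈ Ico 1 (2 ^ m), 2 ^ (A - Nat.log 2 j) = m * 2 ^ A := by
  intro m
  induction m with
  | zero => intro _; simp
  | succ m ih =>
    intro hm
    have h1 := ih (by omega)
    have h2 : (2 : ℕ) ^ (m + 1) = 2 ^ m + 2 ^ m := by rw [pow_succ, mul_two]
    have h3 : ∑ j ∈ Ico 1 (2 ^ (m + 1)), 2 ^ (A - Nat.log 2 j) =
        ∑ j ∈ Ico 1 (2 ^ m), 2 ^ (A - Nat.log 2 j) +
        ∑ j ∈ Ico (2 ^ m) (2 ^ (m + 1)), 2 ^ (A - Nat.log 2 j) := by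
      rw [sum_Ico_consecutive _ Nat.one_le_two_pow (Nat.pow_le_pow_right (by norm_num) (by omega))]
    have h4 : ∑ j ∈ Ico (2 ^ m) (2 ^ (m + 1)), 2 ^ (A - Nat.log 2 j) = 2 ^ A := by
      have h5 : ∀ j ∈ Ico (2 ^ m) (2 ^ (m + 1)), 2 ^ (A - Nat.log 2 j) = 2 ^ (A - m) := by
        intro j hj
        rw [mem_Ico] at hj
        rw [Nat.log_eq_of_pow_le_of_lt_pow hj.1 hj.2]
      rw [sum_congr rfl h5, sum_const, Nat.card_Ico, smul_eq_mul, h2]
      rw [Nat.add_sub_cancel, ← pow_add]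
      congr 1
      omega
    rw [h3, h1, h4]
    ring

theorem sum_log_le (A la : ℕ) (hA : Nat.log 2 la ≤ A) :
    ∑ j ∈ range la, 2 ^ (A - Nat.log 2 (j + 1)) ≤ (Nat.log 2 la + 1) * 2 ^ A := by
  rw [← sum_log A (Nat.log 2 la + 1) (by omega)]
  have h1 : ∑ j ∈ range la, 2 ^ (A - Nat.log 2 (j + 1)) =
      ∑ j ∈ Ico 1 (la + 1), 2 ^ (A - Nat.log 2 j) := by
    rw [sum_Ico_eq_sum_range]
    apply sum_congr rfl
    intro j _
    rw [add_comm]
  rw [h1]
  apply sum_le_sum_of_subset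
  intro j hj
  rw [mem_Ico] at hj ⊢
  have := Nat.lt_pow_succ_log_self (b := 2) (by norm_num) la
  exact ⟨hj.1, by rw [Nat.succ_eq_add_one] at this; omega⟩

section step

variable {V : Type*} (S : Finset V) (M : V → ℕ → Finset V) (T : ℕ) (s : V → ℕ)

/-- `p` has heard at time `t` from another member of its block. -/
def Heard (a : ℕ) (c : V → ℕ) (p : V) (t : ℕ) : Prop :=
  ∃ q ∈ S, s q ≤ T ∧ q ≠ p ∧ c q % 2 ^ a = c p % 2 ^ a ∧ M q (s q) ⊆ M p t

theorem ev_ex (a : ℕ) (c : V → ℕ) (p : V) :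
    ∃ t, s p ≤ t ∧ (T < t ∨ Heard S M T s a c p t) :=
  ⟨s p + T + 1, by omega, Or.inl (by omega)⟩

/-- The first time after `s p` at which `p` has heard from its block (larger than `T` if there is
none). -/
noncomputable def ev (a : ℕ) (c : V → ℕ) (p : V) : ℕ := Nat.find (ev_ex S M T s a c p)

variable {S M T s}

theorem le_ev (a : ℕ) (c : V → ℕ) (p : V) : s p ≤ ev S M T s a c p :=
  (Nat.find_spec (ev_ex S M T s a c p)).1

theorem ev_spec {a : ℕ} {c : V → ℕ} {p : V} (h : ev S M T s a c p ≤ T) :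
    Heard S M T s a c p (ev S M T s a c p) := by
  rcases (Nat.find_spec (ev_ex S M T s a c p)).2 with h' | h'
  · exact absurd h (not_le.mpr h')
  · exact h'

theorem ev_le {a : ℕ} {c : V → ℕ} {p : V} {t : ℕ} (h1 : s p ≤ t)
    (h2 : Heard S M T s a c p t) : ev S M T s a c p ≤ t :=
  Nat.find_min' _ ⟨h1, Or.inr h2⟩

end step

section main

variable {V : Type*} [DecidableEq V] {S : Finset V} {M : V → ℕ → Finset V}
  {TL : ℕ → V → Finset V} {I : ℕ}

theorem mono_le (mono : ∀ p ∈ S, ∀ t, M p t ⊆ M p (t + 1)) {p : V} (hp : p ∈ S) {t u : ℕ}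
    (h : t ≤ u) : M p t ⊆ M p u := by
  induction u, h using Nat.le_induction with
  | base => exact Subset.rfl
  | succ u _ ih => exact ih.trans (mono p hp u)

/-- Two members of a small class cannot both wait for a long time. -/
theorem wait (mono : ∀ p ∈ S, ∀ t, M p t ⊆ M p (t + 1))
    (dek : ∀ p ∈ S, ∀ q ∈ S, p ≠ q → ∀ t t', 1 ≤ t → t ≤ 2 ^ I → 1 ≤ t' → t' ≤ 2 ^ I →
      q ∈ TL (I - padicValNat 2 t) p → p ∈ TL (I - padicValNat 2 t') q →
      M p (t - 1) ⊆ M q t' ∨ M q (t' - 1) ⊆ M p t)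
    {a : ℕ} {c : V → ℕ}
    (hTL : ∀ i ≤ I, ∀ i' ≤ i, ∀ p q, c q % 2 ^ (a + i) = c p % 2 ^ (a + i) → q ∈ TL i' p)
    {s : V → ℕ} {i : ℕ} (hi : i ≤ I) {p q : V} (hp : p ∈ S) (hq : q ∈ S) (hpq : p ≠ q)
    (hsp : s p ≤ 2 ^ I) (hsq : s q ≤ 2 ^ I) (hc : c p % 2 ^ (a + i) = c q % 2 ^ (a + i))
    (hdp : 2 ^ (I - i) < min (ev S M (2 ^ I) s a c p) (2 ^ I) - s p)
    (hdq : 2 ^ (I - i) < min (ev S M (2 ^ I) s a c q) (2 ^ I) - s q) : False := by
  have hca : c p % 2 ^ a = c q % 2 ^ a := by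
    have h1 : (2 : ℕ) ^ a ∣ 2 ^ (a + i) := pow_dvd_pow 2 (by omega)
    rw [← Nat.mod_mod_of_dvd (c p) h1, hc, Nat.mod_mod_of_dvd (c q) h1]
  set H := 2 ^ (I - i) with hH
  have hH0 : 0 < H := by positivity
  -- the ticks
  have htick : ∀ x, ∃ t, x < t ∧ t ≤ x + H ∧ H ∣ t := by
    intro x
    refine ⟨(x / H + 1) * H, ?_, ?_, Dvd.intro_left _ rfl⟩
    · exact Nat.lt_mul_of_div_lt (Nat.lt_succ_self _) hH0
    · have := Nat.div_mul_le_self x H
      calc (x / H + 1) * H = x / H * H + H := by ring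
        _ ≤ x + H := by omega
  have htyp : ∀ t, 0 < t → H ∣ t → I - padicValNat 2 t ≤ i := by
    intro t ht hd
    have := (padicValNat_dvd_iff_le (p := 2) (by omega : t ≠ 0)).mp hd
    omega
  obtain ⟨t, ht1, ht2, ht3⟩ := htick (s p)
  obtain ⟨t', ht1', ht2', ht3'⟩ := htick (s q)
  have hq1 : q ∈ TL (I - padicValNat 2 t) p := hTL i hi _ (htyp t (by omega) ht3) p q hc.symm
  have hp1 : p ∈ TL (I - padicValNat 2 t') q := hTL i hi _ (htyp t' (by omega) ht3') q p hc
  rcases dek p hp q hq hpq t t' (by omega) (by omega) (by omega) (by omega) hq1 hp1 with h | h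
  · have h1 : Heard S M (2 ^ I) s a c q t' :=
      ⟨p, hp, hsp, hpq, hca, (mono_le mono hp (by omega)).trans h⟩
    have h2 := ev_le (by omega) h1
    omega
  · have h1 : Heard S M (2 ^ I) s a c p t :=
      ⟨q, hq, hsq, hpq.symm, hca.symm, (mono_le mono hq (by omega)).trans h⟩
    have h2 := ev_le (by omega) h1
    omega

/-- The sum of the waiting times for one label. -/
theorem wait_sum (mono : ∀ p ∈ S, ∀ t, M p t ⊆ M p (t + 1))
    (dek : ∀ p ∈ S, ∀ q ∈ S, p ≠ q → ∀ t t', 1 ≤ t → t ≤ 2 ^ I → 1 ≤ t' → t' ≤ 2 ^ I →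
      q ∈ TL (I - padicValNat 2 t) p → p ∈ TL (I - padicValNat 2 t') q →
      M p (t - 1) ⊆ M q t' ∨ M q (t' - 1) ⊆ M p t)
    {a : ℕ} {c : V → ℕ}
    (hTL : ∀ i ≤ I, ∀ i' ≤ i, ∀ p q, c q % 2 ^ (a + i) = c p % 2 ^ (a + i) → q ∈ TL i' p)
    (s : V → ℕ) :
    ∑ p ∈ S.filter (fun p => s p ≤ 2 ^ I), (min (ev S M (2 ^ I) s a c p) (2 ^ I) - s p) ≤
      S.card + I * (2 ^ I * 2 ^ a) := by
  set S0 := S.filter (fun p => s p ≤ 2 ^ I) with hS0
  set d : V → ℕ := fun p => min (ev S M (2 ^ I) s a c p) (2 ^ I) - s p with hd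
  have hdT : ∀ p, d p ≤ 2 ^ I := by
    intro p
    exact (Nat.sub_le _ _).trans (min_le_right _ _)
  set N : ℕ → ℕ := fun x => (S0.filter fun p => x < d p).card with hN
  have h1 : ∑ p ∈ S0, d p = ∑ x ∈ range (2 ^ I), N x := by
    have e1 : ∀ p ∈ S0, d p = ∑ x ∈ range (2 ^ I), if x < d p then 1 else 0 := by
      intro p _
      rw [← card_filter]
      have : (range (2 ^ I)).filter (fun x => x < d p) = range (d p) := by
        ext x
        rw [mem_filter, mem_range, mem_range]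
        have := hdT p
        omega
      rw [this, card_range]
    rw [sum_congr rfl e1, sum_comm]
    apply sum_congr rfl
    intro x _
    simp only [hN]
    rw [card_filter]
  rw [h1]
  have h2 := dyadic N (fun x y hxy => card_le_card fun p hp => by
    rw [mem_filter] at hp ⊢
    exact ⟨hp.1, by omega⟩) S.card (2 ^ a) I
    ((card_filter_le _ _).trans (card_filter_le _ _)) (by
      intro m hm
      have hinj : Set.InjOn (fun p => c p % 2 ^ (a + (I - m)))
          (S0.filter fun p => 2 ^ m < d p) := by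
        intro p hp q hq hpq
        by_contra hne
        rw [mem_coe, mem_filter, hS0, mem_filter] at hp hq
        have e : I - (I - m) = m := by omega
        exact wait mono dek hTL (i := I - m) (by omega) hp.1.1 hq.1.1 hne hp.1.2 hq.1.2 hpq
          (by rw [e]; exact hp.2) (by rw [e]; exact hq.2)
      calc N (2 ^ m) = ((S0.filter fun p => 2 ^ m < d p).image
            fun p => c p % 2 ^ (a + (I - m))).card := (card_image_of_injOn hinj).symm
        _ ≤ (range (2 ^ (a + (I - m)))).card := by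
            apply card_le_card
            intro v hv
            rw [mem_image] at hv
            obtain ⟨p, _, rfl⟩ := hv
            rw [mem_range]
            exact Nat.mod_lt _ (by positivity)
        _ = 2 ^ a * 2 ^ (I - m) := by rw [card_range, pow_add]) I le_rfl
  exact h2

/-- The step of the peeling: the median of the waiting times. -/
theorem med_ex (T R : ℕ) (s : V → ℕ) (e : ℕ → V → ℕ) (p : V) :
    ∃ t, s p ≤ t ∧ (T < t ∨ R ≤ 2 * ((range R).filter fun r => e r p ≤ t).card) :=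
  ⟨s p + T + 1, by omega, Or.inl (by omega)⟩

/-- The median of the `e r p`, `r < R`. -/
noncomputable def med (T R : ℕ) (s : V → ℕ) (e : ℕ → V → ℕ) (p : V) : ℕ :=
  Nat.find (med_ex T R s e p)

theorem le_med (T R : ℕ) (s : V → ℕ) (e : ℕ → V → ℕ) (p : V) : s p ≤ med T R s e p :=
  (Nat.find_spec (med_ex T R s e p)).1

theorem med_spec {T R : ℕ} {s : V → ℕ} {e : ℕ → V → ℕ} {p : V} (h : med T R s e p ≤ T) :
    R ≤ 2 * ((range R).filter fun r => e r p ≤ med T R s e p).card := by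
  rcases (Nat.find_spec (med_ex T R s e p)).2 with h' | h'
  · exact absurd h (not_le.mpr h')
  · exact h'

theorem med_sum (T R : ℕ) (s : V → ℕ) (e : ℕ → V → ℕ) (p : V) (hs : s p ≤ T) :
    R * (min (med T R s e p) T - s p) ≤ 2 * ∑ r ∈ range R, (min (e r p) T - s p) := by
  rcases Nat.eq_or_lt_of_le (le_med T R s e p) with h | h
  · have : min (med T R s e p) T - s p = 0 := by omega
    rw [this, mul_zero]
    exact Nat.zero_le _
  · set τ := med T R s e p with hτ
    have h1 : ¬ (s p ≤ τ - 1 ∧ (T < τ - 1 ∨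
        R ≤ 2 * ((range R).filter fun r => e r p ≤ τ - 1).card)) :=
      Nat.find_min (med_ex T R s e p) (by rw [← med, ← hτ]; omega)
    push Not at h1
    obtain ⟨h2, h3⟩ := h1 (by omega)
    have hsplit := card_filter_add_card_filter_not (s := range R) (fun r => e r p ≤ τ - 1)
    rw [card_range] at hsplit
    have h4 : ((range R).filter fun r => ¬ e r p ≤ τ - 1).card * (min τ T - s p) ≤
        ∑ r ∈ range R, (min (e r p) T - s p) := by
      calc ((range R).filter fun r => ¬ e r p ≤ τ - 1).card * (min τ T - s p)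
          = ∑ _r ∈ (range R).filter fun r => ¬ e r p ≤ τ - 1, (min τ T - s p) := by
            rw [sum_const, smul_eq_mul]
        _ ≤ ∑ r ∈ (range R).filter fun r => ¬ e r p ≤ τ - 1, (min (e r p) T - s p) := by
            apply sum_le_sum
            intro r hr
            have := (mem_filter.mp hr).2
            omega
        _ ≤ _ := sum_le_sum_of_subset (filter_subset _ _)
    calc R * (min τ T - s p)
        ≤ (2 * ((range R).filter fun r => ¬ e r p ≤ τ - 1).card) * (min τ T - s p) :=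
          Nat.mul_le_mul_right _ (by omega)
      _ = 2 * (((range R).filter fun r => ¬ e r p ≤ τ - 1).card * (min τ T - s p)) := by ring
      _ ≤ _ := Nat.mul_le_mul_left _ h4

/-- The peeling times. -/
noncomputable def tt (S : Finset V) (M : V → ℕ → Finset V) (I la ρ : ℕ) (g : ℕ → ℕ → V → ℕ) :
    ℕ → V → ℕ
  | 0 => fun _ => 0
  | j + 1 => med (2 ^ I) (2 ^ (ρ - Nat.log 2 (j + 1))) (tt S M I la ρ g j)
      (fun r p => ev S M (2 ^ I) (tt S M I la ρ g j) (la + 9 - Nat.log 2 (j + 1))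
        (g (Nat.log 2 (j + 1)) r) p)

variable {la ρ : ℕ} {g : ℕ → ℕ → V → ℕ}

theorem tt_mono (j : ℕ) (p : V) : tt S M I la ρ g j p ≤ tt S M I la ρ g (j + 1) p :=
  le_med _ _ _ _ _

/-- One step costs little. -/
theorem tt_step (mono : ∀ p ∈ S, ∀ t, M p t ⊆ M p (t + 1))
    (dek : ∀ p ∈ S, ∀ q ∈ S, p ≠ q → ∀ t t', 1 ≤ t → t ≤ 2 ^ I → 1 ≤ t' → t' ≤ 2 ^ I →
      q ∈ TL (I - padicValNat 2 t) p → p ∈ TL (I - padicValNat 2 t') q →
      M p (t - 1) ⊆ M q t' ∨ M q (t' - 1) ⊆ M p t)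
    (hTL : ∀ k ≤ Nat.log 2 la, ∀ r < 2 ^ (ρ - k), ∀ i ≤ I, ∀ i' ≤ i, ∀ p q,
      g k r q % 2 ^ (la + 9 - k + i) = g k r p % 2 ^ (la + 9 - k + i) → q ∈ TL i' p)
    {j : ℕ} (hj : j < la) :
    ∑ p ∈ S, (min (tt S M I la ρ g (j + 1) p) (2 ^ I) - min (tt S M I la ρ g j p) (2 ^ I)) ≤
      2 * (S.card + I * (2 ^ I * 2 ^ (la + 9 - Nat.log 2 (j + 1)))) := by
  set k := Nat.log 2 (j + 1) with hk
  have hkK : k ≤ Nat.log 2 la := Nat.log_mono_right (by omega)
  set s := tt S M I la ρ g j with hs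
  set R := 2 ^ (ρ - k) with hR
  have hR0 : 0 < R := by positivity
  set S0 := S.filter (fun p => s p ≤ 2 ^ I) with hS0
  set e : ℕ → V → ℕ := fun r p => ev S M (2 ^ I) s (la + 9 - k) (g k r) p with he
  have htt : ∀ p, tt S M I la ρ g (j + 1) p = med (2 ^ I) R s e p := fun p => rfl
  have h1 : ∑ p ∈ S, (min (tt S M I la ρ g (j + 1) p) (2 ^ I) - min (s p) (2 ^ I)) =
      ∑ p ∈ S0, (min (med (2 ^ I) R s e p) (2 ^ I) - s p) := by
    rw [hS0, sum_filter]
    apply sum_congr rfl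
    intro p _
    rw [htt]
    have h2 := le_med (2 ^ I) R s e p
    split_ifs with h
    · rw [min_eq_left h]
    · omega
  rw [h1]
  have h2 : R * ∑ p ∈ S0, (min (med (2 ^ I) R s e p) (2 ^ I) - s p) ≤
      R * (2 * (S.card + I * (2 ^ I * 2 ^ (la + 9 - k)))) := by
    calc R * ∑ p ∈ S0, (min (med (2 ^ I) R s e p) (2 ^ I) - s p)
        = ∑ p ∈ S0, R * (min (med (2 ^ I) R s e p) (2 ^ I) - s p) := mul_sum _ _ _
      _ ≤ ∑ p ∈ S0, 2 * ∑ r ∈ range R, (min (e r p) (2 ^ I) - s p) := by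
          apply sum_le_sum
          intro p hp
          exact med_sum _ _ _ _ _ (mem_filter.mp hp).2
      _ = 2 * ∑ r ∈ range R, ∑ p ∈ S0, (min (e r p) (2 ^ I) - s p) := by
          rw [← mul_sum, sum_comm]
      _ ≤ 2 * ∑ _r ∈ range R, (S.card + I * (2 ^ I * 2 ^ (la + 9 - k))) := by
          apply Nat.mul_le_mul_left
          apply sum_le_sum
          intro r hr
          exact wait_sum mono dek (hTL k hkK r (mem_range.mp hr)) s
      _ = R * (2 * (S.card + I * (2 ^ I * 2 ^ (la + 9 - k)))) := by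
          rw [sum_const, card_range, smul_eq_mul]
          ring
  exact Nat.le_of_mul_le_mul_left h2 hR0

/-- Somebody survives the peeling. -/
theorem tt_main (hla : 1 ≤ la) (hT : 4 * la ≤ 2 ^ I)
    (mono : ∀ p ∈ S, ∀ t, M p t ⊆ M p (t + 1))
    (dek : ∀ p ∈ S, ∀ q ∈ S, p ≠ q → ∀ t t', 1 ≤ t → t ≤ 2 ^ I → 1 ≤ t' → t' ≤ 2 ^ I →
      q ∈ TL (I - padicValNat 2 t) p → p ∈ TL (I - padicValNat 2 t') q →
      M p (t - 1) ⊆ M q t' ∨ M q (t' - 1) ⊆ M p t)
    (hTL : ∀ k ≤ Nat.log 2 la, ∀ r < 2 ^ (ρ - k), ∀ i ≤ I, ∀ i' ≤ i, ∀ p q,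
      g k r q % 2 ^ (la + 9 - k + i) = g k r p % 2 ^ (la + 9 - k + i) → q ∈ TL i' p)
    (hS : 4 * I * (Nat.log 2 la + 1) * 2 ^ (la + 9) < S.card) :
    ∃ p ∈ S, tt S M I la ρ g la p ≤ 2 ^ I := by
  by_contra hcon
  push Not at hcon
  set T := 2 ^ I with hTd
  have hT0 : 0 < T := by positivity
  set m : ℕ → V → ℕ := fun j p => min (tt S M I la ρ g j p) T with hm
  have hm0 : ∀ p, m 0 p = 0 := fun p => by simp [hm, tt]
  have htel : ∀ j p, ∑ i ∈ range j, (m (i + 1) p - m i p) = m j p := by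
    intro j p
    induction j with
    | zero => simp [hm0]
    | succ j ih =>
      rw [sum_range_succ, ih]
      have : m j p ≤ m (j + 1) p := by
        simp only [hm]
        exact min_le_min_right _ (tt_mono j p)
      omega
  have h1 : S.card * T = ∑ j ∈ range la, ∑ p ∈ S, (m (j + 1) p - m j p) := by
    rw [sum_comm, sum_congr rfl fun p _ => htel la p, ← smul_eq_mul, ← sum_const]
    apply sum_congr rfl
    intro p hp
    have := hcon p hp
    simp only [hm]
    omega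
  have h2 : S.card * T ≤ ∑ j ∈ range la, 2 * (S.card + I * (T * 2 ^ (la + 9 - Nat.log 2 (j + 1)))) := by
    rw [h1]
    apply sum_le_sum
    intro j hj
    exact tt_step mono dek hTL (mem_range.mp hj)
  have hlog : Nat.log 2 la ≤ la + 9 := (Nat.log_le_self 2 la).trans (by omega)
  have h3 := sum_log_le (la + 9) la hlog
  have h4 : ∑ j ∈ range la, 2 * (S.card + I * (T * 2 ^ (la + 9 - Nat.log 2 (j + 1)))) =
      2 * la * S.card + 2 * I * T * ∑ j ∈ range la, 2 ^ (la + 9 - Nat.log 2 (j + 1)) := by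
    rw [← mul_sum, sum_add_distrib, sum_const, card_range, smul_eq_mul, mul_add, ← mul_sum,
      ← mul_sum]
    ring
  rw [h4] at h2
  have h5 : 2 * (2 * la * S.card) ≤ S.card * T := by
    calc 2 * (2 * la * S.card) = S.card * (4 * la) := by ring
      _ ≤ S.card * T := Nat.mul_le_mul_left _ hT
  have h6 : 2 * I * T * ∑ j ∈ range la, 2 ^ (la + 9 - Nat.log 2 (j + 1)) ≤
      2 * I * T * ((Nat.log 2 la + 1) * 2 ^ (la + 9)) := Nat.mul_le_mul_left _ h3
  have h7 : S.card * T ≤ (4 * I * (Nat.log 2 la + 1) * 2 ^ (la + 9)) * T := by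
    have e : (4 * I * (Nat.log 2 la + 1) * 2 ^ (la + 9)) * T =
        2 * (2 * I * T * ((Nat.log 2 la + 1) * 2 ^ (la + 9))) := by ring
    omega
  have h8 := Nat.le_of_mul_le_mul_right h7 hT0
  omega

/-- The growth of the team going back in time. -/
theorem growth (mono : ∀ p ∈ S, ∀ t, M p t ⊆ M p (t + 1))
    (lossless : ∀ k ≤ Nat.log 2 la, ∀ U : Finset V, U.card ≤ 4 * 2 ^ (la - 2 ^ k) →
      15 * (2 ^ (ρ - k) * U.card) ≤
        16 * ∑ r ∈ range (2 ^ (ρ - k)), (U.image fun y => g k r y % 2 ^ (la + 9 - k)).card)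
    {p : V} (hp : p ∈ S) (htp : tt S M I la ρ g la p ≤ 2 ^ I) :
    ∀ i ≤ la, ∃ A ⊆ S, 2 ^ i ≤ A.card ∧ ∀ x ∈ A, tt S M I la ρ g (la - i) x ≤ 2 ^ I ∧
      M x (tt S M I la ρ g (la - i) x) ⊆ M p (2 ^ I) := by
  intro i
  induction i with
  | zero =>
    intro _
    refine ⟨{p}, by simpa using hp, by simp, ?_⟩
    intro x hx
    rw [mem_singleton] at hx
    subst hx
    rw [Nat.sub_zero]
    exact ⟨htp, mono_le mono hp htp⟩
  | succ i ih =>
    intro hi
    obtain ⟨A, hAS, hAc, hA⟩ := ih (by omega)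
    obtain ⟨X, hXA, hXc⟩ := exists_subset_card_eq hAc
    obtain ⟨j, hj⟩ : ∃ j, la - i = j + 1 := ⟨la - i - 1, by omega⟩
    have hj' : la - (i + 1) = j := by omega
    rw [hj] at hA
    rw [hj']
    set k := Nat.log 2 (j + 1) with hk
    have hkK : k ≤ Nat.log 2 la := Nat.log_mono_right (by omega)
    have h2k : 2 ^ k ≤ j + 1 := Nat.pow_log_le_self 2 (by omega)
    set A' := S.filter fun q => tt S M I la ρ g j q ≤ 2 ^ I ∧
      M q (tt S M I la ρ g j q) ⊆ M p (2 ^ I) with hA'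
    refine ⟨A', filter_subset _ _, ?_, fun x hx => (mem_filter.mp hx).2⟩
    by_contra hcon
    push Not at hcon
    set U := X ∪ A' with hU
    have hUc : U.card ≤ X.card + A'.card := card_union_le _ _
    have hpi : (2 : ℕ) ^ (i + 1) = 2 * 2 ^ i := by rw [pow_succ, mul_comm]
    have hle : (2 : ℕ) ^ i ≤ 2 ^ (la - 2 ^ k) := Nat.pow_le_pow_right (by norm_num) (by omega)
    have h1 := lossless k hkK U (by omega)
    set R := 2 ^ (ρ - k) with hR
    have hR0 : 0 < R := by positivity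
    set e : ℕ → V → ℕ := fun r q => ev S M (2 ^ I) (tt S M I la ρ g j) (la + 9 - k) (g k r) q
      with he
    -- one label
    have h2 : ∀ r ∈ range R, 2 * (U.image fun y => g k r y % 2 ^ (la + 9 - k)).card +
        (X.filter fun x => e r x ≤ tt S M I la ρ g (j + 1) x).card ≤ 2 * U.card := by
      intro r _
      apply classes
      · exact (filter_subset _ _).trans subset_union_left
      · intro x hx
        rw [mem_filter] at hx
        have hxA := hA x (hXA hx.1)
        obtain ⟨q, hq, hsq, hqx, hc, hM⟩ := ev_spec (hx.2.trans hxA.1)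
        refine ⟨q, ?_, hqx, hc⟩
        rw [hU, mem_union]
        right
        rw [hA', mem_filter]
        exact ⟨hq, hsq, hM.trans ((mono_le mono (hAS (hXA hx.1)) hx.2).trans hxA.2)⟩
    have h3 : ∑ r ∈ range R, (2 * (U.image fun y => g k r y % 2 ^ (la + 9 - k)).card +
        (X.filter fun x => e r x ≤ tt S M I la ρ g (j + 1) x).card) ≤ R * (2 * U.card) := by
      calc _ ≤ ∑ _r ∈ range R, 2 * U.card := sum_le_sum h2
        _ = R * (2 * U.card) := by rw [sum_const, card_range, smul_eq_mul]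
    rw [sum_add_distrib, ← mul_sum] at h3
    have h4 : X.card * R ≤
        2 * ∑ r ∈ range R, (X.filter fun x => e r x ≤ tt S M I la ρ g (j + 1) x).card := by
      have e1 : ∑ r ∈ range R, (X.filter fun x => e r x ≤ tt S M I la ρ g (j + 1) x).card =
          ∑ x ∈ X, ((range R).filter fun r => e r x ≤ tt S M I la ρ g (j + 1) x).card :=
        sum_card_bipartiteAbove_eq_sum_card_bipartiteBelow _
      rw [e1, mul_sum, ← smul_eq_mul, ← sum_const]
      apply sum_le_sum
      intro x hx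
      exact med_spec (hA x (hXA hx)).1
    set C := ∑ r ∈ range R, (U.image fun y => g k r y % 2 ^ (la + 9 - k)).card with hC
    have h5 : 4 * (X.card * R) ≤ R * U.card := by
      have e1 : 15 * (R * U.card) = 15 * (R * U.card) := rfl
      have e2 : R * (2 * U.card) = 2 * (R * U.card) := by ring
      rw [e2] at h3
      omega
    have h6 : 4 * X.card ≤ U.card := by
      have e1 : 4 * (X.card * R) = R * (4 * X.card) := by ring
      rw [e1] at h5
      exact Nat.le_of_mul_le_mul_left h5 hR0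
    omega

end main

end Peel

/-- The growth theorem. -/
theorem peel {V : Type*} [DecidableEq V] (S : Finset V) (M : V → ℕ → Finset V)
    (TL : ℕ → V → Finset V) (I la ρ : ℕ) (g : ℕ → ℕ → V → ℕ)
    (hla : 1 ≤ la) (hT : 4 * la ≤ 2 ^ I)
    (mono : ∀ p ∈ S, ∀ t, M p t ⊆ M p (t + 1)) (self : ∀ p ∈ S, p ∈ M p 0)
    (dek : ∀ p ∈ S, ∀ q ∈ S, p ≠ q → ∀ t t', 1 ≤ t → t ≤ 2 ^ I → 1 ≤ t' → t' ≤ 2 ^ I →
      q ∈ TL (I - padicValNat 2 t) p → p ∈ TL (I - padicValNat 2 t') q →
      M p (t - 1) ⊆ M q t' ∨ M q (t' - 1) ⊆ M p t)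
    (hTL : ∀ k ≤ Nat.log 2 la, ∀ r < 2 ^ (ρ - k), ∀ i ≤ I, ∀ i' ≤ i, ∀ p q,
      g k r q % 2 ^ (la + 9 - k + i) = g k r p % 2 ^ (la + 9 - k + i) → q ∈ TL i' p)
    (lossless : ∀ k ≤ Nat.log 2 la, ∀ U : Finset V, U.card ≤ 4 * 2 ^ (la - 2 ^ k) →
      15 * (2 ^ (ρ - k) * U.card) ≤
        16 * ∑ r ∈ range (2 ^ (ρ - k)), (U.image fun y => g k r y % 2 ^ (la + 9 - k)).card)
    (hS : 4 * I * (Nat.log 2 la + 1) * 2 ^ (la + 9) < S.card) :
    ∃ p ∈ S, 2 ^ la ≤ (M p (2 ^ I)).card := by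
  obtain ⟨p, hp, htp⟩ := Peel.tt_main hla hT mono dek hTL hS
  refine ⟨p, hp, ?_⟩
  obtain ⟨A, hAS, hAc, hA⟩ := Peel.growth mono lossless hp htp la le_rfl
  refine hAc.trans (card_le_card fun x hx => ?_)
  have h := (hA x hx).2
  rw [Nat.sub_self] at h
  exact h (self x (hAS hx))

end Pool.Agent.A217
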