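import Pool.Agent.MP217Upper.Model

set_option autoImplicit false

/-!
# Round protocols

A round protocol is the local algorithm for one round; it ends with `fin v d` (preference `v`,
decision `d`).  `RP.alg` is the algorithm that performs round after round.
-/

namespace Pool.Agent.A217

open MeasureTheory
open scoped ENNReal
open Pool.Agent.MP217Upper.Model (Act Alg Config coins W Solves cost totalWork)

/-- What a processor does next in a round. -/
inductive RAct (n : ℕ) : Type
  | read (w : Fin n) (k : ℕ)
  | write (r : Fin n) (k v : ℕ)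
  | fin (v d : Bool)

/-- A round protocol. -/
structure RP (n : ℕ) where
  S : Type
  cnt : Countable S
  init : Fin n → Bool → (ℕ → Bool) → S
  next : Fin n → S → RAct n
  upd : Fin n → (ℕ → Bool) → S → Option ℕ → S
  init_meas : ∀ p b s, MeasurableSet {c | init p b c = s}
  upd_meas : ∀ p s r s', MeasurableSet {c | upd p c s r = s'}
  init_fin : ∀ p b c v d, next p (init p b c) ≠ .fin v d

variable {n : ℕ}

/-- Global configurations of a round protocol. -/
structure RCfg (P : RP n) where
  st : Fin n → P.S
  mem : Fin n → Fin n → ℕ → ℕ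

namespace RP

variable (P : RP n)

/-- One step of processor `p`. -/
def step (c : Fin n → ℕ → Bool) (p : Fin n) (C : RCfg P) : RCfg P :=
  match P.next p (C.st p) with
  | .read w k => ⟨Function.update C.st p (P.upd p (c p) (C.st p) (some (C.mem w p k))), C.mem⟩
  | .write r k v => ⟨Function.update C.st p (P.upd p (c p) (C.st p) none),
      Function.update C.mem p (Function.update (C.mem p) r (Function.update (C.mem p r) k v))⟩
  | .fin _ _ => C

/-- The run with preferences `x`, coins `c` and schedule `σ`. -/
def run (x : Fin n → Bool) (c : Fin n → ℕ → Bool) (σ : ℕ → Option (Fin n)) : ℕ → RCfg P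
  | 0 => ⟨fun p => P.init p (x p) (c p), fun _ _ _ => 0⟩
  | t + 1 => match σ t with
    | none => run x c σ t
    | some p => P.step c p (run x c σ t)

open Classical in
/-- The number of steps of `p` before time `t`. -/
noncomputable def steps (x : Fin n → Bool) (c : Fin n → ℕ → Bool) (σ : ℕ → Option (Fin n))
    (t : ℕ) (p : Fin n) : ℕ :=
  ((Finset.range t).filter fun t' => σ t' = some p ∧
    ∀ v d, P.next p ((P.run x c σ t').st p) ≠ .fin v d).card

/-- The total number of steps. -/
noncomputable def work (x : Fin n → Bool) (c : Fin n → ℕ → Bool) (σ : ℕ → Option (Fin n)) :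
    ℝ≥0∞ :=
  ⨆ t, ((∑ p, P.steps x c σ t p : ℕ) : ℝ≥0∞)

/-- Success: everybody who leaves the round leaves with the same value and decides. -/
def Succ (x : Fin n → Bool) (c : Fin n → ℕ → Bool) (σ : ℕ → Option (Fin n)) : Prop :=
  ∃ v, ∀ t p v' d', P.next p ((P.run x c σ t).st p) = .fin v' d' → v' = v ∧ d' = true

/-- The properties of a round protocol that make the composed algorithm efficient. -/
structure Good (W1 : ℝ≥0∞) : Prop where
  agree : ∀ x c σ t t' p p' v v' d', P.next p ((P.run x c σ t).st p) = .fin v true →
    P.next p' ((P.run x c σ t').st p') = .fin v' d' → v' = v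
  unan : ∀ x c σ v, (∀ t p, σ t = some p → x p = v) → ∀ t p v' d',
    P.next p ((P.run x c σ t).st p) = .fin v' d' → v' = v ∧ d' = true
  bdd : ∃ Bd : ℕ, ∀ x c σ t p, P.steps x c σ t p ≤ Bd
  succ : ∀ x σ, 2⁻¹ ≤ coins n {c | P.Succ x c σ}
  work_le : ∀ x σ, ∫⁻ c, P.work x c σ ∂coins n ≤ W1

/-! ### The composed algorithm -/

/-- The coins of round `r`. -/
def blk (c : ℕ → Bool) (r : ℕ) : ℕ → Bool := fun j => c (Nat.pair r j)

/-- The coins of all processors in round `r`. -/
def blks (c : Fin n → ℕ → Bool) (r : ℕ) : Fin n → ℕ → Bool := fun p => blk (c p) r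

/-- Local states of the composed algorithm: in round `r` with state `s`, or finished. -/
inductive CSt (P : RP n) : Type
  | act (r : ℕ) (s : P.S)
  | out (v : Bool)

/-- Leave a finished round. -/
def norm (i : Fin n) (c : ℕ → Bool) (r : ℕ) (s : P.S) : CSt P :=
  match P.next i s with
  | .fin v true => .out v
  | .fin v false => .act (r + 1) (P.init i v (blk c (r + 1)))
  | _ => .act r s

/-- The local state after the history `h`. -/
def cs (i : Fin n) (b : Bool) (c : ℕ → Bool) : List (Option ℕ) → CSt P
  | [] => .act 0 (P.init i b (blk c 0))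
  | x :: h => match cs i b c h with
    | .act r s => P.norm i c r (P.upd i (blk c r) s x)
    | .out v => .out v

/-- The next action. -/
def nxt (i : Fin n) : CSt P → Act n
  | .out v => .output v
  | .act r s => match P.next i s with
    | .read w k => .read w (Nat.pair r k)
    | .write y k v => .write y (Nat.pair r k) v
    | .fin v _ => .output v

/-! ### The rounds -/

/-- The schedule of a round in which `p` takes part from time `τ p` on. -/
def sched (σ : ℕ → Fin n) (τ : Fin n → Option ℕ) (t : ℕ) : Option (Fin n) :=
  match τ (σ t) with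
  | none => none
  | some e => if e ≤ t then some (σ t) else none

open Classical in
/-- Preferences and entering times of the next round. -/
noncomputable def nextLev (x : Fin n → Bool) (c : Fin n → ℕ → Bool) (σ : ℕ → Option (Fin n)) :
    (Fin n → Bool) × (Fin n → Option ℕ) :=
  (fun p => decide (∃ t, P.next p ((P.run x c σ t).st p) = .fin true false),
   fun p => if h : ∃ t, ∃ v, P.next p ((P.run x c σ t).st p) = .fin v false then
      some (Nat.find h) else none)

/-- Preferences and entering times of round `r`. -/
noncomputable def lev (b : Fin n → Bool) (c : Fin n → ℕ → Bool) (σ : ℕ → Fin n) :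
    ℕ → (Fin n → Bool) × (Fin n → Option ℕ)
  | 0 => (b, fun _ => some 0)
  | r + 1 => P.nextLev (lev b c σ r).1 (blks c r) (sched σ (lev b c σ r).2)

/-- The run of round `r`. -/
noncomputable def rrun (b : Fin n → Bool) (c : Fin n → ℕ → Bool) (σ : ℕ → Fin n) (r t : ℕ) :
    RCfg P :=
  P.run (P.lev b c σ r).1 (blks c r) (sched σ (P.lev b c σ r).2) t

end RP

end Pool.Agent.A217
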