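import Pool.Agent.MP217Area.RPlev
import Pool.Agent.MP217Area.Ind

set_option autoImplicit false

/-!
# Independence of the rounds
-/

namespace Pool.Agent.A217

open MeasureTheory
open scoped ENNReal
open Pool.Agent.MP217Upper.Model (Act Alg coins)

namespace RP

variable {n : ℕ} {P : RP n} {W1 : ℝ≥0∞}

private theorem RPind_prob (n : ℕ) : IsProbabilityMeasure (coins n) := by
  have h1 : IsProbabilityMeasure (Measure.infinitePi fun _ : ℕ =>
      (PMF.uniformOfFintype Bool).toMeasure) := inferInstance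
  unfold coins
  infer_instance

/-- Events determined by the level data are measurable. -/
private theorem RPind_meas (b : Fin n → Bool) (σ : ℕ → Fin n) (r : ℕ)
    (S : Set ((Fin n → Bool) × (Fin n → Option ℕ))) :
    MeasurableSet {c : Fin n → ℕ → Bool | P.lev b c σ r ∈ S} := by
  have h : {c : Fin n → ℕ → Bool | P.lev b c σ r ∈ S}
      = ⋃ y ∈ S, {c | P.lev b c σ r = y} := by
    ext c; simp
  rw [h]
  exact MeasurableSet.biUnion (Set.to_countable S) fun y _ => P.meas_lev b σ r y

private theorem RPind_fun (P : RP n) (b : Fin n → Bool) (σ : ℕ → Fin n) (r : ℕ)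
    (f : (Fin n → ℕ → Bool) → ℝ≥0∞) :
    ∫⁻ c, f c ∂coins n
      = ∑' y : (Fin n → Bool) × (Fin n → Option ℕ),
          ∫⁻ c in {c | P.lev b c σ r = y}, f c ∂coins n := by
  have hU : (⋃ y : (Fin n → Bool) × (Fin n → Option ℕ), {c | P.lev b c σ r = y})
      = (Set.univ : Set (Fin n → ℕ → Bool)) := by
    ext c; simp
  rw [← lintegral_iUnion (fun y => P.meas_lev b σ r y), hU, Measure.restrict_univ]
  intro y y' hy
  rw [Function.onFun, Set.disjoint_left]
  intro c hc hc'
  exact hy (hc.symm.trans hc')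

private theorem RPind_split (P : RP n) (b : Fin n → Bool) (σ : ℕ → Fin n) (r : ℕ)
    (F : (Fin n → Bool) × (Fin n → Option ℕ) → (Fin n → ℕ → Bool) → ℝ≥0∞)
    (hF : ∀ y, Measurable (F y)) (K : ℝ≥0∞)
    (h0 : ∀ y, (∀ p, y.2 p = none) → ∀ c, F y c = 0)
    (hK : ∀ y, ∫⁻ c, F y c ∂coins n ≤ K) :
    ∫⁻ c, F (P.lev b c σ r) (blks c r) ∂coins n ≤
      coins n {c | ∃ p, (P.lev b c σ r).2 p ≠ none} * K := by
  have hmp := coins_map (n := n) (fun j => Nat.pair r j) (fun i j h => (Nat.pair_eq_pair.1 h).2)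
  have hblk : ∀ c : Fin n → ℕ → Bool, blks c r = fun p j => c p (Nat.pair r j) := fun c => rfl
  have hterm : ∀ y, ∫⁻ c in {c | P.lev b c σ r = y}, F (P.lev b c σ r) (blks c r) ∂coins n
      = coins n {c | P.lev b c σ r = y} * ∫⁻ c, F y c ∂coins n := by
    intro y
    have h1 : ∫⁻ c in {c | P.lev b c σ r = y}, F (P.lev b c σ r) (blks c r) ∂coins n
        = ∫⁻ c in {c | P.lev b c σ r = y}, F y (fun p j => c p (Nat.pair r j)) ∂coins n := by
      refine setLIntegral_congr_fun (P.meas_lev b σ r y) fun c hc => ?_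
      have hc' : P.lev b c σ r = y := hc
      simp only [hc', hblk]
    rw [h1, coins_mul {q : Fin n × ℕ | (Nat.unpair q.2).1 = r} {c | P.lev b c σ r = y}
      (fun c => F y (fun p j => c p (Nat.pair r j))) (P.meas_lev b σ r y)
      ((hF y).comp hmp.measurable)]
    · congr 1
      exact hmp.lintegral_comp (hF y)
    · intro c c' h
      have : P.lev b c σ r = P.lev b c' σ r := by
        apply P.lev_congr
        intro r' hr' p j
        apply h
        simp only [Set.mem_setOf_eq, Nat.unpair_pair]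
        exact hr'.ne
      simp only [Set.mem_setOf_eq, this]
    · intro c c' h
      have : (fun (p : Fin n) (j : ℕ) => c p (Nat.pair r j)) = fun p j => c' p (Nat.pair r j) := by
        funext p j
        apply h
        simp only [Set.mem_setOf_eq, Nat.unpair_pair]
      simp only [this]
  rw [RPind_fun P b σ r]
  have hle : ∀ y, ∫⁻ c in {c | P.lev b c σ r = y}, F (P.lev b c σ r) (blks c r) ∂coins n
      ≤ ∫⁻ c in {c | P.lev b c σ r = y},
        ({c | ∃ p, (P.lev b c σ r).2 p ≠ none} : Set (Fin n → ℕ → Bool)).indicator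
          (fun _ => K) c ∂coins n := by
    intro y
    rw [hterm y]
    by_cases hy : ∀ p, y.2 p = none
    · have : ∫⁻ c, F y c ∂coins n = 0 := by
        rw [lintegral_congr (g := fun _ => 0) (fun c => h0 y hy c)]
        simp
      rw [this, mul_zero]
      exact zero_le
    · have h2 : ∫⁻ c in {c | P.lev b c σ r = y},
          ({c | ∃ p, (P.lev b c σ r).2 p ≠ none} : Set (Fin n → ℕ → Bool)).indicator
            (fun _ => K) c ∂coins n
          = ∫⁻ c in {c | P.lev b c σ r = y}, K ∂coins n := by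
        refine setLIntegral_congr_fun (P.meas_lev b σ r y) fun c hc => ?_
        have hc' : P.lev b c σ r = y := hc
        refine Set.indicator_of_mem ?_ _
        simp only [Set.mem_setOf_eq, hc']
        push Not at hy
        exact hy
      rw [h2, setLIntegral_const, mul_comm K]
      exact mul_le_mul_right (hK y) _
  have hmeas : MeasurableSet {c : Fin n → ℕ → Bool | ∃ p, (P.lev b c σ r).2 p ≠ none} :=
    RPind_meas b σ r {y | ∃ p, y.2 p ≠ none}
  calc ∑' y, ∫⁻ c in {c | P.lev b c σ r = y}, F (P.lev b c σ r) (blks c r) ∂coins n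
      ≤ ∑' y : (Fin n → Bool) × (Fin n → Option ℕ), ∫⁻ c in {c | P.lev b c σ r = y},
        ({c | ∃ p, (P.lev b c σ r).2 p ≠ none} : Set (Fin n → ℕ → Bool)).indicator
          (fun _ => K) c ∂coins n := ENNReal.tsum_le_tsum hle
    _ = ∫⁻ c, ({c | ∃ p, (P.lev b c σ r).2 p ≠ none} : Set (Fin n → ℕ → Bool)).indicator
          (fun _ => K) c ∂coins n := (RPind_fun P b σ r _).symm
    _ = K * coins n {c | ∃ p, (P.lev b c σ r).2 p ≠ none} := by
        rw [lintegral_indicator hmeas, setLIntegral_const]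
    _ = _ := mul_comm _ _

/-- If nobody takes part, then nothing happens. -/
private theorem RPind_none (σ : ℕ → Fin n) (τ : Fin n → Option ℕ) (hτ : ∀ p, τ p = none)
    (t : ℕ) : sched σ τ t = none := by
  unfold sched
  rw [hτ]

private theorem RPind_run (P : RP n) (x : Fin n → Bool) (c : Fin n → ℕ → Bool) (σ : ℕ → Fin n)
    (τ : Fin n → Option ℕ) (hτ : ∀ p, τ p = none) (t : ℕ) :
    P.run x c (sched σ τ) t = P.run x c (sched σ τ) 0 := by
  induction t with
  | zero => rfl
  | succ t ih =>
    have h : P.run x c (sched σ τ) (t + 1) = P.run x c (sched σ τ) t := by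
      rw [run]
      simp only [RPind_none σ τ hτ t]
    rw [h, ih]

private theorem RPind_work (P : RP n) (x : Fin n → Bool) (c : Fin n → ℕ → Bool) (σ : ℕ → Fin n)
    (τ : Fin n → Option ℕ) (hτ : ∀ p, τ p = none) : P.work x c (sched σ τ) = 0 := by
  classical
  unfold work
  simp only [ENNReal.iSup_eq_zero]
  intro t
  have : ∀ p, P.steps x c (sched σ τ) t p = 0 := by
    intro p
    unfold steps
    rw [Finset.card_eq_zero, Finset.filter_eq_empty_iff]
    rintro t' _ ⟨h, _⟩
    rw [RPind_none σ τ hτ t'] at h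
    exact absurd h (by simp)
  simp only [this, Finset.sum_const_zero, Nat.cast_zero]

/-- If somebody enters the next round, then the round was not successful, and somebody took
part. -/
private theorem RPind_ent (P : RP n) (y : (Fin n → Bool) × (Fin n → Option ℕ))
    (c : Fin n → ℕ → Bool) (σ : ℕ → Fin n) (p : Fin n)
    (h : (P.nextLev y.1 c (sched σ y.2)).2 p ≠ none) :
    (¬ P.Succ y.1 c (sched σ y.2)) ∧ ¬ (∀ p, y.2 p = none) := by
  have hex : ∃ t, ∃ v, P.next p ((P.run y.1 c (sched σ y.2) t).st p) = .fin v false := by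
    by_contra hno
    apply h
    unfold nextLev
    simp only
    rw [dif_neg hno]
  obtain ⟨t, v, hv⟩ := hex
  constructor
  · rintro ⟨v0, hs⟩
    exact absurd (hs t p v false hv).2 (by simp)
  · intro hnone
    rw [RPind_run P y.1 c σ y.2 hnone t] at hv
    exact P.init_fin p (y.1 p) (c p) v false hv

theorem ent_half (hP : P.Good W1) (b : Fin n → Bool) (σ : ℕ → Fin n) (r : ℕ) :
    coins n {c | ∃ p, (P.lev b c σ (r + 1)).2 p ≠ none} ≤
      2⁻¹ * coins n {c | ∃ p, (P.lev b c σ r).2 p ≠ none} := by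
  classical
  have := RPind_prob n
  set F : (Fin n → Bool) × (Fin n → Option ℕ) → (Fin n → ℕ → Bool) → ℝ≥0∞ := fun y =>
    if (∀ p, y.2 p = none) then 0 else
      ({c | P.Succ y.1 c (sched σ y.2)}ᶜ : Set (Fin n → ℕ → Bool)).indicator (fun _ => 1) with hFdef
  have hF : ∀ y, Measurable (F y) := by
    intro y
    rw [hFdef]
    simp only
    split_ifs
    · exact measurable_zero
    · exact measurable_const.indicator (P.meas_Succ y.1 _).compl
  have h0 : ∀ y, (∀ p, y.2 p = none) → ∀ c, F y c = 0 := by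
    intro y hy c
    rw [hFdef]
    simp only [hy, implies_true, if_true, Pi.zero_apply]
  have hK : ∀ y, ∫⁻ c, F y c ∂coins n ≤ 2⁻¹ := by
    intro y
    by_cases hy : ∀ p, y.2 p = none
    · rw [lintegral_congr (g := fun _ => 0) (fun c => h0 y hy c)]
      simp
    · have h1 : ∀ c, F y c = ({c | P.Succ y.1 c (sched σ y.2)}ᶜ :
          Set (Fin n → ℕ → Bool)).indicator (fun _ => 1) c := by
        intro c
        rw [hFdef]
        simp only [if_neg hy]
      rw [lintegral_congr h1, lintegral_indicator (P.meas_Succ y.1 _).compl, setLIntegral_const,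
        one_mul, prob_compl_eq_one_sub (P.meas_Succ y.1 _)]
      have h2 := hP.succ y.1 (sched σ y.2)
      calc (1 : ℝ≥0∞) - coins n {c | P.Succ y.1 c (sched σ y.2)} ≤ 1 - 2⁻¹ :=
            tsub_le_tsub_left h2 _
        _ = 2⁻¹ := ENNReal.one_sub_inv_two
  have hmeas : MeasurableSet {c : Fin n → ℕ → Bool | ∃ p, (P.lev b c σ (r + 1)).2 p ≠ none} :=
    RPind_meas b σ (r + 1) {y | ∃ p, y.2 p ≠ none}
  calc coins n {c | ∃ p, (P.lev b c σ (r + 1)).2 p ≠ none}
      = ∫⁻ c, ({c | ∃ p, (P.lev b c σ (r + 1)).2 p ≠ none} :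
          Set (Fin n → ℕ → Bool)).indicator (fun _ => 1) c ∂coins n := by
        rw [lintegral_indicator hmeas, setLIntegral_const, one_mul]
    _ ≤ ∫⁻ c, F (P.lev b c σ r) (blks c r) ∂coins n := by
        refine lintegral_mono fun c => ?_
        by_cases hc : c ∈ {c : Fin n → ℕ → Bool | ∃ p, (P.lev b c σ (r + 1)).2 p ≠ none}
        · obtain ⟨p, hp⟩ := hc
          have hp' : (P.nextLev (P.lev b c σ r).1 (blks c r) (sched σ (P.lev b c σ r).2)).2 p
              ≠ none := hp
          obtain ⟨h1, h2⟩ := RPind_ent P (P.lev b c σ r) (blks c r) σ p hp'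
          have h3 : F (P.lev b c σ r) (blks c r) = 1 := by
            rw [hFdef]
            simp only [if_neg h2]
            exact Set.indicator_of_mem (by simpa using h1) _
          rw [h3]
          exact Set.indicator_le_self' (fun _ _ => zero_le) c
        · rw [Set.indicator_of_notMem hc]
          exact zero_le
    _ ≤ coins n {c | ∃ p, (P.lev b c σ r).2 p ≠ none} * 2⁻¹ :=
        RPind_split P b σ r F hF _ h0 hK
    _ = _ := mul_comm _ _

theorem work_round (hP : P.Good W1) (b : Fin n → Bool) (σ : ℕ → Fin n) (r : ℕ) :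
    ∫⁻ c, P.work (P.lev b c σ r).1 (blks c r) (sched σ (P.lev b c σ r).2) ∂coins n ≤
      coins n {c | ∃ p, (P.lev b c σ r).2 p ≠ none} * W1 := by
  exact RPind_split P b σ r (fun y c => P.work y.1 c (sched σ y.2))
    (fun y => P.measurable_work y.1 _) W1
    (fun y hy c => RPind_work P y.1 c σ y.2 hy) (fun y => hP.work_le y.1 _)

end RP

end Pool.Agent.A217
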