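import Pool.Agent.MP217Area.RPmeas

set_option autoImplicit false

/-!
# Preferences and entering times: dependence on the coins
-/

namespace Pool.Agent.A217

open MeasureTheory
open scoped ENNReal
open Pool.Agent.MP217Upper.Model (Act Alg coins)

namespace RP

variable {n : ℕ} (P : RP n)

/-- Preferences and entering times of round `r` depend only on the coins of the rounds before. -/
theorem lev_congr (b : Fin n → Bool) (σ : ℕ → Fin n) (r : ℕ) {c c' : Fin n → ℕ → Bool}
    (h : ∀ r' < r, ∀ p j, c p (Nat.pair r' j) = c' p (Nat.pair r' j)) :
    P.lev b c σ r = P.lev b c' σ r := by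
  induction r with
  | zero => rfl
  | succ r ih =>
    have h1 : P.lev b c σ r = P.lev b c' σ r :=
      ih fun r' hr' => h r' (Nat.lt_succ_of_lt hr')
    have h2 : blks c r = blks c' r := by
      funext p j
      exact h r (Nat.lt_succ_self r) p j
    unfold lev
    rw [h1, h2]

/-- The map to the coins of round `r` is measurable. -/
private theorem measurable_blks (r : ℕ) :
    Measurable fun c : Fin n → ℕ → Bool => blks c r := by
  refine measurable_pi_lambda _ fun p => measurable_pi_lambda _ fun j => ?_
  exact (measurable_pi_apply (Nat.pair r j)).comp (measurable_pi_apply p)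

private theorem meas_next (x : Fin n → Bool) (s : ℕ → Option (Fin n)) (t : ℕ) (p : Fin n)
    (a : RAct n) :
    MeasurableSet {c : Fin n → ℕ → Bool | P.next p ((P.run x c s t).st p) = a} := by
  have := P.cnt
  have : {c : Fin n → ℕ → Bool | P.next p ((P.run x c s t).st p) = a} =
      ⋃ z : P.S, {c | P.next p z = a ∧ (P.run x c s t).st p = z} := by
    ext c
    simp
  rw [this]
  refine MeasurableSet.iUnion fun z => ?_
  by_cases hz : P.next p z = a
  · simp only [hz, true_and]
    exact P.meas_st x s t p z
  · simp only [hz, false_and]
    exact MeasurableSet.empty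

private theorem meas_nextLev (x : Fin n → Bool) (s : ℕ → Option (Fin n))
    (y : (Fin n → Bool) × (Fin n → Option ℕ)) :
    MeasurableSet {c : Fin n → ℕ → Bool | P.nextLev x c s = y} := by
  classical
  have hE : ∀ p, MeasurableSet {c : Fin n → ℕ → Bool |
      ∃ t, P.next p ((P.run x c s t).st p) = .fin true false} := by
    intro p
    rw [Set.ofPred_exists]
    exact MeasurableSet.iUnion fun t => P.meas_next x s t p _
  have hF : ∀ p t, MeasurableSet {c : Fin n → ℕ → Bool |
      ∃ v, P.next p ((P.run x c s t).st p) = .fin v false} := by
    intro p t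
    rw [Set.ofPred_exists]
    exact MeasurableSet.iUnion fun v => P.meas_next x s t p _
  have hset : {c : Fin n → ℕ → Bool | P.nextLev x c s = y} =
      (⋂ p, {c | (∃ t, P.next p ((P.run x c s t).st p) = .fin true false) ↔ y.1 p = true}) ∩
      (⋂ p, {c | match y.2 p with
        | none => ∀ t, ¬ ∃ v, P.next p ((P.run x c s t).st p) = .fin v false
        | some e => (∃ v, P.next p ((P.run x c s e).st p) = .fin v false) ∧
            ∀ t < e, ¬ ∃ v, P.next p ((P.run x c s t).st p) = .fin v false}) := by
    ext c
    simp only [Set.mem_ofPred_eq, Set.mem_inter_iff, Set.mem_iInter]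
    constructor
    · rintro rfl
      constructor
      · intro p
        simp [nextLev]
      · intro p
        simp only [nextLev]
        by_cases h : ∃ t, ∃ v, P.next p ((P.run x c s t).st p) = .fin v false
        · rw [dif_pos h]
          exact ⟨Nat.find_spec h, fun t ht => Nat.find_min h ht⟩
        · rw [dif_neg h]
          intro t ht
          exact h ⟨t, ht⟩
    · rintro ⟨h1, h2⟩
      apply Prod.ext
      · funext p
        have := h1 p
        simp only [nextLev]
        rcases hy : y.1 p with _ | _
        · rw [hy] at this
          exact decide_eq_false fun h => absurd (this.1 h) (by simp)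
        · rw [hy] at this
          exact decide_eq_true (this.2 rfl)
      · funext p
        have := h2 p
        simp only [nextLev]
        rcases hy : y.2 p with _ | e
        · rw [hy] at this
          simp only at this
          rw [dif_neg]
          rintro ⟨t, ht⟩
          exact this t ht
        · rw [hy] at this
          simp only at this
          obtain ⟨h3, h4⟩ := this
          have h5 : ∃ t, ∃ v, P.next p ((P.run x c s t).st p) = .fin v false := ⟨e, h3⟩
          rw [dif_pos h5]
          congr 1
          exact (Nat.find_eq_iff h5).2 ⟨h3, h4⟩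
  rw [hset]
  refine MeasurableSet.inter (MeasurableSet.iInter fun p => ?_) (MeasurableSet.iInter fun p => ?_)
  · rcases hy : y.1 p with _ | _
    · simp only [Bool.false_eq_true, iff_false]
      exact (hE p).compl
    · simp only [iff_true]
      exact hE p
  · rcases hy : y.2 p with _ | e
    · simp only
      rw [Set.ofPred_forall]
      exact MeasurableSet.iInter fun t => (hF p t).compl
    · simp only
      have : {c : Fin n → ℕ → Bool | (∃ v, P.next p ((P.run x c s e).st p) = .fin v false) ∧
          ∀ t < e, ¬ ∃ v, P.next p ((P.run x c s t).st p) = .fin v false} =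
          {c : Fin n → ℕ → Bool | ∃ v, P.next p ((P.run x c s e).st p) = .fin v false} ∩
          ⋂ t, ⋂ (_ : t < e), {c : Fin n → ℕ → Bool |
            ∃ v, P.next p ((P.run x c s t).st p) = .fin v false}ᶜ := by
        ext c
        simp
      rw [this]
      exact (hF p e).inter (MeasurableSet.iInter fun t => MeasurableSet.iInter fun _ =>
        (hF p t).compl)

theorem meas_lev (b : Fin n → Bool) (σ : ℕ → Fin n) (r : ℕ)
    (y : (Fin n → Bool) × (Fin n → Option ℕ)) :
    MeasurableSet {c : Fin n → ℕ → Bool | P.lev b c σ r = y} := by
  induction r generalizing y with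
  | zero =>
    have : {c : Fin n → ℕ → Bool | P.lev b c σ 0 = y} =
        {_c : Fin n → ℕ → Bool | (b, fun _ => some 0) = y} := rfl
    rw [this]
    exact MeasurableSet.const _
  | succ r ih =>
    have hset : {c : Fin n → ℕ → Bool | P.lev b c σ (r + 1) = y} =
        ⋃ z : (Fin n → Bool) × (Fin n → Option ℕ), {c | P.lev b c σ r = z} ∩
          {c | P.nextLev z.1 (blks c r) (sched σ z.2) = y} := by
      ext c
      simp only [Set.mem_ofPred_eq, Set.mem_iUnion, Set.mem_inter_iff]
      constructor
      · intro h
        exact ⟨_, rfl, h⟩
      · rintro ⟨z, rfl, h⟩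
        exact h
    rw [hset]
    refine MeasurableSet.iUnion fun z => (ih z).inter ?_
    exact measurable_blks r (P.meas_nextLev z.1 (sched σ z.2) y)

end RP

end Pool.Agent.A217
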