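import Pool.Agent.MP217Area.RPsol

set_option autoImplicit false

/-!
# The total work of the composed algorithm
-/

namespace Pool.Agent.A217

open MeasureTheory
open scoped ENNReal
open Pool.Agent.MP217Upper.Model (Act Alg coins Solves W)

namespace RP

variable {n : ℕ} {P : RP n} {W1 : ℝ≥0∞}

private theorem ent_pow (hP : P.Good W1) (b : Fin n → Bool) (σ : ℕ → Fin n) (r : ℕ) :
    coins n {c | ∃ p, (P.lev b c σ r).2 p ≠ none} ≤ 2⁻¹ ^ r := by
  induction r with
  | zero =>
    have h1 : ∀ _ : Fin n, IsProbabilityMeasure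
        (Measure.infinitePi fun _ : ℕ => (PMF.uniformOfFintype Bool).toMeasure) :=
      fun _ => inferInstance
    have h2 : IsProbabilityMeasure (coins n) := by
      unfold coins
      infer_instance
    rw [pow_zero]
    exact prob_le_one
  | succ r ih =>
    calc coins n {c | ∃ p, (P.lev b c σ (r + 1)).2 p ≠ none}
        ≤ 2⁻¹ * coins n {c | ∃ p, (P.lev b c σ r).2 p ≠ none} := ent_half hP b σ r
      _ ≤ 2⁻¹ * 2⁻¹ ^ r := by gcongr
      _ = 2⁻¹ ^ (r + 1) := by rw [pow_succ, mul_comm]

private theorem blks_meas (r : ℕ) : Measurable fun c : Fin n → ℕ → Bool => blks c r := by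
  refine measurable_pi_lambda _ fun p => measurable_pi_lambda _ fun j => ?_
  exact (measurable_pi_apply (Nat.pair r j)).comp (measurable_pi_apply p)

/-- The work of round `r` is a measurable function of the coins. -/
private theorem meas_round (P : RP n) (b : Fin n → Bool) (σ : ℕ → Fin n) (r : ℕ) :
    Measurable fun c : Fin n → ℕ → Bool =>
      P.work (P.lev b c σ r).1 (blks c r) (sched σ (P.lev b c σ r).2) := by
  intro S hS
  have h : (fun c : Fin n → ℕ → Bool =>
      P.work (P.lev b c σ r).1 (blks c r) (sched σ (P.lev b c σ r).2)) ⁻¹' S =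
      ⋃ y : (Fin n → Bool) × (Fin n → Option ℕ), {c | P.lev b c σ r = y} ∩
        (fun c => P.work y.1 (blks c r) (sched σ y.2)) ⁻¹' S := by
    ext c
    simp only [Set.mem_preimage, Set.mem_iUnion, Set.mem_inter_iff]
    constructor
    · intro hc
      exact ⟨P.lev b c σ r, rfl, hc⟩
    · rintro ⟨y, hy, hc⟩
      have hy' : P.lev b c σ r = y := hy
      rw [hy']
      exact hc
  rw [h]
  refine MeasurableSet.iUnion fun y => ?_
  refine (P.meas_lev b σ r y).inter ?_
  exact ((P.measurable_work y.1 (sched σ y.2)).comp (blks_meas r)) hS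

private theorem total_le (b : Fin n → Bool) (c : Fin n → ℕ → Bool) (σ : ℕ → Fin n) :
    MP217Upper.Model.totalWork P.alg b c σ ≤
      ∑' r, P.work (P.lev b c σ r).1 (blks c r) (sched σ (P.lev b c σ r).2) := by
  unfold MP217Upper.Model.totalWork
  refine iSup_le fun t => ?_
  push_cast
  calc ∑ i, (((MP217Upper.Model.run P.alg b c σ t).hist i).length : ℝ≥0∞)
      ≤ ∑ i, ∑' r, (P.steps (P.lev b c σ r).1 (blks c r) (sched σ (P.lev b c σ r).2) t i :
          ℝ≥0∞) := Finset.sum_le_sum fun i _ => P.sim_len b c σ t i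
    _ = ∑' r, ∑ i, (P.steps (P.lev b c σ r).1 (blks c r) (sched σ (P.lev b c σ r).2) t i :
          ℝ≥0∞) := (Summable.tsum_finsetSum fun i _ => ENNReal.summable).symm
    _ ≤ ∑' r, P.work (P.lev b c σ r).1 (blks c r) (sched σ (P.lev b c σ r).2) := by
        refine ENNReal.tsum_le_tsum fun r => ?_
        unfold work
        refine le_trans ?_ (le_iSup _ t)
        push_cast
        rfl

theorem W_le (hP : P.Good W1) : W n ≤ 2 * W1 := by
  unfold W
  refine (iInf₂_le P.alg (solves hP)).trans ?_
  unfold MP217Upper.Model.cost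
  refine iSup₂_le fun b σ => ?_
  calc ∫⁻ c, MP217Upper.Model.totalWork P.alg b c σ ∂coins n
      ≤ ∫⁻ c, ∑' r, P.work (P.lev b c σ r).1 (blks c r) (sched σ (P.lev b c σ r).2) ∂coins n :=
        lintegral_mono fun c => total_le b c σ
    _ = ∑' r, ∫⁻ c, P.work (P.lev b c σ r).1 (blks c r) (sched σ (P.lev b c σ r).2) ∂coins n :=
        lintegral_tsum fun r => (meas_round P b σ r).aemeasurable
    _ ≤ ∑' r : ℕ, 2⁻¹ ^ r * W1 := by
        refine ENNReal.tsum_le_tsum fun r => ?_
        refine (work_round hP b σ r).trans ?_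
        gcongr
        exact ent_pow hP b σ r
    _ = 2 * W1 := by
        rw [ENNReal.tsum_mul_right, ENNReal.tsum_geometric]
        congr 1
        rw [ENNReal.one_sub_inv_two, inv_inv]

end RP

end Pool.Agent.A217
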