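import Pool.Agent.MP217Area.RP

set_option autoImplicit false

/-!
# Measurability of the runs of a round protocol, and the composed algorithm
-/

namespace Pool.Agent.A217

open MeasureTheory
open scoped ENNReal
open Pool.Agent.MP217Upper.Model (Act Alg coins)

private theorem meas_split {Ω S : Type} [MeasurableSpace Ω] [Countable S] (f : Ω → S)
    (hf : ∀ s, MeasurableSet {c | f c = s}) (A : S → Set Ω) (hA : ∀ s, MeasurableSet (A s)) :
    MeasurableSet {c | c ∈ A (f c)} := by
  have h : {c | c ∈ A (f c)} = ⋃ s, ({c | f c = s} ∩ A s) := by
    ext c
    simp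
  rw [h]
  exact MeasurableSet.iUnion fun s => (hf s).inter (hA s)

private theorem meas_pred {Ω S : Type} [MeasurableSpace Ω] [Countable S] (f : Ω → S)
    (hf : ∀ s, MeasurableSet {c | f c = s}) (Q : S → Prop) : MeasurableSet {c | Q (f c)} := by
  have h := meas_split f hf (fun s => {_c | Q s}) (fun s => MeasurableSet.const (Q s))
  exact h

private theorem pre_coord {n : ℕ} (p : Fin n) (Q : (ℕ → Bool) → Prop)
    (hQ : MeasurableSet {c | Q c}) : MeasurableSet {c : Fin n → ℕ → Bool | Q (c p)} := by
  have h : Measurable fun c : Fin n → ℕ → Bool => c p := measurable_pi_apply p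
  exact h hQ

private theorem pre_blk (r : ℕ) (Q : (ℕ → Bool) → Prop)
    (hQ : MeasurableSet {c | Q c}) : MeasurableSet {c : ℕ → Bool | Q (RP.blk c r)} := by
  have h : Measurable fun c : ℕ → Bool => RP.blk c r :=
    measurable_pi_lambda _ fun j => measurable_pi_apply (Nat.pair r j)
  exact h hQ

namespace RP

variable {n : ℕ} (P : RP n)

/-- The step when the state of `q` is `s0`. -/
private def stepAt (s0 : P.S) (c : Fin n → ℕ → Bool) (p : Fin n) (C : RCfg P) : RCfg P :=
  match P.next p s0 with
  | .read w k => ⟨Function.update C.st p (P.upd p (c p) s0 (some (C.mem w p k))), C.mem⟩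
  | .write r k v => ⟨Function.update C.st p (P.upd p (c p) s0 none),
      Function.update C.mem p (Function.update (C.mem p) r (Function.update (C.mem p r) k v))⟩
  | .fin _ _ => C

private theorem step_eq (c : Fin n → ℕ → Bool) (p : Fin n) (C : RCfg P) :
    P.step c p C = P.stepAt (C.st p) c p C := rfl

private theorem meas_run (x : Fin n → Bool) (σ : ℕ → Option (Fin n)) (t : ℕ) :
    (∀ p s, MeasurableSet {c : Fin n → ℕ → Bool | (P.run x c σ t).st p = s}) ∧
    (∀ w r k v, MeasurableSet {c : Fin n → ℕ → Bool | (P.run x c σ t).mem w r k = v}) := by
  have := P.cnt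
  induction t with
  | zero =>
    refine ⟨fun p s => ?_, fun w r k v => ?_⟩
    · exact pre_coord p (fun c => P.init p (x p) c = s) (P.init_meas p (x p) s)
    · exact MeasurableSet.const (0 = v)
  | succ t ih =>
    obtain ⟨ihs, ihm⟩ := ih
    rcases hσ : σ t with _ | q
    · have hrun : ∀ c, P.run x c σ (t + 1) = P.run x c σ t := by
        intro c
        rw [run, hσ]
      simp only [hrun]
      exact ⟨ihs, ihm⟩
    · have hrun : ∀ c, P.run x c σ (t + 1) =
          P.stepAt ((P.run x c σ t).st q) c q (P.run x c σ t) := by
        intro c
        rw [run, hσ]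
        exact P.step_eq c q _
      have hu : ∀ (s0 : P.S) (r : Option ℕ) (s : P.S),
          MeasurableSet {c : Fin n → ℕ → Bool | P.upd q (c q) s0 r = s} := by
        intro s0 r s
        exact pre_coord q (fun c => P.upd q c s0 r = s) (P.upd_meas q s0 r s)
      refine ⟨fun p s => ?_, fun w r k v => ?_⟩
      · simp only [hrun]
        refine meas_split (fun c => (P.run x c σ t).st q) (ihs q)
          (fun s0 => {c | (P.stepAt s0 c q (P.run x c σ t)).st p = s}) fun s0 => ?_
        unfold stepAt
        rcases hn : P.next q s0 with ⟨w, k⟩ | ⟨r, k, v⟩ | ⟨v, d⟩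
        · simp only
          by_cases hp : p = q
          · subst hp
            simp only [Function.update_self]
            exact meas_split (fun c => (P.run x c σ t).mem w p k) (ihm w p k)
              (fun v => {c | P.upd p (c p) s0 (some v) = s}) fun v => hu s0 (some v) s
          · simp only [Function.update_of_ne hp]
            exact ihs p s
        · simp only
          by_cases hp : p = q
          · subst hp
            simp only [Function.update_self]
            exact hu s0 none s
          · simp only [Function.update_of_ne hp]
            exact ihs p s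
        · exact ihs p s
      · simp only [hrun]
        refine meas_split (fun c => (P.run x c σ t).st q) (ihs q)
          (fun s0 => {c | (P.stepAt s0 c q (P.run x c σ t)).mem w r k = v}) fun s0 => ?_
        unfold stepAt
        rcases hn : P.next q s0 with ⟨w', k'⟩ | ⟨r', k', v'⟩ | ⟨v', d'⟩
        · exact ihm w r k v
        · simp only
          by_cases hw : w = q
          · subst hw
            simp only [Function.update_self]
            by_cases hr : r = r'
            · subst hr
              simp only [Function.update_self]
              by_cases hk : k = k'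
              · subst hk
                simp only [Function.update_self]
                exact MeasurableSet.const _
              · simp only [Function.update_of_ne hk]
                exact ihm w r k v
            · simp only [Function.update_of_ne hr]
              exact ihm w r k v
          · simp only [Function.update_of_ne hw]
            exact ihm w r k v
        · exact ihm w r k v

theorem meas_st (x : Fin n → Bool) (σ : ℕ → Option (Fin n)) (t : ℕ) (p : Fin n) (s : P.S) :
    MeasurableSet {c : Fin n → ℕ → Bool | (P.run x c σ t).st p = s} :=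
  (P.meas_run x σ t).1 p s

theorem measurable_work (x : Fin n → Bool) (σ : ℕ → Option (Fin n)) :
    Measurable fun c : Fin n → ℕ → Bool => P.work x c σ := by
  classical
  have := P.cnt
  unfold work
  refine Measurable.iSup fun t => ?_
  have hnat : Measurable fun c : Fin n → ℕ → Bool => ∑ p, P.steps x c σ t p := by
    refine Finset.measurable_sum _ fun p _ => ?_
    unfold steps
    simp only [Finset.card_filter]
    refine Finset.measurable_sum _ fun t' _ => ?_
    refine Measurable.ite ?_ measurable_const measurable_const
    refine (MeasurableSet.const (σ t' = some p)).inter ?_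
    exact meas_pred (fun c => (P.run x c σ t').st p) (P.meas_st x σ t' p)
      (fun s => ∀ v d, P.next p s ≠ .fin v d)
  exact (measurable_from_top (f := fun m : ℕ => (m : ℝ≥0∞))).comp hnat

theorem meas_Succ (x : Fin n → Bool) (σ : ℕ → Option (Fin n)) :
    MeasurableSet {c : Fin n → ℕ → Bool | P.Succ x c σ} := by
  have := P.cnt
  have h : {c : Fin n → ℕ → Bool | P.Succ x c σ} = ⋃ v : Bool, ⋂ t : ℕ, ⋂ p : Fin n,
      {c | ∀ v' d', P.next p ((P.run x c σ t).st p) = .fin v' d' → v' = v ∧ d' = true} := by
    ext c
    simp [Succ]
  rw [h]
  refine MeasurableSet.iUnion fun v => MeasurableSet.iInter fun t => MeasurableSet.iInter fun p => ?_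
  exact meas_pred (fun c => (P.run x c σ t).st p) (P.meas_st x σ t p)
    (fun s => ∀ v' d', P.next p s = .fin v' d' → v' = v ∧ d' = true)

private theorem cnt_CSt : Countable (CSt P) := by
  have := P.cnt
  have hf : Function.Injective (fun y : CSt P => (match y with
      | .act r s => Sum.inl (r, s)
      | .out v => Sum.inr v : (ℕ × P.S) ⊕ Bool)) := by
    intro a b hab
    rcases a with ⟨r, s⟩ | v <;> rcases b with ⟨r', s'⟩ | v' <;> simp_all
  exact hf.countable

private theorem meas_norm (i : Fin n) (r : ℕ) (s : P.S) (y : CSt P) :
    MeasurableSet {c : ℕ → Bool | P.norm i c r s = y} := by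
  unfold norm
  rcases hn : P.next i s with ⟨w, k⟩ | ⟨r', k, v⟩ | ⟨v, d⟩
  · exact MeasurableSet.const (CSt.act r s = y)
  · exact MeasurableSet.const (CSt.act r s = y)
  · rcases d with _ | _
    · simp only
      rcases y with ⟨r', s'⟩ | v'
      · have h : {c : ℕ → Bool | CSt.act (P := P) (r + 1) (P.init i v (blk c (r + 1))) =
            CSt.act r' s'} = {_c : ℕ → Bool | r + 1 = r'} ∩
              {c : ℕ → Bool | P.init i v (blk c (r + 1)) = s'} := by
          ext c
          simp
        rw [h]
        exact (MeasurableSet.const _).inter
          (pre_blk (r + 1) (fun c => P.init i v c = s') (P.init_meas i v s'))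
      · have h : {c : ℕ → Bool | CSt.act (P := P) (r + 1) (P.init i v (blk c (r + 1))) =
            CSt.out v'} = ∅ := by
          ext c
          simp
        rw [h]
        exact MeasurableSet.empty
    · exact MeasurableSet.const (CSt.out v = y)

private theorem meas_cs (i : Fin n) (b : Bool) (h : List (Option ℕ)) (y : CSt P) :
    MeasurableSet {c : ℕ → Bool | P.cs i b c h = y} := by
  have := P.cnt
  have := P.cnt_CSt
  induction h generalizing y with
  | nil =>
    rcases y with ⟨r', s'⟩ | v'
    · have h : {c : ℕ → Bool | P.cs i b c [] = CSt.act r' s'} = {_c : ℕ → Bool | 0 = r'} ∩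
            {c : ℕ → Bool | P.init i b (blk c 0) = s'} := by
        ext c
        simp [cs]
      rw [h]
      exact (MeasurableSet.const _).inter
        (pre_blk 0 (fun c => P.init i b c = s') (P.init_meas i b s'))
    · have h : {c : ℕ → Bool | P.cs i b c [] = CSt.out v'} = ∅ := by
        ext c
        simp [cs]
      rw [h]
      exact MeasurableSet.empty
  | cons a h ih =>
    let nx : (ℕ → Bool) → CSt P → CSt P := fun c z => match z with
      | .act r s => P.norm i c r (P.upd i (blk c r) s a)
      | .out v => .out v
    have hcs : {c : ℕ → Bool | P.cs i b c (a :: h) = y} =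
        {c | c ∈ (fun z : CSt P => {c : ℕ → Bool | nx c z = y}) (P.cs i b c h)} := rfl
    rw [hcs]
    refine meas_split (fun c => P.cs i b c h) ih
      (fun z : CSt P => {c : ℕ → Bool | nx c z = y}) fun z => ?_
    rcases z with ⟨r, s⟩ | v
    · refine meas_split (fun c : ℕ → Bool => P.upd i (blk c r) s a) (fun s' => ?_)
        (fun s' => {c : ℕ → Bool | P.norm i c r s' = y}) fun s' => P.meas_norm i r s' y
      exact pre_blk r (fun c => P.upd i c s a = s') (P.upd_meas i s a s')
    · exact MeasurableSet.const (CSt.out v = y)

theorem nxt_meas (i : Fin n) (b : Bool) (h : List (Option ℕ)) (a : Act n) :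
    MeasurableSet {c : ℕ → Bool | P.nxt i (P.cs i b c h) = a} := by
  have := P.cnt_CSt
  exact meas_pred (fun c => P.cs i b c h) (P.meas_cs i b h) (fun y => P.nxt i y = a)

/-- The composed algorithm. -/
def alg : Alg n where
  next i b c h := P.nxt i (P.cs i b c h)
  measurable_next := P.nxt_meas

end RP

end Pool.Agent.A217
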