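import Pool.Agent.MP217Area.RPsim
import Pool.Agent.MP217Area.RPind

set_option autoImplicit false

/-!
# The composed algorithm solves consensus
-/

namespace Pool.Agent.A217

open MeasureTheory
open scoped ENNReal
open Pool.Agent.MP217Upper.Model (Act Alg coins Solves)

namespace RP

variable {n : ℕ} {P : RP n} {W1 : ℝ≥0∞}

private theorem coins_univ (n : ℕ) : coins n Set.univ ≤ 1 := by
  have h1 : ∀ _ : Fin n, IsProbabilityMeasure
      (Measure.infinitePi fun _ : ℕ => (PMF.uniformOfFintype Bool).toMeasure) :=
    fun _ => inferInstance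
  have h2 : IsProbabilityMeasure (coins n) := by
    unfold coins
    infer_instance
  exact prob_le_one

/-- Outputs come from the state `out`. -/
private theorem out_of_outputs {b : Fin n → Bool} {c : Fin n → ℕ → Bool} {σ : ℕ → Fin n} {t : ℕ}
    {p : Fin n} {v : Bool} (h : MP217Upper.Model.Outputs P.alg b c σ t p v) :
    P.cs p (b p) (c p) ((MP217Upper.Model.run P.alg b c σ t).hist p) = .out v := by
  unfold MP217Upper.Model.Outputs at h
  change P.nxt p (P.cs p (b p) (c p) ((MP217Upper.Model.run P.alg b c σ t).hist p)) = _ at h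
  cases hs : P.cs p (b p) (c p) ((MP217Upper.Model.run P.alg b c σ t).hist p) with
  | act r s =>
    rw [hs] at h
    have h1 := (P.sim_act b c σ hs).2.1
    unfold nxt at h
    cases hn : P.next p s with
    | read w k => simp [hn] at h
    | write y k w => simp [hn] at h
    | fin w d => exact absurd hn (h1 w d)
  | out w =>
    rw [hs] at h
    unfold nxt at h
    simp only [Act.output.injEq] at h
    rw [h]

/-- Nobody scheduled: the initial configuration. -/
private theorem run_none {x : Fin n → Bool} {c : Fin n → ℕ → Bool} {σ : ℕ → Option (Fin n)}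
    (h : ∀ t, σ t = none) (t : ℕ) :
    P.run x c σ t = ⟨fun p => P.init p (x p) (c p), fun _ _ _ => 0⟩ := by
  induction t with
  | zero => rfl
  | succ t ih =>
    rw [run, h t]
    exact ih

private theorem sched_none {σ : ℕ → Fin n} {τ : Fin n → Option ℕ} (h : ∀ p, τ p = none) (t : ℕ) :
    sched σ τ t = none := by
  unfold sched
  rw [h]

private theorem not_fin_of_none {x : Fin n → Bool} {c : Fin n → ℕ → Bool}
    {σ : ℕ → Option (Fin n)} (h : ∀ t, σ t = none) (t : ℕ) (p : Fin n) (v d : Bool) :
    P.next p ((P.run x c σ t).st p) ≠ .fin v d := by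
  rw [run_none h]
  exact P.init_fin p (x p) (c p) v d

/-- If nobody leaves round `r` undecided, nobody enters round `r + 1`. -/
private theorem lev_none {b : Fin n → Bool} {c : Fin n → ℕ → Bool} {σ : ℕ → Fin n} {r : ℕ}
    (h : ∀ t p v, P.next p ((P.rrun b c σ r t).st p) ≠ .fin v false) (p : Fin n) :
    (P.lev b c σ (r + 1)).2 p = none := by
  rw [lev, nextLev]
  simp only
  rw [dif_neg]
  rintro ⟨t, v, hv⟩
  exact h t p v hv

private theorem lev_none_succ {b : Fin n → Bool} {c : Fin n → ℕ → Bool} {σ : ℕ → Fin n} {r : ℕ}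
    (h : ∀ p, (P.lev b c σ r).2 p = none) (p : Fin n) :
    (P.lev b c σ (r + 1)).2 p = none :=
  lev_none (fun t q v => not_fin_of_none (sched_none h) t q v false) p

private theorem lev_none_le {b : Fin n → Bool} {c : Fin n → ℕ → Bool} {σ : ℕ → Fin n} {r r' : ℕ}
    (h : ∀ p, (P.lev b c σ r).2 p = none) (hr : r ≤ r') (p : Fin n) :
    (P.lev b c σ r').2 p = none := by
  induction r', hr using Nat.le_induction generalizing p with
  | base => exact h p
  | succ r' _ ih => exact lev_none_succ ih p

/-- What it means to enter the next round. -/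
private theorem lev_some {b : Fin n → Bool} {c : Fin n → ℕ → Bool} {σ : ℕ → Fin n} {r : ℕ}
    {p : Fin n} (h : (P.lev b c σ (r + 1)).2 p ≠ none) :
    ∃ t v, P.next p ((P.rrun b c σ r t).st p) = .fin v false := by
  by_contra hc
  apply h
  rw [lev, nextLev]
  simp only
  rw [dif_neg]
  rintro ⟨t, v, hv⟩
  exact hc ⟨t, v, hv⟩

/-- The participants of a round are the processors that enter it. -/
private theorem lev_of_sched {σ : ℕ → Fin n} {τ : Fin n → Option ℕ} {t : ℕ} {p : Fin n}
    (h : sched σ τ t = some p) : τ p ≠ none := by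
  unfold sched at h
  cases hs : τ (σ t) with
  | none => rw [hs] at h; simp at h
  | some e =>
    rw [hs] at h
    simp only at h
    split_ifs at h with h1
    have h2 : σ t = p := by simpa using h
    rw [← h2, hs]
    simp

/-- After a decision in round `r`, the next round is unanimous. -/
private theorem next_unan (hP : P.Good W1) {b : Fin n → Bool} {c : Fin n → ℕ → Bool}
    {σ : ℕ → Fin n} {r t : ℕ} {p : Fin n} {v : Bool}
    (h : P.next p ((P.rrun b c σ r t).st p) = .fin v true) :
    ∀ t' q v' d', P.next q ((P.rrun b c σ (r + 1) t').st q) = .fin v' d' → v' = v ∧ d' = true := by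
  classical
  apply hP.unan
  intro t' q hq
  obtain ⟨t1, v1, h1⟩ := lev_some (lev_of_sched hq)
  have h2 : v1 = v := hP.agree _ _ _ _ _ _ _ _ _ _ h h1
  subst h2
  rw [lev, nextLev]
  simp only
  cases v1 with
  | true =>
    rw [decide_eq_true_iff]
    exact ⟨t1, h1⟩
  | false =>
    rw [decide_eq_false_iff_not]
    rintro ⟨t2, h2⟩
    have h3 : true = false := hP.agree _ _ _ _ _ _ _ _ _ _ h h2
    simp at h3

private theorem agree_lt (hP : P.Good W1) {b : Fin n → Bool} {c : Fin n → ℕ → Bool}
    {σ : ℕ → Fin n} {r r' t t' : ℕ} {p p' : Fin n} {v v' : Bool} (hr : r ≤ r')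
    (h : P.next p ((P.rrun b c σ r t).st p) = .fin v true)
    (h' : P.next p' ((P.rrun b c σ r' t').st p') = .fin v' true) : v' = v := by
  rcases Nat.eq_or_lt_of_le hr with rfl | hr
  · exact hP.agree _ _ _ _ _ _ _ _ _ _ h h'
  rcases Nat.eq_or_lt_of_le (Nat.succ_le_of_lt hr) with hr1 | hr1
  · have e : r' = r + 1 := by omega
    subst e
    exact (next_unan hP h _ _ _ _ h').1
  · exfalso
    have h1 : ∀ q, (P.lev b c σ (r + 1 + 1)).2 q = none := by
      apply lev_none
      intro t1 q v1 h2
      have h3 := (next_unan hP h _ _ _ _ h2).2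
      simp at h3
    have h2 : ∀ q, (P.lev b c σ r').2 q = none := lev_none_le h1 (by omega)
    exact not_fin_of_none (sched_none h2) _ _ _ _ h'

/-- With bounded rounds the histories are bounded if some round is not entered. -/
private theorem len_bdd {b : Fin n → Bool} {c : Fin n → ℕ → Bool} {σ : ℕ → Fin n} {r Bd : ℕ}
    (hB : ∀ x c σ t p, P.steps x c σ t p ≤ Bd) (h : ∀ p, (P.lev b c σ r).2 p = none) (t : ℕ)
    (p : Fin n) : ((MP217Upper.Model.run P.alg b c σ t).hist p).length ≤ r * Bd := by
  classical
  have h1 := P.sim_len b c σ t p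
  have h2 : ∑' r', (P.steps (P.lev b c σ r').1 (blks c r') (sched σ (P.lev b c σ r').2) t p :
      ℝ≥0∞) ≤ ((r * Bd : ℕ) : ℝ≥0∞) := by
    rw [tsum_eq_sum (s := Finset.range r)]
    · calc ∑ r' ∈ Finset.range r, (P.steps (P.lev b c σ r').1 (blks c r')
            (sched σ (P.lev b c σ r').2) t p : ℝ≥0∞)
          ≤ ∑ r' ∈ Finset.range r, (Bd : ℝ≥0∞) :=
            Finset.sum_le_sum fun r' _ => by exact_mod_cast hB _ _ _ _ _
        _ = ((r * Bd : ℕ) : ℝ≥0∞) := by
            rw [Finset.sum_const, Finset.card_range, nsmul_eq_mul]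
            push_cast
            rfl
    · intro r' hr'
      have h3 : r ≤ r' := by simpa using hr'
      have h4 := lev_none_le h h3
      have h5 : P.steps (P.lev b c σ r').1 (blks c r') (sched σ (P.lev b c σ r').2) t p = 0 := by
        unfold steps
        rw [Finset.card_eq_zero, Finset.filter_eq_empty_iff]
        rintro t' _ ⟨h6, _⟩
        rw [sched_none h4] at h6
        simp at h6
      rw [h5]
      simp
  exact_mod_cast h1.trans h2

private theorem ent_pow (hP : P.Good W1) (b : Fin n → Bool) (σ : ℕ → Fin n) (r : ℕ) :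
    coins n {c | ∃ p, (P.lev b c σ r).2 p ≠ none} ≤ 2⁻¹ ^ r := by
  induction r with
  | zero =>
    rw [pow_zero]
    exact (measure_mono (Set.subset_univ _)).trans (coins_univ n)
  | succ r ih =>
    calc coins n {c | ∃ p, (P.lev b c σ (r + 1)).2 p ≠ none}
        ≤ 2⁻¹ * coins n {c | ∃ p, (P.lev b c σ r).2 p ≠ none} := ent_half hP b σ r
      _ ≤ 2⁻¹ * 2⁻¹ ^ r := by gcongr
      _ = 2⁻¹ ^ (r + 1) := by rw [pow_succ, mul_comm]

private theorem exists_none (hP : P.Good W1) (b : Fin n → Bool) (σ : ℕ → Fin n) :
    ∀ᵐ c ∂coins n, ∃ r, ∀ p, (P.lev b c σ r).2 p = none := by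
  rw [ae_iff]
  have h1 : ∀ r, coins n {c | ¬ ∃ r, ∀ p, (P.lev b c σ r).2 p = none} ≤ 2⁻¹ ^ r := by
    intro r
    refine (measure_mono ?_).trans (ent_pow hP b σ r)
    intro c hc
    simp only [not_exists, not_forall] at hc
    exact hc r
  have h2 : Filter.Tendsto (fun r : ℕ => (2⁻¹ : ℝ≥0∞) ^ r) Filter.atTop (nhds 0) :=
    ENNReal.tendsto_pow_atTop_nhds_zero_of_lt_one (by
      rw [ENNReal.inv_lt_one]
      exact ENNReal.one_lt_two)
  exact le_antisymm (ge_of_tendsto' h2 h1) bot_le

theorem solves (hP : P.Good W1) : Solves P.alg := by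
  refine ⟨?_, ?_, ?_⟩
  · intro b σ
    refine Filter.Eventually.of_forall ?_
    intro c t t' i j v v' h h'
    obtain ⟨r, _, h1⟩ := P.sim_out b c σ (out_of_outputs h)
    obtain ⟨r', _, h1'⟩ := P.sim_out b c σ (out_of_outputs h')
    rcases le_total r r' with hr | hr
    · exact (agree_lt hP hr h1 h1').symm
    · exact agree_lt hP hr h1' h1
  · intro b σ
    refine Filter.Eventually.of_forall ?_
    intro c t i v h
    by_contra hc
    have hb : ∀ j, b j = !v := by
      intro j
      have : b j ≠ v := fun h => hc ⟨j, h⟩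
      cases hj : b j <;> cases v <;> simp_all
    obtain ⟨r, ⟨e, _, he⟩, h1⟩ := P.sim_out b c σ (out_of_outputs h)
    have hu : ∀ t' q v' d', P.next q ((P.rrun b c σ 0 t').st q) = .fin v' d' →
        v' = (!v) ∧ d' = true := by
      apply hP.unan
      intro t' q _
      exact hb q
    rcases Nat.eq_zero_or_pos r with rfl | hr
    · have := (hu _ _ _ _ h1).1
      cases v <;> simp at this
    · have h2 : ∀ q, (P.lev b c σ (0 + 1)).2 q = none := by
        apply lev_none
        intro t1 q v1 h2
        have h3 := (hu _ _ _ _ h2).2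
        simp at h3
      have h3 := lev_none_le h2 (show 0 + 1 ≤ r by omega) i
      rw [h3] at he
      simp at he
  · intro b σ i hi
    obtain ⟨Bd, hBd⟩ := hP.bdd
    filter_upwards [exists_none hP b σ] with c hc
    obtain ⟨r, hr⟩ := hc
    by_contra hno
    have hstep : ∀ t, σ t = i →
        ((MP217Upper.Model.run P.alg b c σ (t + 1)).hist i).length =
          ((MP217Upper.Model.run P.alg b c σ t).hist i).length + 1 := by
      intro t ht
      rw [MP217Upper.Model.run, ht, MP217Upper.Model.step]
      cases hn : P.alg.next i (b i) (c i) ((MP217Upper.Model.run P.alg b c σ t).hist i) with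
      | read w k => simp
      | write y k w => simp
      | output v => exact absurd ⟨t, v, hn⟩ hno
    have hmono : ∀ t, ((MP217Upper.Model.run P.alg b c σ t).hist i).length ≤
        ((MP217Upper.Model.run P.alg b c σ (t + 1)).hist i).length := by
      intro t
      rw [MP217Upper.Model.run, MP217Upper.Model.step]
      cases hn : P.alg.next (σ t) (b (σ t)) (c (σ t))
          ((MP217Upper.Model.run P.alg b c σ t).hist (σ t)) with
      | read w k =>
        simp only
        by_cases h : i = σ t
        · subst h; simp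
        · rw [Function.update_of_ne h]
      | write y k w =>
        simp only
        by_cases h : i = σ t
        · subst h; simp
        · rw [Function.update_of_ne h]
      | output v => simp
    have hm := monotone_nat_of_le_succ hmono
    have hgrow : ∀ N, ∃ t, N ≤ ((MP217Upper.Model.run P.alg b c σ t).hist i).length := by
      intro N
      induction N with
      | zero => exact ⟨0, Nat.zero_le _⟩
      | succ N ih =>
        obtain ⟨t, ht⟩ := ih
        obtain ⟨t', ht', h'⟩ := hi t
        refine ⟨t' + 1, ?_⟩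
        rw [hstep t' h']
        have := hm ht'
        simp only at this
        omega
    obtain ⟨t, ht⟩ := hgrow (r * Bd + 1)
    have := len_bdd hBd hr t i
    omega

end RP

end Pool.Agent.A217
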