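import Mathlib

set_option autoImplicit false

/-!
# Sifting
-/

namespace Pool.Agent.A217

open Finset

/-- `x` is the minimum of `F` for the value `v` (ties are broken by the index). -/
def IsMin {n R : ℕ} (v : Fin n → Fin R) (F : Finset (Fin n)) (x : Fin n) : Prop :=
  x ∈ F ∧ ∀ y ∈ F, v x < v y ∨ (v x = v y ∧ x ≤ y)

private lemma Sift_pair {n R : ℕ} {x y : Fin n} (h : x ≠ y) :
    R * (univ.filter fun v : Fin n → Fin R => v x = v y).card = R ^ n := by
  have e : Fintype.card (Fin R × {v : Fin n → Fin R // v x = v y}) =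
      Fintype.card (Fin n → Fin R) := by
    apply Fintype.card_congr
    refine ⟨fun p => Function.update p.2.1 y p.1,
      fun w => (w y, ⟨Function.update w y (w x), ?_⟩), ?_, ?_⟩
    · rw [Function.update_of_ne h, Function.update_self]
    · rintro ⟨a, v, hv⟩
      have h1 : Function.update (Function.update v y a) y (Function.update v y a x) = v := by
        rw [Function.update_idem, Function.update_of_ne h, hv, Function.update_eq_self]
      simp only [Function.update_self]
      exact Prod.ext rfl (Subtype.ext h1)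
    · intro w
      simp only [Function.update_idem, Function.update_eq_self]
  rw [Fintype.card_prod, Fintype.card_subtype, Fintype.card_fun, Fintype.card_fin,
    Fintype.card_fin] at e
  exact e

private lemma Sift_choose (m : ℕ) : m ≤ 1 + m.choose 2 := by
  induction m with
  | zero => simp
  | succ m ih =>
    rcases Nat.eq_zero_or_pos m with h | h
    · subst h; simp
    · have : (m + 1).choose 2 = m.choose 1 + m.choose 2 := Nat.choose_succ_succ m 1
      rw [this, Nat.choose_one_right]
      omega

/-- The reversed values. -/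
private def Sift_rev {n R : ℕ} (v : Fin n → Fin R) : Fin n → Fin R := fun x => (v x).rev

private lemma Sift_rev_invol {n R : ℕ} (v : Fin n → Fin R) : Sift_rev (Sift_rev v) = v := by
  funext x
  simp [Sift_rev]

open Classical in
private noncomputable def Sift_M {n R : ℕ} {ι : Type} (U : Finset (Fin n))
    (F : ι → Finset (Fin n)) (v : Fin n → Fin R) : Finset (Fin n) :=
  U.filter fun x => ∃ i, IsMin v (F i) x

private def Sift_P {n R : ℕ} (U : Finset (Fin n)) (v : Fin n → Fin R) :
    Finset (Finset (Fin n)) :=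
  (U.powersetCard 2).filter fun s => ∀ x ∈ s, ∀ y ∈ s, v x = v y

private lemma Sift_eq_card {n R : ℕ} (U : Finset (Fin n)) (v : Fin n → Fin R) (t : Fin R) :
    (U.filter fun x => v x = t).card ≤ 1 + (Sift_P U v).card := by
  refine (Sift_choose _).trans ?_
  rw [← Finset.card_powersetCard]
  refine Nat.add_le_add_left (Finset.card_le_card ?_) 1
  intro s hs
  rw [Finset.mem_powersetCard] at hs
  unfold Sift_P
  rw [Finset.mem_filter, Finset.mem_powersetCard]
  refine ⟨⟨hs.1.trans (Finset.filter_subset _ _), hs.2⟩, ?_⟩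
  intro x hx y hy
  have h1 := (Finset.mem_filter.1 (hs.1 hx)).2
  have h2 := (Finset.mem_filter.1 (hs.1 hy)).2
  rw [h1, h2]

private lemma Sift_two {n R : ℕ} {ι : Type} (U : Finset (Fin n)) (F : ι → Finset (Fin n))
    (hne : ∀ i j, (F i ∩ F j).Nonempty) (v : Fin n → Fin R) :
    (Sift_M U F v).card + (Sift_M U F (Sift_rev v)).card ≤ U.card + (1 + (Sift_P U v).card) := by
  classical
  have hcross : ∀ x ∈ Sift_M U F v, ∀ y ∈ Sift_M U F (Sift_rev v), v x ≤ v y := by
    intro x hx y hy
    obtain ⟨-, i, hxi, hi⟩ := Finset.mem_filter.1 hx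
    obtain ⟨-, j, hyj, hj⟩ := Finset.mem_filter.1 hy
    obtain ⟨z, hz⟩ := hne i j
    rw [Finset.mem_inter] at hz
    have h1 : v x ≤ v z := by
      rcases hi z hz.1 with h | h
      · exact h.le
      · exact h.1.le
    have h2 : v z ≤ v y := by
      rcases hj z hz.2 with h | h
      · exact (Fin.rev_lt_rev.1 h).le
      · exact (Fin.rev_injective h.1).ge
    exact h1.trans h2
  rcases (Sift_M U F v).eq_empty_or_nonempty with h0 | hne0
  · rw [h0, Finset.card_empty, Nat.zero_add]
    exact (Finset.card_le_card (Finset.filter_subset _ _)).trans (Nat.le_add_right _ _)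
  · obtain ⟨x0, hx0, hmax⟩ := Finset.exists_max_image (Sift_M U F v) v hne0
    have hA : Sift_M U F v ⊆ U.filter fun x => v x ≤ v x0 := by
      intro x hx
      rw [Finset.mem_filter]
      exact ⟨(Finset.mem_filter.1 hx).1, hmax x hx⟩
    have hB : Sift_M U F (Sift_rev v) ⊆ U.filter fun x => v x0 ≤ v x := by
      intro y hy
      rw [Finset.mem_filter]
      exact ⟨(Finset.mem_filter.1 hy).1, hcross x0 hx0 y hy⟩
    have h1 := Finset.card_le_card hA
    have h2 := Finset.card_le_card hB
    have h3 := Finset.card_union_add_card_inter (U.filter fun x => v x ≤ v x0)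
      (U.filter fun x => v x0 ≤ v x)
    have h4 : (U.filter fun x => v x ≤ v x0) ∪ (U.filter fun x => v x0 ≤ v x) ⊆ U :=
      Finset.union_subset (Finset.filter_subset _ _) (Finset.filter_subset _ _)
    have h5 : (U.filter fun x => v x ≤ v x0) ∩ (U.filter fun x => v x0 ≤ v x) ⊆
        U.filter fun x => v x = v x0 := by
      intro x hx
      rw [Finset.mem_inter, Finset.mem_filter, Finset.mem_filter] at hx
      rw [Finset.mem_filter]
      exact ⟨hx.1.1, le_antisymm hx.1.2 hx.2.2⟩
    have h6 := Finset.card_le_card h4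
    have h7 := Finset.card_le_card h5
    have h8 := Sift_eq_card U v (v x0)
    omega

private lemma Sift_sum_rev {n R : ℕ} (f : (Fin n → Fin R) → ℕ) :
    ∑ v : Fin n → Fin R, f (Sift_rev v) = ∑ v : Fin n → Fin R, f v := by
  have hb : Function.Bijective (Sift_rev : (Fin n → Fin R) → (Fin n → Fin R)) :=
    Function.Involutive.bijective Sift_rev_invol
  exact hb.sum_comp f

private lemma Sift_sum_P {n R : ℕ} (U : Finset (Fin n)) :
    R * ∑ v : Fin n → Fin R, (Sift_P U v).card = U.card.choose 2 * R ^ n := by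
  classical
  have h1 : ∀ v : Fin n → Fin R, (Sift_P U v).card =
      ∑ s ∈ U.powersetCard 2, if (∀ x ∈ s, ∀ y ∈ s, v x = v y) then 1 else 0 := by
    intro v
    unfold Sift_P
    rw [Finset.card_filter]
  simp only [h1]
  rw [Finset.sum_comm, Finset.mul_sum, ← Finset.card_powersetCard, ← smul_eq_mul,
    ← Finset.sum_const]
  refine Finset.sum_congr rfl fun s hs => ?_
  obtain ⟨x, y, hxy, rfl⟩ := Finset.card_eq_two.1 (Finset.mem_powersetCard.1 hs).2
  rw [← Finset.card_filter, ← Sift_pair (R := R) hxy]
  congr 2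
  ext v
  simp only [Finset.mem_filter, Finset.mem_univ, true_and, Finset.mem_insert,
    Finset.mem_singleton, forall_eq_or_imp, forall_eq]
  constructor
  · intro h
    exact h.1
  · intro h
    exact ⟨h, h.symm, trivial⟩

open Classical in
/-- Pairwise intersecting sets have few minima. -/
theorem sift {n R : ℕ} {ι : Type} (U : Finset (Fin n)) (F : ι → Finset (Fin n))
    (hU : ∀ i, F i ⊆ U) (hne : ∀ i j, (F i ∩ F j).Nonempty) :
    4 * R * ∑ v : Fin n → Fin R, (U.filter fun x => ∃ i, IsMin v (F i) x).card ≤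
      R ^ n * (2 * R * (U.card + 1) + U.card ^ 2) := by
  have hM : ∑ v : Fin n → Fin R, (U.filter fun x => ∃ i, IsMin v (F i) x).card =
      ∑ v : Fin n → Fin R, (Sift_M U F v).card := rfl
  rw [hM]
  have h1 : ∑ v : Fin n → Fin R, ((Sift_M U F v).card + (Sift_M U F (Sift_rev v)).card) ≤
      ∑ v : Fin n → Fin R, (U.card + (1 + (Sift_P U v).card)) :=
    Finset.sum_le_sum fun v _ => Sift_two U F hne v
  rw [Finset.sum_add_distrib, Sift_sum_rev (fun v => (Sift_M U F v).card)] at h1
  have h2 : ∑ v : Fin n → Fin R, (U.card + (1 + (Sift_P U v).card)) =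
      R ^ n * (U.card + 1) + ∑ v : Fin n → Fin R, (Sift_P U v).card := by
    simp only [← Nat.add_assoc]
    rw [Finset.sum_add_distrib, Finset.sum_const, Finset.card_univ, Fintype.card_fun,
      Fintype.card_fin, Fintype.card_fin, smul_eq_mul]
  rw [h2] at h1
  have h3 := Sift_sum_P (R := R) U
  have h4 : 2 * U.card.choose 2 ≤ U.card ^ 2 := by
    rw [Nat.choose_two_right]
    calc 2 * (U.card * (U.card - 1) / 2) ≤ U.card * (U.card - 1) := Nat.mul_div_le _ _
      _ ≤ U.card * U.card := Nat.mul_le_mul_left _ (Nat.sub_le _ _)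
      _ = U.card ^ 2 := by ring
  set S : ℕ := ∑ v : Fin n → Fin R, (Sift_M U F v).card
  set T : ℕ := ∑ v : Fin n → Fin R, (Sift_P U v).card
  calc 4 * R * S = 2 * R * (S + S) := by ring
    _ ≤ 2 * R * (R ^ n * (U.card + 1) + T) := Nat.mul_le_mul_left _ h1
    _ = R ^ n * (2 * R * (U.card + 1)) + 2 * (R * T) := by ring
    _ = R ^ n * (2 * R * (U.card + 1)) + R ^ n * (2 * U.card.choose 2) := by
        rw [h3]; ring
    _ ≤ R ^ n * (2 * R * (U.card + 1)) + R ^ n * U.card ^ 2 :=
        Nat.add_le_add_left (Nat.mul_le_mul_left _ h4) _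
    _ = R ^ n * (2 * R * (U.card + 1) + U.card ^ 2) := by ring

end Pool.Agent.A217
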